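import Pool.Agent.Lib.MP_5c685b_co.N.R2
import Pool.Agent.Lib.MP_5c685b_co.E.Defs

set_option autoImplicit false

/-!
# Bridge: the statements NibStmt and ResStmt of the exact decomposition
-/

namespace MP5cN

open Finset MP5cH
open Pool.Agent.Lib.MP_5c685b_co.E (dg Cod Sm rg NibStmt ResStmt)

theorem dg_eq_Pbd {n : ℕ} {G : Finset (Finset (Fin n))} (hG : ∀ e ∈ G, e.card = 3) {a b : Fin n}
    (hab : a ≠ b) : dg G {a, b} = (Pbd G a b).card := by
  classical
  unfold dg
  symm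
  refine card_bij (fun v _ => ({a, b, v} : Finset (Fin n))) ?_ ?_ ?_
  · intro v hv
    obtain ⟨_, h1, h2, h3⟩ := mem_filter.1 hv
    refine mem_filter.2 ⟨h3, ?_⟩
    intro x hx
    rw [mem_insert, mem_singleton] at hx
    rcases hx with rfl | rfl <;> simp
  · intro v hv v' hv' h
    obtain ⟨_, h1, h2, h3⟩ := mem_filter.1 hv
    obtain ⟨_, h1', h2', h3'⟩ := mem_filter.1 hv'
    have h4 : v ∈ ({a, b, v'} : Finset (Fin n)) := by
      rw [← h]; simp
    rw [mem_insert, mem_insert, mem_singleton] at h4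
    rcases h4 with h4 | h4 | h4
    · exact absurd h4 h1
    · exact absurd h4 h2
    · exact h4
  · intro e he
    obtain ⟨h1, h2⟩ := mem_filter.1 he
    have h3 := hG e h1
    have h4 : (e \ {a, b}).card = 1 := by
      rw [card_sdiff_of_subset h2, h3, card_pair hab]
    obtain ⟨v, hv⟩ := card_eq_one.1 h4
    have hv1 : v ∈ e \ {a, b} := by rw [hv]; exact mem_singleton_self v
    have h5 : e = {a, b, v} := by
      have h6 : ({a, b} : Finset (Fin n)) ∪ (e \ {a, b}) = e := union_sdiff_of_subset h2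
      rw [← h6, hv]
      ext x
      simp [or_assoc]
    rw [mem_sdiff, mem_insert, mem_singleton, not_or] at hv1
    refine ⟨v, mem_filter.2 ⟨mem_univ _, hv1.2.1, hv1.2.2, ?_⟩, h5.symm⟩
    rw [← h5]
    exact h1

theorem Nbd_of_Cod {n : ℕ} {ρ : ℝ} {G : Finset (Finset (Fin n))} (h : Cod n ρ G) (a b : Fin n)
    (hab : a ≠ b) : ((Nbd G a b).card : ℝ) ≤ ρ * Fintype.card (Fin n) := by
  classical
  have h1 := h.2 {a, b} (card_pair hab)
  rw [dg_eq_Pbd h.1 hab] at h1
  have h2 : (Nbd G a b).card + (Pbd G a b).card ≤ n := by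
    rw [← card_union_of_disjoint]
    · exact (card_le_univ _).trans (le_of_eq (Fintype.card_fin n))
    · rw [disjoint_left]
      intro x hx hx'
      exact (mem_filter.1 hx).2.2.2 (mem_filter.1 hx').2.2.2
  have h3 : ((Nbd G a b).card : ℝ) + ((Pbd G a b).card : ℝ) ≤ n := by exact_mod_cast h2
  rw [Fintype.card_fin]
  nlinarith

theorem inter_of_tri {n : ℕ} {Q Q' : Finset (Fin n)} (h : Disjoint (tri Q) (tri Q')) :
    (Q ∩ Q').card ≤ 2 := by
  by_contra hcon
  obtain ⟨T, hT, hT3⟩ := exists_subset_card_eq (show 3 ≤ (Q ∩ Q').card by omega)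
  exact disjoint_left.1 h (mem_powersetCard.2 ⟨hT.trans inter_subset_left, hT3⟩)
    (mem_powersetCard.2 ⟨hT.trans inter_subset_right, hT3⟩)

theorem nibStmt {r : ℕ} (hr : 4 ≤ r) {ρ : ℝ} (hρ : 0 < ρ) (hF : Frac r ρ) :
    NibStmt r (ρ / 10) := by
  classical
  intro γ hγ
  obtain ⟨n₁, h⟩ := packing hr hρ hF hγ
  refine ⟨n₁, fun n hn G hG => ?_⟩
  obtain ⟨NN, h1, h2, h3⟩ := h (Fin n) (by rw [Fintype.card_fin]; exact hn) G hG.1
    (fun a b hab => Nbd_of_Cod hG a b hab)
  refine ⟨NN, h1, fun Q hQ Q' hQ' hne => inter_of_tri (h2 Q hQ Q' hQ' hne), ?_⟩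
  intro P hP
  obtain ⟨a, b, hab, rfl⟩ := card_eq_two.1 hP
  have h4 := h3 a b hab
  have h5 : G \ NN.biUnion Pool.Agent.Lib.MP_5c685b_co.E.tri =
      G.filter (fun e => ∀ Q ∈ NN, e ∉ tri Q) := by
    ext e
    simp only [mem_sdiff, mem_biUnion, mem_filter, not_exists, not_and]
    rfl
  rw [h5, dg_eq_Pbd (fun e he => hG.1 e (mem_filter.1 he).1) hab]
  rw [Fintype.card_fin] at h4
  exact h4

theorem resStmt {r : ℕ} (hr : 4 ≤ r) {ρ : ℝ} (hρ : 0 < ρ) (hF : Frac r ρ) :
    ResStmt r (ρ / 10) := by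
  classical
  intro p hp
  have hp' : 0 < min (p / 2) (1 / 2) := lt_min (by linarith) (by norm_num)
  obtain ⟨c₂, hc₂, n₁, h⟩ := reserve hr hρ hF hp' (min_le_right _ _)
  refine ⟨c₂, hc₂, n₁, fun n hn G hG => ?_⟩
  obtain ⟨X, hX, h1, h2⟩ := h (Fin n) (by rw [Fintype.card_fin]; exact hn) G hG.1
    (fun a b hab => Nbd_of_Cod hG a b hab)
  refine ⟨X, hX, ?_, fun e he => ?_⟩
  · intro P hP
    obtain ⟨a, b, hab, rfl⟩ := card_eq_two.1 hP
    rw [dg_eq_Pbd (fun e he => hG.1 e (hX he)) hab]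
    refine (h1 a b hab).trans ?_
    rw [Fintype.card_fin]
    have := min_le_left (p / 2) (1 / 2)
    gcongr
    linarith
  · have h3 := h2 e he
    rw [Fintype.card_fin] at h3
    refine h3.trans ?_
    have he3 := hG.1 e he
    -- choose an ordering of `Q \ e`
    have key : ∀ Q : Finset (Fin n), ∃ w : Fin (r - 3) → Fin n,
        (Q.card = r ∧ e ⊆ Q) → (Function.Injective w ∧ (∀ k, w k ∉ e) ∧ e ∪ rg w = Q) := by
      intro Q
      by_cases hQ : Q.card = r ∧ e ⊆ Q
      · have hc : (Q \ e).card = r - 3 := by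
          rw [card_sdiff_of_subset hQ.2, hQ.1, he3]
        let f := (Q \ e).orderEmbOfFin hc
        refine ⟨fun i => f i, fun _ => ⟨f.injective, fun k hk => ?_, ?_⟩⟩
        · exact (mem_sdiff.1 ((Q \ e).orderEmbOfFin_mem hc k)).2 hk
        · have h4 : rg (fun i => f i) = Q \ e := by
            unfold Pool.Agent.Lib.MP_5c685b_co.E.rg
            exact Finset.image_orderEmbOfFin_univ (Q \ e) hc
          rw [h4]
          exact union_sdiff_of_subset hQ.2
      · have hn0 : Nonempty (Fin n) := by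
          obtain ⟨x, hx⟩ := card_pos.1 (show 0 < e.card by omega)
          exact ⟨x⟩
        exact ⟨fun _ => Classical.choice hn0, fun h => absurd h hQ⟩
    choose W hW using key
    have h5 : (univ.filter (fun Q : Finset (Fin n) => Q.card = r ∧ e ⊆ Q ∧
        (tri Q).erase e ⊆ X)).card ≤
        (univ.filter fun w : Fin (r - 3) → Fin n => Function.Injective w ∧
            (∀ k, w k ∉ e) ∧
            (Pool.Agent.Lib.MP_5c685b_co.E.tri (e ∪ rg w)).erase e ⊆ X).card := by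
      refine card_le_card_of_injOn W ?_ ?_
      · intro Q hQ
        have hQ' := (mem_filter.1 (mem_coe.1 hQ)).2
        obtain ⟨a1, a2, a3⟩ := hW Q ⟨hQ'.1, hQ'.2.1⟩
        refine mem_coe.2 (mem_filter.2 ⟨mem_univ _, a1, a2, ?_⟩)
        rw [a3]
        exact hQ'.2.2
      · intro Q hQ Q' hQ' h
        have b := (mem_filter.1 (mem_coe.1 hQ)).2
        have b' := (mem_filter.1 (mem_coe.1 hQ')).2
        have a := (hW Q ⟨b.1, b.2.1⟩).2.2
        have a' := (hW Q' ⟨b'.1, b'.2.1⟩).2.2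
        rw [← a, ← a', h]
    exact_mod_cast h5

/-- both statements for all large `r`, from the finite theorem -/
theorem nib_res (hfin : Pool.Agent.Lib.MP_5c685b_co.FinThm) : ∃ c : ℝ, 0 < c ∧ ∃ r₀ : ℕ, 4 ≤ r₀ ∧
    ∀ r : ℕ, r₀ ≤ r → Frac r (c * Real.log r / (r : ℝ) ^ 2) ∧
      NibStmt r (c * Real.log r / (r : ℝ) ^ 2 / 10) ∧
      ResStmt r (c * Real.log r / (r : ℝ) ^ 2 / 10) := by
  obtain ⟨c, hc, r₀, hr₀, h⟩ := frac_all
  refine ⟨c, hc, r₀, hr₀, fun r hr => ?_⟩
  have hF := h r hr hfin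
  have hr4 : 4 ≤ r := hr₀.trans hr
  have hlog : 0 < Real.log r := Real.log_pos (by exact_mod_cast (by omega : 1 < r))
  have hpos : 0 < c * Real.log r / (r : ℝ) ^ 2 := by
    have : (0 : ℝ) < r := by exact_mod_cast (by omega : 0 < r)
    positivity
  exact ⟨hF, nibStmt hr4 hpos hF, resStmt hr4 hpos hF⟩

end MP5cN
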