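import Mathlib

set_option autoImplicit false

/-!
# 3-graphs: common definitions for the exact decomposition

`tri Q` triples inside `Q`; `Dec r A`: `A` is the disjoint union of `tri Q` for `r`-sets `Q`;
`Nbd G a b` the non-neighbours of a pair.
-/

namespace MP5cH

open Finset

/-- triples inside `Q` -/
def tri {V : Type} [DecidableEq V] (Q : Finset V) : Finset (Finset V) := Q.powersetCard 3

/-- the partners `v` with `abv` not an edge -/
def Nbd {V : Type} [Fintype V] [DecidableEq V] (G : Finset (Finset V)) (a b : V) : Finset V :=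
  univ.filter (fun v => v ≠ a ∧ v ≠ b ∧ ({a, b, v} : Finset V) ∉ G)

/-- the partners `v` with `abv` an edge -/
def Pbd {V : Type} [Fintype V] [DecidableEq V] (G : Finset (Finset V)) (a b : V) : Finset V :=
  univ.filter (fun v => v ≠ a ∧ v ≠ b ∧ ({a, b, v} : Finset V) ∈ G)

/-- The fractional theorem for one `r` with deficit `ρ`. -/
def Frac (r : ℕ) (ρ : ℝ) : Prop :=
  ∃ n₀ : ℕ, ∀ (V : Type) [Fintype V] [DecidableEq V], n₀ ≤ Fintype.card V →
    ∀ G : Finset (Finset V), (∀ e ∈ G, e.card = 3) →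
      (∀ a b : V, a ≠ b → ((Nbd G a b).card : ℝ) ≤ ρ * Fintype.card V) →
      ∃ w : Finset V → ℝ, (∀ Q, 0 ≤ w Q) ∧ (∀ Q, w Q ≠ 0 → Q.card = r ∧ tri Q ⊆ G) ∧
        ∀ e ∈ G, ∑ Q ∈ univ.filter (fun Q => e ⊆ Q), w Q = 1

end MP5cH
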