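import Mathlib

/-! Bounded differences (McDiarmid) on a finite product probability space, in finite form. -/

set_option autoImplicit false
set_option linter.all false

namespace Pool.Agent.Lib.MP_5c685b_co.D

open Finset

section McD

variable {I : Type*} [Fintype I] [DecidableEq I] {Om : I → Type*} [∀ i, Fintype (Om i)]
  [∀ i, DecidableEq (Om i)]

/-- expectation on a finite product space with weights `p` -/
noncomputable def Ex (p : ∀ i, Om i → ℝ) (f : (∀ i, Om i) → ℝ) : ℝ :=
  ∑ ω : (∀ i, Om i), (∏ i, p i (ω i)) * f ω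

/-- probability of an event -/
noncomputable def Pr (p : ∀ i, Om i → ℝ) (A : (∀ i, Om i) → Prop) : ℝ := by
  classical exact Ex p (fun ω => if A ω then 1 else 0)

/-- `p` is a system of probability weights -/
structure IsProb (p : ∀ i, Om i → ℝ) : Prop where
  nonneg : ∀ i a, 0 ≤ p i a
  one : ∀ i, ∑ a, p i a = 1

lemma Ex_mono {p : ∀ i, Om i → ℝ} (hp : IsProb p) {f g : (∀ i, Om i) → ℝ} (h : ∀ ω, f ω ≤ g ω) :
    Ex p f ≤ Ex p g :=
  Finset.sum_le_sum fun ω _ => mul_le_mul_of_nonneg_left (h ω)
    (Finset.prod_nonneg fun i _ => hp.nonneg i _)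

lemma Ex_nonneg {p : ∀ i, Om i → ℝ} (hp : IsProb p) {f : (∀ i, Om i) → ℝ} (h : ∀ ω, 0 ≤ f ω) :
    0 ≤ Ex p f :=
  Finset.sum_nonneg fun ω _ => mul_nonneg (Finset.prod_nonneg fun i _ => hp.nonneg i _) (h ω)

lemma Ex_add (p : ∀ i, Om i → ℝ) (f g : (∀ i, Om i) → ℝ) :
    Ex p (fun ω => f ω + g ω) = Ex p f + Ex p g := by
  simp only [Ex, mul_add, Finset.sum_add_distrib]

lemma Ex_sub (p : ∀ i, Om i → ℝ) (f g : (∀ i, Om i) → ℝ) :
    Ex p (fun ω => f ω - g ω) = Ex p f - Ex p g := by
  simp only [Ex, mul_sub, Finset.sum_sub_distrib]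

lemma Ex_smul (p : ∀ i, Om i → ℝ) (c : ℝ) (f : (∀ i, Om i) → ℝ) :
    Ex p (fun ω => c * f ω) = c * Ex p f := by
  simp only [Ex, Finset.mul_sum]
  exact Finset.sum_congr rfl fun ω _ => by ring

lemma Ex_sum {J : Type*} (s : Finset J) (p : ∀ i, Om i → ℝ) (f : J → (∀ i, Om i) → ℝ) :
    Ex p (fun ω => ∑ j ∈ s, f j ω) = ∑ j ∈ s, Ex p (f j) := by
  simp only [Ex, Finset.mul_sum]
  exact Finset.sum_comm

lemma sum_prod_eq_one {p : ∀ i, Om i → ℝ} (hp : IsProb p) :
    ∑ ω : (∀ i, Om i), ∏ i, p i (ω i) = 1 := by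
  rw [← Fintype.prod_sum (fun i a => p i a)]
  exact Finset.prod_eq_one fun i _ => hp.one i

lemma Ex_const {p : ∀ i, Om i → ℝ} (hp : IsProb p) (c : ℝ) : Ex p (fun _ => c) = c := by
  simp only [Ex]
  rw [← Finset.sum_mul, sum_prod_eq_one hp, one_mul]

/-- averaging in one coordinate -/
noncomputable def avg (p : ∀ i, Om i → ℝ) (i : I) (f : (∀ i, Om i) → ℝ) : (∀ i, Om i) → ℝ :=
  fun ω => ∑ a, p i a * f (Function.update ω i a)

lemma Ex_avg {p : ∀ i, Om i → ℝ} (hp : IsProb p) (i : I) (f : (∀ i, Om i) → ℝ) :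
    Ex p (avg p i f) = Ex p f := by
  classical
  have h1 : Ex p (avg p i f) = ∑ x : (∀ i, Om i) × Om i,
      (∏ j, p j (x.1 j)) * (p i x.2 * f (Function.update x.1 i x.2)) := by
    simp only [Ex, avg, Finset.mul_sum]
    rw [Fintype.sum_prod_type]
  have h2 : Ex p f = ∑ x : (∀ i, Om i) × Om i, (∏ j, p j (x.1 j)) * (p i x.2 * f x.1) := by
    rw [Fintype.sum_prod_type]
    simp only [Ex]
    refine Finset.sum_congr rfl fun ω _ => ?_
    rw [← Finset.mul_sum, ← Finset.sum_mul, hp.one i, one_mul]
  rw [h1, h2]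
  let τ : (∀ i, Om i) × Om i → (∀ i, Om i) × Om i := fun x => (Function.update x.1 i x.2, x.1 i)
  have hτ : Function.Involutive τ := by
    intro x
    simp only [τ, Function.update_idem, Function.update_self, Function.update_eq_self]
  refine Fintype.sum_equiv hτ.toPerm _ _ fun x => ?_
  simp only [Function.Involutive.coe_toPerm, τ]
  have key : (∏ j, p j (Function.update x.1 i x.2 j)) * p i (x.1 i) =
      (∏ j, p j (x.1 j)) * p i x.2 := by
    rw [← Finset.mul_prod_erase univ (fun j => p j (Function.update x.1 i x.2 j)) (mem_univ i),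
      ← Finset.mul_prod_erase univ (fun j => p j (x.1 j)) (mem_univ i), Function.update_self]
    have : ∏ j ∈ univ.erase i, p j (Function.update x.1 i x.2 j) =
        ∏ j ∈ univ.erase i, p j (x.1 j) :=
      Finset.prod_congr rfl fun j hj => by
        rw [Function.update_of_ne (Finset.ne_of_mem_erase hj)]
    rw [this]; ring
  calc (∏ j, p j (x.1 j)) * (p i x.2 * f (Function.update x.1 i x.2))
      = ((∏ j, p j (x.1 j)) * p i x.2) * f (Function.update x.1 i x.2) := by ring
    _ = ((∏ j, p j (Function.update x.1 i x.2 j)) * p i (x.1 i)) *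
        f (Function.update x.1 i x.2) := by rw [key]
    _ = _ := by ring

/-- convexity bound -/
lemma exp_le_cosh (s x : ℝ) (hs : 0 < s) (hx : |x| ≤ s) :
    Real.exp x ≤ Real.cosh s + x / s * Real.sinh s := by
  have hx' := abs_le.1 hx
  have h := convexOn_exp.2 (Set.mem_univ s) (Set.mem_univ (-s))
    (show (0 : ℝ) ≤ (s + x) / (2 * s) by apply div_nonneg <;> linarith)
    (show (0 : ℝ) ≤ (s - x) / (2 * s) by apply div_nonneg <;> linarith)
    (by field_simp; ring)
  simp only [smul_eq_mul] at h
  have e1 : (s + x) / (2 * s) * s + (s - x) / (2 * s) * (-s) = x := by field_simp; ring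
  rw [e1] at h
  refine h.trans (le_of_eq ?_)
  rw [Real.cosh_eq, Real.sinh_eq]
  field_simp
  ring

/-- one coordinate: exponential moment of a bounded variable -/
lemma one_coord {A : Type*} [Fintype A] (q : A → ℝ) (q0 : ∀ a, 0 ≤ q a) (q1 : ∑ a, q a = 1)
    (g : A → ℝ) (c : ℝ) (hg : ∀ a b, |g a - g b| ≤ c) (t : ℝ) :
    ∑ a, q a * Real.exp (t * g a) ≤
      Real.exp (t ^ 2 * c ^ 2 / 2) * Real.exp (t * ∑ a, q a * g a) := by
  classical
  set m := ∑ a, q a * g a with hm
  have hA : Nonempty A := by
    by_contra h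
    rw [not_nonempty_iff] at h
    simp at q1
  obtain ⟨a0⟩ := hA
  have hc : 0 ≤ c := (abs_nonneg _).trans (hg a0 a0)
  have hdev : ∀ a, |g a - m| ≤ c := by
    intro a
    have : g a - m = ∑ b, q b * (g a - g b) := by
      simp only [mul_sub, Finset.sum_sub_distrib, ← Finset.sum_mul, q1, one_mul, hm]
    rw [this]
    calc |∑ b, q b * (g a - g b)| ≤ ∑ b, |q b * (g a - g b)| := Finset.abs_sum_le_sum_abs _ _
      _ ≤ ∑ b, q b * c := Finset.sum_le_sum fun b _ => by
          rw [abs_mul, abs_of_nonneg (q0 b)]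
          exact mul_le_mul_of_nonneg_left (hg a b) (q0 b)
      _ = c := by rw [← Finset.sum_mul, q1, one_mul]
  -- reduce to the centred variable
  have hz : ∑ a, q a * (g a - m) = 0 := by
    simp only [mul_sub, Finset.sum_sub_distrib, ← Finset.sum_mul, q1, one_mul]
    rw [← hm]; ring
  have hmain : ∑ a, q a * Real.exp (t * (g a - m)) ≤ Real.exp (t ^ 2 * c ^ 2 / 2) := by
    rcases eq_or_lt_of_le (show 0 ≤ |t| * c by positivity) with h0 | h0
    · have : ∀ a, t * (g a - m) = 0 := by
        intro a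
        have : |t * (g a - m)| ≤ 0 := by
          rw [abs_mul]
          calc |t| * |g a - m| ≤ |t| * c := mul_le_mul_of_nonneg_left (hdev a) (abs_nonneg _)
            _ = 0 := h0.symm
        exact abs_nonpos_iff.1 this
      simp only [this, Real.exp_zero, mul_one, q1]
      exact Real.one_le_exp (by positivity)
    · have hb : ∀ a, q a * Real.exp (t * (g a - m)) ≤
          q a * (Real.cosh (|t| * c) + t * (g a - m) / (|t| * c) * Real.sinh (|t| * c)) := by
        intro a
        refine mul_le_mul_of_nonneg_left (exp_le_cosh _ _ h0 ?_) (q0 a)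
        rw [abs_mul]
        exact mul_le_mul_of_nonneg_left (hdev a) (abs_nonneg _)
      refine (Finset.sum_le_sum fun a _ => hb a).trans ?_
      have hsum : ∑ a, q a * (Real.cosh (|t| * c) + t * (g a - m) / (|t| * c) *
          Real.sinh (|t| * c)) = Real.cosh (|t| * c) := by
        have : ∀ a, q a * (Real.cosh (|t| * c) + t * (g a - m) / (|t| * c) *
            Real.sinh (|t| * c)) = q a * Real.cosh (|t| * c) +
            (q a * (g a - m)) * (t / (|t| * c) * Real.sinh (|t| * c)) := by
          intro a; ring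
        simp only [this, Finset.sum_add_distrib, ← Finset.sum_mul, q1, hz]
        ring
      rw [hsum]
      refine (Real.cosh_le_exp_half_sq _).trans (le_of_eq ?_)
      rw [mul_pow, sq_abs]
  calc ∑ a, q a * Real.exp (t * g a)
      = Real.exp (t * m) * ∑ a, q a * Real.exp (t * (g a - m)) := by
        rw [Finset.mul_sum]
        refine Finset.sum_congr rfl fun a _ => ?_
        have : Real.exp (t * g a) = Real.exp (t * m) * Real.exp (t * (g a - m)) := by
          rw [← Real.exp_add]; congr 1; ring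
        rw [this]; ring
    _ ≤ Real.exp (t * m) * Real.exp (t ^ 2 * c ^ 2 / 2) :=
        mul_le_mul_of_nonneg_left hmain (Real.exp_pos _).le
    _ = _ := by ring

/-- iterated averages over a list of coordinates -/
noncomputable def avgL (p : ∀ i, Om i → ℝ) : List I → ((∀ i, Om i) → ℝ) → ((∀ i, Om i) → ℝ)
  | [], f => f
  | i :: l, f => avgL p l (avg p i f)

/-- bounded differences -/
def BD (f : (∀ i, Om i) → ℝ) (c : I → ℝ) : Prop :=
  ∀ i ω a, |f (Function.update ω i a) - f ω| ≤ c i

lemma BD_avg {p : ∀ i, Om i → ℝ} (hp : IsProb p) {f : (∀ i, Om i) → ℝ} {c : I → ℝ} (hf : BD f c)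
    (i : I) : BD (avg p i f) c := by
  intro j ω b
  have hci : 0 ≤ c j := (abs_nonneg _).trans (hf j ω b)
  have hterm : ∀ a, |f (Function.update (Function.update ω j b) i a) -
      f (Function.update ω i a)| ≤ c j := by
    intro a
    by_cases hij : j = i
    · subst hij
      rw [Function.update_idem, sub_self, abs_zero]; exact hci
    · rw [Function.update_comm hij]
      exact hf j _ b
  simp only [avg]
  rw [← Finset.sum_sub_distrib]
  calc |∑ a, (p i a * f (Function.update (Function.update ω j b) i a) -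
        p i a * f (Function.update ω i a))|
      ≤ ∑ a, |p i a * f (Function.update (Function.update ω j b) i a) -
        p i a * f (Function.update ω i a)| := Finset.abs_sum_le_sum_abs _ _
    _ ≤ ∑ a, p i a * c j := Finset.sum_le_sum fun a _ => by
        rw [← mul_sub, abs_mul, abs_of_nonneg (hp.nonneg i a)]
        exact mul_le_mul_of_nonneg_left (hterm a) (hp.nonneg i a)
    _ = c j := by rw [← Finset.sum_mul, hp.one i, one_mul]

lemma Ex_avgL {p : ∀ i, Om i → ℝ} (hp : IsProb p) (l : List I) (f : (∀ i, Om i) → ℝ) :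
    Ex p (avgL p l f) = Ex p f := by
  induction l generalizing f with
  | nil => rfl
  | cons i l ih => simp only [avgL]; rw [ih, Ex_avg hp]

lemma exp_avgL {p : ∀ i, Om i → ℝ} (hp : IsProb p) (l : List I) (f : (∀ i, Om i) → ℝ)
    (c : I → ℝ) (hf : BD f c) (t : ℝ) :
    Ex p (fun ω => Real.exp (t * f ω)) ≤
      Real.exp (t ^ 2 * (l.map fun i => c i ^ 2).sum / 2) *
        Ex p (fun ω => Real.exp (t * avgL p l f ω)) := by
  induction l generalizing f with
  | nil => simp [avgL]
  | cons i l ih =>
    have h1 : Ex p (fun ω => Real.exp (t * f ω)) ≤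
        Real.exp (t ^ 2 * c i ^ 2 / 2) * Ex p (fun ω => Real.exp (t * avg p i f ω)) := by
      rw [← Ex_avg hp i, ← Ex_smul]
      refine Ex_mono hp fun ω => ?_
      simp only [avg]
      refine one_coord (p i) (hp.nonneg i) (hp.one i) (fun a => f (Function.update ω i a)) (c i)
        (fun a b => ?_) t
      have := hf i (Function.update ω i b) a
      rwa [Function.update_idem] at this
    have h2 := ih (avg p i f) (BD_avg hp hf i)
    simp only [avgL, List.map_cons, List.sum_cons]
    calc Ex p (fun ω => Real.exp (t * f ω)) ≤ _ := h1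
      _ ≤ Real.exp (t ^ 2 * c i ^ 2 / 2) * (Real.exp (t ^ 2 * (l.map fun i => c i ^ 2).sum / 2) *
        Ex p (fun ω => Real.exp (t * avgL p l (avg p i f) ω))) :=
          mul_le_mul_of_nonneg_left h2 (Real.exp_pos _).le
      _ = _ := by
          rw [← mul_assoc, ← Real.exp_add]
          congr 2
          ring

/-- after averaging over coordinates in `l` the function does not depend on them -/
lemma avgL_indep (p : ∀ i, Om i → ℝ) (l : List I) (f : (∀ i, Om i) → ℝ) :
    ∀ ω ω' : (∀ i, Om i), (∀ i, i ∉ l → ω i = ω' i) → avgL p l f ω = avgL p l f ω' := by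
  induction l generalizing f with
  | nil =>
    intro ω ω' h
    have : ω = ω' := funext fun i => h i (List.not_mem_nil)
    rw [this]
  | cons i l ih =>
    intro ω ω' h
    simp only [avgL]
    -- avg p i f does not depend on coordinate i; use a general statement
    have gen : ∀ (l : List I) (g : (∀ i, Om i) → ℝ), (∀ ω a, g (Function.update ω i a) = g ω) →
        ∀ ω a, avgL p l g (Function.update ω i a) = avgL p l g ω := by
      intro l
      induction l with
      | nil => intro g hg ω a; exact hg ω a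
      | cons j l ih2 =>
        intro g hg ω a
        simp only [avgL]
        apply ih2
        intro ω a
        simp only [avg]
        refine Finset.sum_congr rfl fun b _ => ?_
        by_cases hij : i = j
        · subst hij; rw [Function.update_idem]
        · rw [Function.update_comm hij, hg]
    have hgi : ∀ ω a, avg p i f (Function.update ω i a) = avg p i f ω := by
      intro ω a
      simp only [avg, Function.update_idem]
    have h1 := gen l (avg p i f) hgi ω (ω' i)
    rw [← h1]
    apply ih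
    intro j hj
    by_cases hji : j = i
    · subst hji; rw [Function.update_self]
    · rw [Function.update_of_ne hji]
      exact h j (by simp [hji, hj])

/-- **McDiarmid, exponential form** -/
theorem mcd_exp {p : ∀ i, Om i → ℝ} (hp : IsProb p) (f : (∀ i, Om i) → ℝ) (c : I → ℝ)
    (hf : BD f c) (t : ℝ) :
    Ex p (fun ω => Real.exp (t * (f ω - Ex p f))) ≤ Real.exp (t ^ 2 * (∑ i, c i ^ 2) / 2) := by
  classical
  by_cases hne : Nonempty (∀ i, Om i)
  · obtain ⟨ω0⟩ := hne
    have h := exp_avgL hp (Finset.univ : Finset I).toList f c hf t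
    have hc : ∀ ω, avgL p (Finset.univ : Finset I).toList f ω = Ex p f := by
      intro ω
      have h1 : ∀ ω', avgL p (Finset.univ : Finset I).toList f ω' =
          avgL p (Finset.univ : Finset I).toList f ω := fun ω' =>
        avgL_indep p _ f ω' ω (fun i hi => absurd (Finset.mem_toList.2 (Finset.mem_univ i)) hi)
      have h2 := Ex_avgL hp (Finset.univ : Finset I).toList f
      rw [← h2]
      have h3 : avgL p (Finset.univ : Finset I).toList f =
          fun _ => avgL p (Finset.univ : Finset I).toList f ω := funext h1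
      rw [h3, Ex_const hp]
    have hs : ((Finset.univ : Finset I).toList.map fun i => c i ^ 2).sum = ∑ i, c i ^ 2 :=
      Finset.sum_map_toList _ _
    simp only [hc, hs] at h
    rw [Ex_const hp] at h
    have e1 : Ex p (fun ω => Real.exp (t * (f ω - Ex p f))) =
        Real.exp (-(t * Ex p f)) * Ex p (fun ω => Real.exp (t * f ω)) := by
      rw [← Ex_smul]
      congr 1
      funext ω
      rw [← Real.exp_add]
      congr 1
      ring
    rw [e1]
    calc _ ≤ Real.exp (-(t * Ex p f)) * (Real.exp (t ^ 2 * (∑ i, c i ^ 2) / 2) *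
          Real.exp (t * Ex p f)) := mul_le_mul_of_nonneg_left h (Real.exp_pos _).le
      _ = _ := by
          rw [mul_comm, mul_assoc, ← Real.exp_add]
          simp
  · rw [not_nonempty_iff] at hne
    have h1 := sum_prod_eq_one hp
    simp at h1

/-- **McDiarmid, upper tail** -/
theorem mcd_upper {p : ∀ i, Om i → ℝ} (hp : IsProb p) (f : (∀ i, Om i) → ℝ) (c : I → ℝ)
    (hf : BD f c) (V : ℝ) (hV : 0 < V) (hcV : ∑ i, c i ^ 2 ≤ V) (a : ℝ) (ha : 0 ≤ a) :
    Pr p (fun ω => Ex p f + a ≤ f ω) ≤ Real.exp (-(a ^ 2 / (2 * V))) := by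
  classical
  set t := a / V with ht
  have ht0 : 0 ≤ t := div_nonneg ha hV.le
  have h1 := mcd_exp hp f c hf t
  have h2 : Pr p (fun ω => Ex p f + a ≤ f ω) ≤
      Real.exp (-(t * a)) * Ex p (fun ω => Real.exp (t * (f ω - Ex p f))) := by
    rw [← Ex_smul]
    simp only [Pr]
    refine Ex_mono hp fun ω => ?_
    split_ifs with h
    · rw [← Real.exp_add]
      apply Real.one_le_exp
      nlinarith
    · positivity
  have h3 : Real.exp (t ^ 2 * (∑ i, c i ^ 2) / 2) ≤ Real.exp (t ^ 2 * V / 2) := by
    apply Real.exp_le_exp.2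
    have : t ^ 2 * (∑ i, c i ^ 2) ≤ t ^ 2 * V := mul_le_mul_of_nonneg_left hcV (sq_nonneg _)
    linarith
  calc _ ≤ _ := h2
    _ ≤ Real.exp (-(t * a)) * Real.exp (t ^ 2 * V / 2) :=
        mul_le_mul_of_nonneg_left (h1.trans h3) (Real.exp_pos _).le
    _ = _ := by
        rw [← Real.exp_add]
        congr 1
        rw [ht]
        field_simp
        ring

/-- **McDiarmid, lower tail** -/
theorem mcd_lower {p : ∀ i, Om i → ℝ} (hp : IsProb p) (f : (∀ i, Om i) → ℝ) (c : I → ℝ)
    (hf : BD f c) (V : ℝ) (hV : 0 < V) (hcV : ∑ i, c i ^ 2 ≤ V) (a : ℝ) (ha : 0 ≤ a) :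
    Pr p (fun ω => f ω ≤ Ex p f - a) ≤ Real.exp (-(a ^ 2 / (2 * V))) := by
  have hneg : BD (fun ω => -f ω) c := by
    intro i ω a
    have := hf i ω a
    rw [← abs_neg]
    convert this using 2
    ring
  have h := mcd_upper hp (fun ω => -f ω) c hneg V hV hcV a ha
  have e : Ex p (fun ω => -f ω) = -Ex p f := by
    have := Ex_smul p (-1) f
    simpa using this
  rw [e] at h
  convert h using 2
  funext ω
  apply propext
  constructor <;> intro h <;> linarith

lemma Pr_nonneg {p : ∀ i, Om i → ℝ} (hp : IsProb p) (A : (∀ i, Om i) → Prop) : 0 ≤ Pr p A := by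
  classical
  exact Ex_nonneg hp fun ω => by split_ifs <;> norm_num

lemma Pr_mono {p : ∀ i, Om i → ℝ} (hp : IsProb p) {A B : (∀ i, Om i) → Prop}
    (h : ∀ ω, A ω → B ω) : Pr p A ≤ Pr p B := by
  classical
  refine Ex_mono hp fun ω => ?_
  by_cases hA : A ω
  · simp [hA, h ω hA]
  · simp only [hA, if_false]; split_ifs <;> norm_num

/-- Markov -/
lemma markov {p : ∀ i, Om i → ℝ} (hp : IsProb p) {f : (∀ i, Om i) → ℝ} (hf : ∀ ω, 0 ≤ f ω)
    {a : ℝ} (ha : 0 < a) : Pr p (fun ω => a ≤ f ω) ≤ Ex p f / a := by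
  classical
  rw [le_div_iff₀ ha, mul_comm, Pr, ← Ex_smul]
  refine Ex_mono hp fun ω => ?_
  split_ifs with h
  · simpa using h
  · simpa using hf ω

/-- union bound: if the bad events have total probability `< 1`, some outcome of positive weight
avoids all of them. -/
theorem exists_good {J : Type*} {p : ∀ i, Om i → ℝ} (hp : IsProb p) (s : Finset J)
    (A : J → (∀ i, Om i) → Prop) (h : ∑ j ∈ s, Pr p (A j) < 1) :
    ∃ ω : (∀ i, Om i), 0 < ∏ i, p i (ω i) ∧ ∀ j ∈ s, ¬ A j ω := by
  classical
  by_contra hcon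
  push Not at hcon
  have h1 : (1 : ℝ) ≤ ∑ j ∈ s, Pr p (A j) := by
    simp only [Pr]
    rw [← Ex_sum]
    refine (le_of_eq (sum_prod_eq_one hp).symm).trans ?_
    simp only [Ex]
    refine Finset.sum_le_sum fun ω _ => ?_
    rcases eq_or_lt_of_le (show 0 ≤ ∏ i, p i (ω i) from
      Finset.prod_nonneg fun i _ => hp.nonneg i _) with h0 | h0
    · rw [← h0]; simp
    · obtain ⟨j, hj, hA⟩ := hcon ω h0
      have : (1 : ℝ) ≤ ∑ j ∈ s, (if A j ω then (1 : ℝ) else 0) := by
        have h2 : (if A j ω then (1 : ℝ) else 0) ≤ ∑ j ∈ s, (if A j ω then (1 : ℝ) else 0) :=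
          Finset.single_le_sum (f := fun j => if A j ω then (1 : ℝ) else 0)
            (fun i _ => by split_ifs <;> norm_num) hj
        simpa [hA] using h2
      nlinarith
  linarith

end McD

end Pool.Agent.Lib.MP_5c685b_co.D
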