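import Pool.Agent.Lib.MP_5c685b_co.N.NDefs

set_option autoImplicit false

/-!
# Nibble, row N1: the loss of `Y` in one step
-/

namespace MP5cN

open Finset

variable {E : Type} [DecidableEq E] {D : ℕ} {EE : Finset E} {QQ : Finset (Finset E)}
  {w : Finset E → ℝ} {δ κ : ℝ} {U : Finset E} {e : E}

theorem Y_nonneg (h : Data D EE QQ w δ κ) : 0 ≤ Y QQ w U e :=
  sum_nonneg fun _ hQ => h.nonneg _ (mem_filter.1 hQ).1

private theorem N1_loss (Q : Finset E) : Y QQ w U e - Y QQ w (U \ Q) e =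
    ∑ Q' ∈ QQ.filter (fun Q => Q ⊆ U ∧ e ∈ Q), if Disjoint Q' Q then 0 else w Q' := by
  have h1 : Y QQ w (U \ Q) e =
      ∑ Q' ∈ QQ.filter (fun Q => Q ⊆ U ∧ e ∈ Q), if Disjoint Q' Q then w Q' else 0 := by
    rw [← sum_filter, filter_filter, Y]
    apply sum_congr _ fun _ _ => rfl
    ext Q'
    simp only [mem_filter, subset_sdiff]
    tauto
  rw [h1, Y, ← sum_sub_distrib]
  apply sum_congr rfl
  intro Q' _
  split_ifs <;> simp

theorem Y_loss_nonneg (h : Data D EE QQ w δ κ) (Q : Finset E) :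
    0 ≤ Y QQ w U e - Y QQ w (U \ Q) e := by
  rw [N1_loss]
  apply sum_nonneg
  intro Q' hQ'
  split_ifs
  · exact le_refl _
  · exact h.nonneg _ (mem_filter.1 hQ').1

theorem Y_loss_le (h : Data D EE QQ w δ κ) (hU : U ⊆ EE) (he : e ∈ U) {Q : Finset E} (hQ : Q ∈ QQ)
    (heQ : e ∉ Q) : Y QQ w U e - Y QQ w (U \ Q) e ≤ D * κ := by
  rw [N1_loss]
  calc ∑ Q' ∈ QQ.filter (fun Q => Q ⊆ U ∧ e ∈ Q), (if Disjoint Q' Q then 0 else w Q')
      ≤ ∑ Q' ∈ QQ.filter (fun Q => Q ⊆ U ∧ e ∈ Q), ∑ g ∈ Q, if g ∈ Q' then w Q' else 0 := by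
        apply sum_le_sum
        intro Q' hQ'
        have h0 : 0 ≤ w Q' := h.nonneg _ (mem_filter.1 hQ').1
        have hn : ∀ g ∈ Q, 0 ≤ if g ∈ Q' then w Q' else 0 := by
          intro g _
          split_ifs
          · exact h0
          · exact le_refl _
        split_ifs with hd
        · exact sum_nonneg hn
        · obtain ⟨g, hg1, hg2⟩ := not_disjoint_iff.1 hd
          refine le_trans ?_ (single_le_sum hn hg2)
          rw [if_pos hg1]
    _ = ∑ g ∈ Q, ∑ Q' ∈ QQ.filter (fun Q => Q ⊆ U ∧ e ∈ Q), if g ∈ Q' then w Q' else 0 := sum_comm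
    _ ≤ ∑ g ∈ Q, κ := by
        apply sum_le_sum
        intro g hg
        have hne : e ≠ g := fun hh => heQ (hh ▸ hg)
        refine le_trans ?_ (h.co e (hU he) g (h.sub Q hQ hg) hne)
        rw [← sum_filter, filter_filter]
        apply sum_le_sum_of_subset_of_nonneg
        · intro Q' hQ'
          simp only [mem_filter] at hQ' ⊢
          exact ⟨hQ'.1, hQ'.2.1.2, hQ'.2.2⟩
        · intro Q' hQ' _
          exact h.nonneg _ (mem_filter.1 hQ').1
    _ = D * κ := by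
        rw [sum_const, h.card Q hQ, nsmul_eq_mul]

private theorem N1_swap : ∑ Q ∈ QQ.filter (fun Q => Q ⊆ U ∧ e ∉ Q),
      w Q * (Y QQ w U e - Y QQ w (U \ Q) e) =
    ∑ Q' ∈ QQ.filter (fun Q => Q ⊆ U ∧ e ∈ Q), w Q' *
      ∑ Q ∈ QQ.filter (fun Q => Q ⊆ U ∧ e ∉ Q), if Disjoint Q' Q then 0 else w Q := by
  simp only [N1_loss, mul_sum]
  rw [sum_comm]
  apply sum_congr rfl
  intro Q' _
  apply sum_congr rfl
  intro Q _
  split_ifs
  · simp
  · rw [mul_comm]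

private theorem N1_card (h : Data D EE QQ w δ κ) {Q' : Finset E} (hQ' : Q' ∈ QQ) (he : e ∈ Q') :
    ((Q'.erase e).card : ℝ) = D - 1 := by
  rw [card_erase_of_mem he, h.card _ hQ', Nat.cast_sub, Nat.cast_one]
  rw [← h.card _ hQ']
  exact card_pos.2 ⟨e, he⟩

/-- upper bound for the expected loss -/
theorem EL_le (h : Data D EE QQ w δ κ) (hU : U ⊆ EE) (he : e ∈ U) {B : ℝ}
    (hB : ∀ g ∈ U, Y QQ w U g ≤ B) :
    ∑ Q ∈ QQ.filter (fun Q => Q ⊆ U ∧ e ∉ Q), w Q * (Y QQ w U e - Y QQ w (U \ Q) e) ≤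
      (D - 1) * B * Y QQ w U e := by
  rw [N1_swap, Y, mul_sum]
  apply sum_le_sum
  intro Q' hQ'
  rw [mem_filter] at hQ'
  obtain ⟨hQ1, hQ2, hQ3⟩ := hQ'
  rw [mul_comm]
  apply mul_le_mul_of_nonneg_right _ (h.nonneg _ hQ1)
  calc ∑ Q ∈ QQ.filter (fun Q => Q ⊆ U ∧ e ∉ Q), (if Disjoint Q' Q then 0 else w Q)
      ≤ ∑ Q ∈ QQ.filter (fun Q => Q ⊆ U ∧ e ∉ Q), ∑ g ∈ Q'.erase e, if g ∈ Q then w Q else 0 := by
        apply sum_le_sum
        intro Q hQ
        rw [mem_filter] at hQ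
        have h0 : 0 ≤ w Q := h.nonneg _ hQ.1
        have hn : ∀ g ∈ Q'.erase e, 0 ≤ if g ∈ Q then w Q else 0 := by
          intro g _
          split_ifs
          · exact h0
          · exact le_refl _
        split_ifs with hd
        · exact sum_nonneg hn
        · obtain ⟨g, hg1, hg2⟩ := not_disjoint_iff.1 hd
          have hge : g ∈ Q'.erase e := mem_erase.2 ⟨fun hh => hQ.2.2 (hh ▸ hg2), hg1⟩
          refine le_trans ?_ (single_le_sum hn hge)
          rw [if_pos hg2]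
    _ = ∑ g ∈ Q'.erase e, ∑ Q ∈ QQ.filter (fun Q => Q ⊆ U ∧ e ∉ Q), if g ∈ Q then w Q else 0 :=
        sum_comm
    _ ≤ ∑ g ∈ Q'.erase e, B := by
        apply sum_le_sum
        intro g hg
        refine le_trans ?_ (hB g (hQ2 (mem_of_mem_erase hg)))
        rw [← sum_filter, filter_filter, Y]
        apply sum_le_sum_of_subset_of_nonneg
        · intro Q hQ
          simp only [mem_filter] at hQ ⊢
          exact ⟨hQ.1, hQ.2.1.1, hQ.2.2⟩
        · intro Q hQ _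
          exact h.nonneg _ (mem_filter.1 hQ).1
    _ = (D - 1) * B := by
        rw [sum_const, nsmul_eq_mul, N1_card h hQ1 hQ3]

private theorem N1_ind (P Q : Finset E) (h0 : Disjoint P Q → P ∩ Q = ∅) :
    ∑ g ∈ P, (if g ∈ Q then (1 : ℝ) else 0) -
      ∑ g ∈ P, ∑ g' ∈ P.erase g, (if g ∈ Q ∧ g' ∈ Q then (1 : ℝ) else 0) ≤
      if Disjoint P Q then 0 else 1 := by
  obtain ⟨k, hk⟩ : ∃ k, k = (P ∩ Q).card := ⟨_, rfl⟩
  have h1 : ∑ g ∈ P, (if g ∈ Q then (1 : ℝ) else 0) = k := by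
    rw [← sum_filter, sum_const, nsmul_eq_mul, mul_one, hk, filter_mem_eq_inter]
  have h2 : ∑ g ∈ P, ∑ g' ∈ P.erase g, (if g ∈ Q ∧ g' ∈ Q then (1 : ℝ) else 0) = k * (k - 1) := by
    have h3 : ∀ g ∈ P, ∑ g' ∈ P.erase g, (if g ∈ Q ∧ g' ∈ Q then (1 : ℝ) else 0) =
        if g ∈ Q then (k - 1 : ℝ) else 0 := by
      intro g hg
      split_ifs with hgQ
      · have h4 : ∑ g' ∈ P.erase g, (if g ∈ Q ∧ g' ∈ Q then (1 : ℝ) else 0) =
            ∑ g' ∈ P.erase g, (if g' ∈ Q then (1 : ℝ) else 0) := by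
          apply sum_congr rfl
          intro g' _
          simp [hgQ]
        rw [h4, ← sum_erase_add _ _ hg] at *
        rw [if_pos hgQ] at h1
        linarith
      · apply sum_eq_zero
        intro g' _
        simp [hgQ]
    rw [sum_congr rfl h3, ← sum_filter, sum_const, nsmul_eq_mul, hk, filter_mem_eq_inter]
  rw [h1, h2]
  split_ifs with hd
  · rw [h0 hd, card_empty] at hk
    rw [hk]
    simp
  · have hk1 : 1 ≤ k := by
      rw [hk]
      obtain ⟨g, hg1, hg2⟩ := not_disjoint_iff.1 hd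
      exact card_pos.2 ⟨g, mem_inter.2 ⟨hg1, hg2⟩⟩
    have : (1 : ℝ) ≤ k := by exact_mod_cast hk1
    nlinarith [sq_nonneg ((k : ℝ) - 1)]

/-- lower bound for the expected loss -/
theorem EL_ge (h : Data D EE QQ w δ κ) (hκ : 0 ≤ κ) (hD : 2 ≤ D) (hU : U ⊆ EE) (he : e ∈ U) {B : ℝ}
    (hB : ∀ g ∈ U, B ≤ Y QQ w U g) :
    ((D - 1) * B - (D : ℝ) ^ 2 * κ) * Y QQ w U e ≤
      ∑ Q ∈ QQ.filter (fun Q => Q ⊆ U ∧ e ∉ Q), w Q * (Y QQ w U e - Y QQ w (U \ Q) e) := by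
  have hD' : (2 : ℝ) ≤ D := by exact_mod_cast hD
  rw [N1_swap, Y, mul_sum]
  apply sum_le_sum
  intro Q' hQ'
  rw [mem_filter] at hQ'
  obtain ⟨hQ1, hQ2, hQ3⟩ := hQ'
  rw [mul_comm (w Q')]
  apply mul_le_mul_of_nonneg_right _ (h.nonneg _ hQ1)
  obtain ⟨P, hP⟩ : ∃ P, P = Q'.erase e := ⟨_, rfl⟩
  have hPc : (P.card : ℝ) = D - 1 := by rw [hP, N1_card h hQ1 hQ3]
  have hPU : ∀ g ∈ P, g ∈ U ∧ e ≠ g := by
    intro g hg
    rw [hP, mem_erase] at hg
    exact ⟨hQ2 hg.2, hg.1.symm⟩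
  have hstep : ∑ Q ∈ QQ.filter (fun Q => Q ⊆ U ∧ e ∉ Q),
      (∑ g ∈ P, (if g ∈ Q then w Q else 0) -
        ∑ g ∈ P, ∑ g' ∈ P.erase g, (if g ∈ Q ∧ g' ∈ Q then w Q else 0)) ≤
      ∑ Q ∈ QQ.filter (fun Q => Q ⊆ U ∧ e ∉ Q), (if Disjoint Q' Q then 0 else w Q) := by
    apply sum_le_sum
    intro Q hQ
    rw [mem_filter] at hQ
    have h0 : 0 ≤ w Q := h.nonneg _ hQ.1
    have h1 := mul_le_mul_of_nonneg_left (N1_ind P Q fun hd => disjoint_iff_inter_eq_empty.1 hd) h0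
    have h2 : w Q * (∑ g ∈ P, (if g ∈ Q then (1 : ℝ) else 0) -
        ∑ g ∈ P, ∑ g' ∈ P.erase g, (if g ∈ Q ∧ g' ∈ Q then (1 : ℝ) else 0)) =
        ∑ g ∈ P, (if g ∈ Q then w Q else 0) -
        ∑ g ∈ P, ∑ g' ∈ P.erase g, (if g ∈ Q ∧ g' ∈ Q then w Q else 0) := by
      simp only [mul_sub, mul_sum, mul_ite, mul_one, mul_zero]
    rw [h2] at h1
    refine h1.trans (le_of_eq ?_)
    have h3 : Disjoint P Q ↔ Disjoint Q' Q := by
      rw [hP]
      constructor
      · intro hd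
        rw [← insert_erase hQ3, disjoint_insert_left]
        exact ⟨hQ.2.2, hd⟩
      · intro hd
        exact disjoint_of_subset_left (erase_subset _ _) hd
    by_cases hd : Disjoint Q' Q
    · rw [if_pos (h3.2 hd), if_pos hd, mul_zero]
    · rw [if_neg (fun hh => hd (h3.1 hh)), if_neg hd, mul_one]
  refine le_trans ?_ hstep
  rw [sum_sub_distrib]
  have hA : (D - 1) * (B - κ) ≤
      ∑ Q ∈ QQ.filter (fun Q => Q ⊆ U ∧ e ∉ Q), ∑ g ∈ P, (if g ∈ Q then w Q else 0) := by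
    rw [sum_comm, ← hPc, ← nsmul_eq_mul, ← sum_const]
    apply sum_le_sum
    intro g hg
    obtain ⟨hgU, hge⟩ := hPU g hg
    rw [← sum_filter, filter_filter]
    have h1 := hB g hgU
    have h2 := h.co e (hU he) g (hU hgU) hge
    have h3 : Y QQ w U g ≤ ∑ Q ∈ QQ.filter (fun Q => (Q ⊆ U ∧ e ∉ Q) ∧ g ∈ Q), w Q +
        ∑ Q ∈ QQ.filter (fun Q => e ∈ Q ∧ g ∈ Q), w Q := by
      rw [Y, ← sum_filter_add_sum_filter_not (QQ.filter (fun Q => Q ⊆ U ∧ g ∈ Q)) (fun Q => e ∉ Q)]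
      apply add_le_add
      · apply le_of_eq
        rw [filter_filter]
        apply sum_congr _ fun _ _ => rfl
        ext Q
        simp only [mem_filter]
        tauto
      · rw [filter_filter]
        apply sum_le_sum_of_subset_of_nonneg
        · intro Q hQ
          simp only [mem_filter, not_not] at hQ ⊢
          exact ⟨hQ.1, hQ.2.2, hQ.2.1.2⟩
        · intro Q hQ _
          exact h.nonneg _ (mem_filter.1 hQ).1
    linarith
  have hBd : ∑ Q ∈ QQ.filter (fun Q => Q ⊆ U ∧ e ∉ Q),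
      ∑ g ∈ P, ∑ g' ∈ P.erase g, (if g ∈ Q ∧ g' ∈ Q then w Q else 0) ≤ (D - 1) * ((D - 1) * κ) := by
    rw [sum_comm]
    calc ∑ g ∈ P, ∑ Q ∈ QQ.filter (fun Q => Q ⊆ U ∧ e ∉ Q),
          ∑ g' ∈ P.erase g, (if g ∈ Q ∧ g' ∈ Q then w Q else 0)
        ≤ ∑ g ∈ P, ((D : ℝ) - 1) * κ := by
          apply sum_le_sum
          intro g hg
          rw [sum_comm]
          calc ∑ g' ∈ P.erase g, ∑ Q ∈ QQ.filter (fun Q => Q ⊆ U ∧ e ∉ Q),
                (if g ∈ Q ∧ g' ∈ Q then w Q else 0) ≤ ∑ g' ∈ P.erase g, κ := by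
                apply sum_le_sum
                intro g' hg'
                rw [mem_erase] at hg'
                refine le_trans ?_ (h.co g (hU (hPU g hg).1) g' (hU (hPU g' hg'.2).1) hg'.1.symm)
                rw [← sum_filter, filter_filter]
                apply sum_le_sum_of_subset_of_nonneg
                · intro Q hQ
                  simp only [mem_filter] at hQ ⊢
                  exact ⟨hQ.1, hQ.2.2⟩
                · intro Q hQ _
                  exact h.nonneg _ (mem_filter.1 hQ).1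
            _ ≤ ((D : ℝ) - 1) * κ := by
                rw [sum_const, nsmul_eq_mul]
                apply mul_le_mul_of_nonneg_right _ hκ
                rw [← hPc]
                exact_mod_cast card_erase_le
      _ = (D - 1) * ((D - 1) * κ) := by rw [sum_const, nsmul_eq_mul, hPc]
  nlinarith [mul_nonneg hκ (by linarith : (0 : ℝ) ≤ D)]

/-- weight of the alive members, counted by their items in `S` -/
theorem sum_inter (h : Data D EE QQ w δ κ) (S : Finset E) :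
    ∑ Q ∈ QQ.filter (fun Q => Q ⊆ U), w Q * ((S ∩ Q).card : ℝ) = ∑ e ∈ S ∩ U, Y QQ w U e := by
  have h1 : ∀ Q ∈ QQ.filter (fun Q => Q ⊆ U), w Q * ((S ∩ Q).card : ℝ) =
      ∑ e ∈ S ∩ U, if e ∈ Q then w Q else 0 := by
    intro Q hQ
    rw [mem_filter] at hQ
    rw [← sum_filter, sum_const, nsmul_eq_mul, mul_comm]
    congr 3
    ext g
    simp only [mem_inter, mem_filter]
    exact ⟨fun hg => ⟨⟨hg.1, hQ.2 hg.2⟩, hg.2⟩, fun hg => ⟨hg.1.1, hg.2⟩⟩
  rw [sum_congr rfl h1, sum_comm]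
  apply sum_congr rfl
  intro g _
  rw [← sum_filter, filter_filter, Y]

end MP5cN
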