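import Pool.Agent.Lib.MP_5c685b_co.N.N2a

set_option autoImplicit false

/-!
# Nibble, row N2: one step of the potential
-/

namespace MP5cN

open Finset

variable {E : Type} [DecidableEq E] {D : ℕ} {EE : Finset E} {QQ : Finset (Finset E)}
  {w : Finset E → ℝ} {δ₀ κ θ M z b ρ Δ δ : ℝ} {U : Finset E} {e : E}

/-- `exp (-x) ≤ 1 - 3/4 x` for `0 ≤ x ≤ 1/4` -/
private theorem N2b_exp {x : ℝ} (h0 : 0 ≤ x) (h1 : x ≤ 1 / 4) : Real.exp (-x) ≤ 1 - 3 / 4 * x := by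
  have h := Real.abs_exp_sub_one_sub_id_le (x := -x) (by rw [abs_neg, abs_of_nonneg h0]; linarith)
  have h2 := (abs_le.1 h).2
  nlinarith

private theorem N2b_card (S : Finset E) {U Q : Finset E} (hQ : Q ⊆ U) :
    ((S ∩ (U \ Q)).card : ℝ) = ((S ∩ U).card : ℝ) - ((S ∩ Q).card : ℝ) := by
  have h1 : S ∩ (U \ Q) = (S ∩ U) \ (S ∩ Q) := by
    ext v
    simp only [mem_inter, mem_sdiff]
    tauto
  have h2 : S ∩ Q ⊆ S ∩ U := Finset.inter_subset_inter_left hQ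
  rw [h1, Finset.card_sdiff_of_subset h2, Nat.cast_sub (Finset.card_le_card h2)]

theorem test_step (h : Data D EE QQ w δ₀ κ) (hs : Step D θ M κ z b ρ Δ δ) (hU : U ⊆ EE)
    (S : Finset E) (hzw : z * ∑ Q ∈ QQ, w Q ≤ 1) (hg : ∀ g ∈ U, |Y QQ w U g - b| ≤ δ * b) :
    ∑ Q ∈ QQ.filter (fun Q => Q ⊆ U), z * w Q *
        Real.exp (θ * (((S ∩ (U \ Q)).card : ℝ) / (M * (ρ * (1 - z * b / 2))) - 1)) +
      (1 - z * ∑ Q ∈ QQ.filter (fun Q => Q ⊆ U), w Q) *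
        Real.exp (θ * (((S ∩ U).card : ℝ) / (M * (ρ * (1 - z * b / 2))) - 1)) ≤
      Real.exp (θ * (((S ∩ U).card : ℝ) / (M * ρ) - 1)) := by
  have hθ := hs.hθ
  have hM := hs.hM
  have hz := hs.hz
  have hb := hs.hb
  have hρ := hs.hρ
  have hδ := hs.hδ
  have hδ' := hs.hδ'
  have hzb := hs.hzb
  have hα := hs.hα
  have hzb0 : 0 < z * b := mul_pos hz hb
  have hc : 0 < 1 - z * b / 2 := by linarith
  set P : ℝ := M * (ρ * (1 - z * b / 2)) with hP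
  have hP0 : 0 < P := by positivity
  set al : ℝ := θ / P with hal
  have hal0 : 0 < al := div_pos hθ hP0
  have halD : al * D ≤ 1 / 4 := by
    rw [hal, div_mul_eq_mul_div, div_le_iff₀ hP0]
    exact hα
  set T : ℝ := ((S ∩ U).card : ℝ) with hT
  have hT0 : 0 ≤ T := Nat.cast_nonneg _
  set A := QQ.filter (fun Q => Q ⊆ U) with hA
  have hex : ∀ Q ∈ A, Real.exp (θ * (((S ∩ (U \ Q)).card : ℝ) / P - 1)) ≤
      Real.exp (θ * (T / P - 1)) * (1 - 3 / 4 * (al * ((S ∩ Q).card : ℝ))) := by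
    intro Q hQ
    obtain ⟨hQ1, hQ2⟩ := Finset.mem_filter.1 hQ
    have h1 : θ * (((S ∩ (U \ Q)).card : ℝ) / P - 1) =
        θ * (T / P - 1) + -(al * ((S ∩ Q).card : ℝ)) := by
      rw [N2b_card S hQ2, hal]
      ring
    rw [h1, Real.exp_add]
    refine mul_le_mul_of_nonneg_left (N2b_exp (by positivity) ?_) (Real.exp_pos _).le
    refine le_trans (mul_le_mul_of_nonneg_left ?_ hal0.le) halD
    have h3 : (S ∩ Q).card ≤ D := by
      rw [← h.card Q hQ1]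
      exact Finset.card_le_card Finset.inter_subset_right
    exact_mod_cast h3
  have hsum : ∑ Q ∈ A, w Q * ((S ∩ Q).card : ℝ) = ∑ e ∈ S ∩ U, Y QQ w U e := sum_inter h S
  have hlow : 3 / 4 * b * T ≤ ∑ e ∈ S ∩ U, Y QQ w U e := by
    have h1 : ∑ e ∈ S ∩ U, (3 / 4 * b) ≤ ∑ e ∈ S ∩ U, Y QQ w U e := by
      refine Finset.sum_le_sum fun e he => ?_
      have h2 := (abs_le.1 (hg e (Finset.mem_inter.1 he).2)).1
      nlinarith
    rw [Finset.sum_const, nsmul_eq_mul] at h1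
    linarith
  have h1 : ∑ Q ∈ A, z * w Q * Real.exp (θ * (((S ∩ (U \ Q)).card : ℝ) / P - 1)) ≤
      Real.exp (θ * (T / P - 1)) * (z * ∑ Q ∈ A, w Q -
        3 / 4 * z * al * ∑ Q ∈ A, w Q * ((S ∩ Q).card : ℝ)) := by
    calc ∑ Q ∈ A, z * w Q * Real.exp (θ * (((S ∩ (U \ Q)).card : ℝ) / P - 1))
        ≤ ∑ Q ∈ A, z * w Q * (Real.exp (θ * (T / P - 1)) * (1 - 3 / 4 * (al * ((S ∩ Q).card : ℝ)))) := by
          refine Finset.sum_le_sum fun Q hQ => mul_le_mul_of_nonneg_left (hex Q hQ) ?_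
          exact mul_nonneg hz.le (h.nonneg Q (Finset.mem_filter.1 hQ).1)
      _ = _ := by
          rw [Finset.mul_sum, Finset.mul_sum, ← Finset.sum_sub_distrib, Finset.mul_sum]
          refine Finset.sum_congr rfl fun Q _ => ?_
          ring
  have h2 : ∑ Q ∈ A, z * w Q * Real.exp (θ * (((S ∩ (U \ Q)).card : ℝ) / P - 1)) +
      (1 - z * ∑ Q ∈ A, w Q) * Real.exp (θ * (T / P - 1)) ≤
      Real.exp (θ * (T / P - 1)) * (1 - 9 / 16 * (z * b) * (al * T)) := by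
    have h3 : 3 / 4 * z * al * (3 / 4 * b * T) ≤ 3 / 4 * z * al * ∑ Q ∈ A, w Q * ((S ∩ Q).card : ℝ) := by
      rw [hsum]
      exact mul_le_mul_of_nonneg_left hlow (by positivity)
    have h4 : Real.exp (θ * (T / P - 1)) * (z * ∑ Q ∈ A, w Q -
        3 / 4 * z * al * ∑ Q ∈ A, w Q * ((S ∩ Q).card : ℝ)) ≤ Real.exp (θ * (T / P - 1)) *
          (z * ∑ Q ∈ A, w Q - 3 / 4 * z * al * (3 / 4 * b * T)) :=
      mul_le_mul_of_nonneg_left (by linarith) (Real.exp_pos _).le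
    refine le_trans (add_le_add (h1.trans h4) le_rfl) (le_of_eq ?_)
    ring
  refine h2.trans ?_
  have h5 : 1 - 9 / 16 * (z * b) * (al * T) ≤ Real.exp (-(1 / 2 * (z * b) * (al * T))) := by
    have h6 := Real.add_one_le_exp (-(1 / 2 * (z * b) * (al * T)))
    have h7 : 0 ≤ (z * b) * (al * T) := by positivity
    linarith
  refine le_trans (mul_le_mul_of_nonneg_left h5 (Real.exp_pos _).le) ?_
  rw [← Real.exp_add]
  refine Real.exp_le_exp.2 (le_of_eq ?_)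
  have h8 : al * (1 - z * b / 2) = θ / (M * ρ) := by
    rw [hal, hP, div_mul_eq_mul_div, div_eq_div_iff (by positivity) (by positivity)]
    ring
  have h9 : θ * (T / P - 1) + -(1 / 2 * (z * b) * (al * T)) = al * (1 - z * b / 2) * T - θ := by
    rw [hal]
    ring
  rw [h9, h8]
  ring

/-- Some outcome does not increase the potential: nothing happens, or one alive member is taken. -/
theorem pot_step (h : Data D EE QQ w δ₀ κ) (hs : Step D θ M κ z b ρ Δ δ) (hU : U ⊆ EE)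
    (TT : Finset (Finset E)) (hzw : z * ∑ Q ∈ QQ, w Q ≤ 1)
    (hg : ∀ g ∈ U, |Y QQ w U g - b| ≤ δ * b) :
    Pot QQ w TT θ M (b * (1 - z * (D - 1) * b)) (ρ * (1 - z * b / 2))
        (Δ + 6 * (z * (D - 1) * b) * δ) U ≤ Pot QQ w TT θ M b ρ Δ U ∨
    ∃ Q ∈ QQ, Q ⊆ U ∧
      Pot QQ w TT θ M (b * (1 - z * (D - 1) * b)) (ρ * (1 - z * b / 2))
        (Δ + 6 * (z * (D - 1) * b) * δ) (U \ Q) ≤ Pot QQ w TT θ M b ρ Δ U := by
  classical
  set b' : ℝ := b * (1 - z * (D - 1) * b) with hb'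
  set ρ' : ℝ := ρ * (1 - z * b / 2) with hρ'
  set Δ' : ℝ := Δ + 6 * (z * (D - 1) * b) * δ with hΔ'
  set A := QQ.filter (fun Q => Q ⊆ U) with hA
  have hz := hs.hz
  have hwA : 0 ≤ ∑ Q ∈ A, w Q :=
    Finset.sum_nonneg fun Q hQ => h.nonneg Q (Finset.mem_filter.1 hQ).1
  have hp0 : 0 ≤ 1 - z * ∑ Q ∈ A, w Q := by
    have h1 : ∑ Q ∈ A, w Q ≤ ∑ Q ∈ QQ, w Q :=
      Finset.sum_le_sum_of_subset_of_nonneg (Finset.filter_subset _ _) fun Q hQ _ => h.nonneg Q hQ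
    have h2 := mul_le_mul_of_nonneg_left h1 hz.le
    linarith
  -- the average
  have hitem : ∀ e ∈ U,
      ∑ Q ∈ QQ.filter (fun Q => Q ⊆ U ∧ e ∉ Q), z * w Q *
        (Real.exp (θ * (Y QQ w (U \ Q) e / b' - 1 - Δ')) +
          Real.exp (θ * (1 - Y QQ w (U \ Q) e / b' - Δ'))) +
      (1 - z * ∑ Q ∈ A, w Q) * (Real.exp (θ * (Y QQ w U e / b' - 1 - Δ')) +
        Real.exp (θ * (1 - Y QQ w U e / b' - Δ'))) ≤
      Real.exp (θ * (Y QQ w U e / b - 1 - Δ)) + Real.exp (θ * (1 - Y QQ w U e / b - Δ)) := by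
    intro e he
    have h1 := up_step h hs hU he hzw hg
    have h2 := low_step h hs hU he hzw hg
    refine le_trans (le_of_eq ?_) (add_le_add h1 h2)
    simp only [mul_add, Finset.sum_add_distrib]
    ring
  have hswap : ∀ F : Finset E → E → ℝ,
      ∑ Q ∈ A, z * w Q * ∑ e ∈ U \ Q, F Q e =
        ∑ e ∈ U, ∑ Q ∈ QQ.filter (fun Q => Q ⊆ U ∧ e ∉ Q), z * w Q * F Q e := by
    intro F
    have h1 : ∀ Q ∈ A, z * w Q * ∑ e ∈ U \ Q, F Q e =
        ∑ e ∈ U, if e ∉ Q then z * w Q * F Q e else 0 := by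
      intro Q _
      rw [Finset.mul_sum, ← Finset.sum_filter]
      refine Finset.sum_congr ?_ fun _ _ => rfl
      ext v
      simp only [mem_sdiff, mem_filter]
    rw [Finset.sum_congr rfl h1, Finset.sum_comm]
    refine Finset.sum_congr rfl fun e _ => ?_
    rw [← Finset.sum_filter, hA, Finset.filter_filter]
  have havg : ∑ Q ∈ A, z * w Q * Pot QQ w TT θ M b' ρ' Δ' (U \ Q) +
      (1 - z * ∑ Q ∈ A, w Q) * Pot QQ w TT θ M b' ρ' Δ' U ≤ Pot QQ w TT θ M b ρ Δ U := by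
    have h1 : ∑ Q ∈ A, z * w Q * Pot QQ w TT θ M b' ρ' Δ' (U \ Q) +
        (1 - z * ∑ Q ∈ A, w Q) * Pot QQ w TT θ M b' ρ' Δ' U =
        ∑ e ∈ U, (∑ Q ∈ QQ.filter (fun Q => Q ⊆ U ∧ e ∉ Q), z * w Q *
            (Real.exp (θ * (Y QQ w (U \ Q) e / b' - 1 - Δ')) +
              Real.exp (θ * (1 - Y QQ w (U \ Q) e / b' - Δ'))) +
          (1 - z * ∑ Q ∈ A, w Q) * (Real.exp (θ * (Y QQ w U e / b' - 1 - Δ')) +
            Real.exp (θ * (1 - Y QQ w U e / b' - Δ')))) +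
        ∑ S ∈ TT, (∑ Q ∈ A, z * w Q * Real.exp (θ * (((S ∩ (U \ Q)).card : ℝ) / (M * ρ') - 1)) +
          (1 - z * ∑ Q ∈ A, w Q) * Real.exp (θ * (((S ∩ U).card : ℝ) / (M * ρ') - 1))) := by
      rw [Finset.sum_add_distrib, Finset.sum_add_distrib, ← hswap (fun Q e =>
        Real.exp (θ * (Y QQ w (U \ Q) e / b' - 1 - Δ')) +
          Real.exp (θ * (1 - Y QQ w (U \ Q) e / b' - Δ'))), Finset.sum_comm (s := TT), ← Finset.mul_sum,
        ← Finset.mul_sum]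
      have h2 : ∀ Q ∈ A, z * w Q * Pot QQ w TT θ M b' ρ' Δ' (U \ Q) =
          z * w Q * (∑ e ∈ U \ Q, (Real.exp (θ * (Y QQ w (U \ Q) e / b' - 1 - Δ')) +
            Real.exp (θ * (1 - Y QQ w (U \ Q) e / b' - Δ')))) +
          ∑ S ∈ TT, z * w Q * Real.exp (θ * (((S ∩ (U \ Q)).card : ℝ) / (M * ρ') - 1)) := by
        intro Q _
        rw [Pot, mul_add, ← Finset.mul_sum]
      rw [Finset.sum_congr rfl h2, Finset.sum_add_distrib]
      rw [Pot]
      ring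
    rw [h1, Pot]
    refine add_le_add (Finset.sum_le_sum hitem) (Finset.sum_le_sum fun S _ => ?_)
    exact test_step h hs hU S hzw hg
  -- some outcome is not above the average
  by_contra hcon
  push Not at hcon
  obtain ⟨hc0, hcQ⟩ := hcon
  set P0 := Pot QQ w TT θ M b ρ Δ U with hP0
  have h1 : ∀ Q ∈ A, z * w Q * P0 ≤ z * w Q * Pot QQ w TT θ M b' ρ' Δ' (U \ Q) := by
    intro Q hQ
    obtain ⟨hQ1, hQ2⟩ := Finset.mem_filter.1 hQ
    exact mul_le_mul_of_nonneg_left (hcQ Q hQ1 hQ2).le (mul_nonneg hz.le (h.nonneg Q hQ1))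
  have h2 := Finset.sum_le_sum h1
  have h3 : ∑ Q ∈ A, z * w Q * P0 = (z * ∑ Q ∈ A, w Q) * P0 := by
    rw [← Finset.sum_mul, ← Finset.mul_sum]
  rcases hp0.eq_or_lt with h4 | h4
  · -- all the weight is on the members
    have h5 : ∑ Q ∈ A, z * w Q * Pot QQ w TT θ M b' ρ' Δ' (U \ Q) ≤ ∑ Q ∈ A, z * w Q * P0 := by
      rw [h3]
      have : z * ∑ Q ∈ A, w Q = 1 := by linarith
      rw [← h4, zero_mul, add_zero] at havg
      rw [this, one_mul]
      exact havg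
    have h6 := (Finset.sum_eq_sum_iff_of_le h1).1 (le_antisymm h2 h5)
    have h7 : ∀ Q ∈ A, w Q = 0 := by
      intro Q hQ
      obtain ⟨hQ1, hQ2⟩ := Finset.mem_filter.1 hQ
      have h8 := h6 Q hQ
      have h9 := hcQ Q hQ1 hQ2
      by_contra hne
      have h10 : 0 < z * w Q := mul_pos hz (lt_of_le_of_ne (h.nonneg Q hQ1) (Ne.symm hne))
      have := mul_lt_mul_of_pos_left h9 h10
      linarith
    rw [Finset.sum_eq_zero h7] at h4
    norm_num at h4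
  · have h5 := mul_lt_mul_of_pos_left hc0 h4
    have h6 : (z * ∑ Q ∈ A, w Q) * P0 + (1 - z * ∑ Q ∈ A, w Q) * P0 = P0 := by ring
    linarith

end MP5cN
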