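import Pool.Agent.Lib.MP_5c685b_co.N.N1

set_option autoImplicit false

/-!
# Nibble, row N2a: one step of the potential, exponential inequalities
-/

namespace MP5cN

open Finset

variable {E : Type} [DecidableEq E] {D : ℕ} {EE : Finset E} {QQ : Finset (Finset E)}
  {w : Finset E → ℝ} {δ₀ κ θ M z b ρ Δ δ : ℝ} {U : Finset E} {e : E}

private theorem N2a_exp_neg {y d : ℝ} (h0 : 0 ≤ y) (h1 : y ≤ d) (h2 : d ≤ 1 / 4) :
    Real.exp (-y) ≤ 1 - (1 - d) * y := by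
  have h3 : |(-y)| ≤ 1 := by
    rw [abs_neg, abs_of_nonneg h0]
    linarith
  have h4 := (abs_le.mp (Real.abs_exp_sub_one_sub_id_le h3)).2
  nlinarith [mul_le_mul_of_nonneg_right h1 h0]

private theorem N2a_exp_pos {y d : ℝ} (h0 : 0 ≤ y) (h1 : y ≤ d) (h2 : d ≤ 1 / 4) :
    Real.exp y ≤ 1 + (1 + d) * y := by
  have h3 : |y| ≤ 1 := by
    rw [abs_of_nonneg h0]
    linarith
  have h4 := (abs_le.mp (Real.abs_exp_sub_one_sub_id_le h3)).2
  nlinarith [mul_le_mul_of_nonneg_right h1 h0]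

private theorem N2a_sum_le (h : Data D EE QQ w δ₀ κ) :
    ∑ Q ∈ QQ.filter (fun Q => Q ⊆ U ∧ e ∉ Q), w Q ≤ ∑ Q ∈ QQ.filter (fun Q => Q ⊆ U), w Q := by
  refine Finset.sum_le_sum_of_subset_of_nonneg ?_ ?_
  · intro Q hQ
    rw [Finset.mem_filter] at hQ ⊢
    exact ⟨hQ.1, hQ.2.1⟩
  · intro Q hQ _
    exact h.nonneg Q (Finset.mem_filter.mp hQ).1

/-- The bounds for the loss of the items of the sum. -/
private theorem N2a_loss (h : Data D EE QQ w δ₀ κ) (hs : Step D θ M κ z b ρ Δ δ) (hU : U ⊆ EE)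
    (he : e ∈ U) {Q : Finset E} (hQ : Q ∈ QQ.filter (fun Q => Q ⊆ U ∧ e ∉ Q)) :
    0 ≤ θ * (Y QQ w U e - Y QQ w (U \ Q) e) / (b * (1 - z * (D - 1) * b)) ∧
      θ * (Y QQ w U e - Y QQ w (U \ Q) e) / (b * (1 - z * (D - 1) * b)) ≤ δ := by
  rw [Finset.mem_filter] at hQ
  have h1 := Y_loss_nonneg (U := U) (e := e) h Q
  have h2 := Y_loss_le h hU he hQ.1 hQ.2.2
  have hb' : 0 < b * (1 - z * (D - 1) * b) := mul_pos hs.hb (by have := hs.ha; linarith)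
  refine ⟨div_nonneg (mul_nonneg hs.hθ.le h1) hb'.le, ?_⟩
  rw [div_le_iff₀ hb']
  refine le_trans ?_ hs.hω
  have := mul_le_mul_of_nonneg_left h2 hs.hθ.le
  linarith

theorem up_step (h : Data D EE QQ w δ₀ κ) (hs : Step D θ M κ z b ρ Δ δ) (hU : U ⊆ EE) (he : e ∈ U)
    (hzw : z * ∑ Q ∈ QQ, w Q ≤ 1) (hg : ∀ g ∈ U, |Y QQ w U g - b| ≤ δ * b) :
    ∑ Q ∈ QQ.filter (fun Q => Q ⊆ U ∧ e ∉ Q), z * w Q *
        Real.exp (θ * (Y QQ w (U \ Q) e / (b * (1 - z * (D - 1) * b)) - 1 -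
          (Δ + 6 * (z * (D - 1) * b) * δ))) +
      (1 - z * ∑ Q ∈ QQ.filter (fun Q => Q ⊆ U), w Q) *
        Real.exp (θ * (Y QQ w U e / (b * (1 - z * (D - 1) * b)) - 1 -
          (Δ + 6 * (z * (D - 1) * b) * δ))) ≤
      Real.exp (θ * (Y QQ w U e / b - 1 - Δ)) := by
  have hD1 : (1 : ℝ) ≤ (D : ℝ) - 1 := by
    have : (2 : ℝ) ≤ (D : ℝ) := by exact_mod_cast hs.hD
    linarith
  have hb := hs.hb
  have hz := hs.hz
  have hθ := hs.hθ
  have hδ := hs.hδ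
  have hδ' := hs.hδ'
  obtain ⟨a, ha_def⟩ : ∃ a, a = z * (D - 1) * b := ⟨_, rfl⟩
  have ha0 : 0 < a := by
    rw [ha_def]
    exact mul_pos (mul_pos hz (by linarith)) hb
  have ha1 : a ≤ 1 / 8 := by
    rw [ha_def]
    exact hs.ha
  have hloss := fun Q hQ => N2a_loss (Q := Q) h hs hU he hQ
  have hEL := EL_ge h hs.hκ hs.hD hU he (B := (1 - δ) * b) (fun g hg' => by
    have := (abs_le.mp (hg g hg')).1
    linarith)
  have hx := abs_le.mp (hg e he)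
  have hκ2 := hs.hκ2
  have hsub := N2a_sum_le (U := U) (e := e) h
  rw [← ha_def] at hloss ⊢
  obtain ⟨y, hy_def⟩ : ∃ y, y = Y QQ w U e := ⟨_, rfl⟩
  rw [← hy_def] at hloss hEL hx ⊢
  have hy0 : 0 ≤ y := by
    rw [hy_def]
    exact Y_nonneg h
  have h1a : 0 < 1 - a := by linarith
  have hb' : 0 < b * (1 - a) := mul_pos hb h1a
  obtain ⟨X, hX_def⟩ : ∃ X, X = Real.exp (θ * (y / (b * (1 - a)) - 1 - (Δ + 6 * a * δ))) :=
    ⟨_, rfl⟩
  have hX0 : 0 < X := by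
    rw [hX_def]
    exact Real.exp_pos _
  obtain ⟨EL, hEL_def⟩ : ∃ EL, EL = ∑ Q ∈ QQ.filter (fun Q => Q ⊆ U ∧ e ∉ Q),
    w Q * (y - Y QQ w (U \ Q) e) := ⟨_, rfl⟩
  rw [← hEL_def] at hEL
  -- the sum
  have hsum : ∑ Q ∈ QQ.filter (fun Q => Q ⊆ U ∧ e ∉ Q), z * w Q *
      Real.exp (θ * (Y QQ w (U \ Q) e / (b * (1 - a)) - 1 - (Δ + 6 * a * δ))) ≤
      X * (z * ∑ Q ∈ QQ.filter (fun Q => Q ⊆ U ∧ e ∉ Q), w Q -
        z * (1 - δ) * (θ / (b * (1 - a))) * EL) := by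
    have e1 : X * (z * ∑ Q ∈ QQ.filter (fun Q => Q ⊆ U ∧ e ∉ Q), w Q -
        z * (1 - δ) * (θ / (b * (1 - a))) * EL) =
        ∑ Q ∈ QQ.filter (fun Q => Q ⊆ U ∧ e ∉ Q), z * w Q *
          (X * (1 - (1 - δ) * (θ * (y - Y QQ w (U \ Q) e) / (b * (1 - a))))) := by
      rw [hEL_def, Finset.mul_sum, Finset.mul_sum, ← Finset.sum_sub_distrib, Finset.mul_sum]
      refine Finset.sum_congr rfl fun Q _ => ?_
      ring
    rw [e1]
    refine Finset.sum_le_sum fun Q hQ => ?_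
    have hw : 0 ≤ z * w Q := mul_nonneg hz.le (h.nonneg Q (Finset.mem_filter.mp hQ).1)
    refine mul_le_mul_of_nonneg_left ?_ hw
    have e2 : θ * (Y QQ w (U \ Q) e / (b * (1 - a)) - 1 - (Δ + 6 * a * δ)) =
        θ * (y / (b * (1 - a)) - 1 - (Δ + 6 * a * δ)) +
          -(θ * (y - Y QQ w (U \ Q) e) / (b * (1 - a))) := by
      ring
    rw [e2, Real.exp_add, ← hX_def]
    exact mul_le_mul_of_nonneg_left (N2a_exp_neg (hloss Q hQ).1 (hloss Q hQ).2 hδ') hX0.le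
  have hEL2 : ((D : ℝ) - 1) * b * (1 - 2 * δ) * y ≤ EL := by
    refine le_trans ?_ hEL
    refine mul_le_mul_of_nonneg_right ?_ hy0
    nlinarith
  -- the bracket
  have hbr : z * ∑ Q ∈ QQ.filter (fun Q => Q ⊆ U ∧ e ∉ Q), w Q -
      z * (1 - δ) * (θ / (b * (1 - a))) * EL +
      (1 - z * ∑ Q ∈ QQ.filter (fun Q => Q ⊆ U), w Q) ≤
      Real.exp (-(θ * (a * (1 - δ) * (1 - 2 * δ) * (y / b) / (1 - a)))) := by
    have h1 : z * ∑ Q ∈ QQ.filter (fun Q => Q ⊆ U ∧ e ∉ Q), w Q ≤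
        z * ∑ Q ∈ QQ.filter (fun Q => Q ⊆ U), w Q := mul_le_mul_of_nonneg_left hsub hz.le
    have h2 : z * (1 - δ) * (θ / (b * (1 - a))) * (((D : ℝ) - 1) * b * (1 - 2 * δ) * y) ≤
        z * (1 - δ) * (θ / (b * (1 - a))) * EL := by
      refine mul_le_mul_of_nonneg_left hEL2 ?_
      exact mul_nonneg (mul_nonneg hz.le (by linarith)) (div_nonneg hθ.le hb'.le)
    have h3 : z * (1 - δ) * (θ / (b * (1 - a))) * (((D : ℝ) - 1) * b * (1 - 2 * δ) * y) =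
        θ * (a * (1 - δ) * (1 - 2 * δ) * (y / b) / (1 - a)) := by
      rw [ha_def] at h1a ⊢
      field_simp
    have h4 := Real.add_one_le_exp (-(θ * (a * (1 - δ) * (1 - 2 * δ) * (y / b) / (1 - a))))
    linarith
  have hfin : X * Real.exp (-(θ * (a * (1 - δ) * (1 - 2 * δ) * (y / b) / (1 - a)))) ≤
      Real.exp (θ * (y / b - 1 - Δ)) := by
    rw [hX_def, ← Real.exp_add, Real.exp_le_exp]
    have e3 : y / (b * (1 - a)) = (y / b) / (1 - a) := by rw [div_div]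
    obtain ⟨x, hx_def⟩ : ∃ x, x = y / b := ⟨_, rfl⟩
    have hx0 : 0 ≤ x := by
      rw [hx_def]
      exact div_nonneg hy0 hb.le
    have hx1 : x ≤ 5 / 4 := by
      rw [hx_def, div_le_iff₀ hb]
      nlinarith
    rw [e3, ← hx_def]
    have h5 : x / (1 - a) - a * (1 - δ) * (1 - 2 * δ) * x / (1 - a) ≤ x + 6 * a * δ := by
      rw [← sub_div, div_le_iff₀ h1a]
      nlinarith [mul_nonneg ha0.le hδ.le, mul_nonneg (mul_nonneg ha0.le hδ.le) hx0,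
        mul_nonneg (mul_nonneg (mul_nonneg ha0.le hδ.le) hδ.le) hx0,
        mul_nonneg (mul_nonneg ha0.le ha0.le) hδ.le,
        mul_nonneg (mul_nonneg ha0.le hδ.le) (sub_nonneg.mpr hx1),
        mul_nonneg (mul_nonneg ha0.le hδ.le) (sub_nonneg.mpr ha1)]
    nlinarith [mul_le_mul_of_nonneg_left h5 hθ.le]
  calc _ ≤ X * (z * ∑ Q ∈ QQ.filter (fun Q => Q ⊆ U ∧ e ∉ Q), w Q -
        z * (1 - δ) * (θ / (b * (1 - a))) * EL) +
        (1 - z * ∑ Q ∈ QQ.filter (fun Q => Q ⊆ U), w Q) * X := by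
        rw [← hX_def]
        exact add_le_add hsum le_rfl
    _ = X * (z * ∑ Q ∈ QQ.filter (fun Q => Q ⊆ U ∧ e ∉ Q), w Q -
      z * (1 - δ) * (θ / (b * (1 - a))) * EL +
      (1 - z * ∑ Q ∈ QQ.filter (fun Q => Q ⊆ U), w Q)) := by ring
    _ ≤ _ := (mul_le_mul_of_nonneg_left hbr hX0.le).trans hfin

theorem low_step (h : Data D EE QQ w δ₀ κ) (hs : Step D θ M κ z b ρ Δ δ) (hU : U ⊆ EE) (he : e ∈ U)
    (hzw : z * ∑ Q ∈ QQ, w Q ≤ 1) (hg : ∀ g ∈ U, |Y QQ w U g - b| ≤ δ * b) :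
    ∑ Q ∈ QQ.filter (fun Q => Q ⊆ U ∧ e ∉ Q), z * w Q *
        Real.exp (θ * (1 - Y QQ w (U \ Q) e / (b * (1 - z * (D - 1) * b)) -
          (Δ + 6 * (z * (D - 1) * b) * δ))) +
      (1 - z * ∑ Q ∈ QQ.filter (fun Q => Q ⊆ U), w Q) *
        Real.exp (θ * (1 - Y QQ w U e / (b * (1 - z * (D - 1) * b)) -
          (Δ + 6 * (z * (D - 1) * b) * δ))) ≤
      Real.exp (θ * (1 - Y QQ w U e / b - Δ)) := by
  have hD1 : (1 : ℝ) ≤ (D : ℝ) - 1 := by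
    have : (2 : ℝ) ≤ (D : ℝ) := by exact_mod_cast hs.hD
    linarith
  have hb := hs.hb
  have hz := hs.hz
  have hθ := hs.hθ
  have hδ := hs.hδ
  have hδ' := hs.hδ'
  obtain ⟨a, ha_def⟩ : ∃ a, a = z * (D - 1) * b := ⟨_, rfl⟩
  have ha0 : 0 < a := by
    rw [ha_def]
    exact mul_pos (mul_pos hz (by linarith)) hb
  have ha1 : a ≤ 1 / 8 := by
    rw [ha_def]
    exact hs.ha
  have hloss := fun Q hQ => N2a_loss (Q := Q) h hs hU he hQ
  have hEL := EL_le h hU he (B := (1 + δ) * b) (fun g hg' => by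
    have := (abs_le.mp (hg g hg')).2
    linarith)
  have hx := abs_le.mp (hg e he)
  have hsub := N2a_sum_le (U := U) (e := e) h
  rw [← ha_def] at hloss ⊢
  obtain ⟨y, hy_def⟩ : ∃ y, y = Y QQ w U e := ⟨_, rfl⟩
  rw [← hy_def] at hloss hEL hx ⊢
  have hy0 : 0 ≤ y := by
    rw [hy_def]
    exact Y_nonneg h
  have h1a : 0 < 1 - a := by linarith
  have hb' : 0 < b * (1 - a) := mul_pos hb h1a
  obtain ⟨X, hX_def⟩ : ∃ X, X = Real.exp (θ * (1 - y / (b * (1 - a)) - (Δ + 6 * a * δ))) :=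
    ⟨_, rfl⟩
  have hX0 : 0 < X := by
    rw [hX_def]
    exact Real.exp_pos _
  obtain ⟨EL, hEL_def⟩ : ∃ EL, EL = ∑ Q ∈ QQ.filter (fun Q => Q ⊆ U ∧ e ∉ Q),
    w Q * (y - Y QQ w (U \ Q) e) := ⟨_, rfl⟩
  rw [← hEL_def] at hEL
  -- the sum
  have hsum : ∑ Q ∈ QQ.filter (fun Q => Q ⊆ U ∧ e ∉ Q), z * w Q *
      Real.exp (θ * (1 - Y QQ w (U \ Q) e / (b * (1 - a)) - (Δ + 6 * a * δ))) ≤
      X * (z * ∑ Q ∈ QQ.filter (fun Q => Q ⊆ U ∧ e ∉ Q), w Q +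
        z * (1 + δ) * (θ / (b * (1 - a))) * EL) := by
    have e1 : X * (z * ∑ Q ∈ QQ.filter (fun Q => Q ⊆ U ∧ e ∉ Q), w Q +
        z * (1 + δ) * (θ / (b * (1 - a))) * EL) =
        ∑ Q ∈ QQ.filter (fun Q => Q ⊆ U ∧ e ∉ Q), z * w Q *
          (X * (1 + (1 + δ) * (θ * (y - Y QQ w (U \ Q) e) / (b * (1 - a))))) := by
      rw [hEL_def, Finset.mul_sum, Finset.mul_sum, ← Finset.sum_add_distrib, Finset.mul_sum]
      refine Finset.sum_congr rfl fun Q _ => ?_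
      ring
    rw [e1]
    refine Finset.sum_le_sum fun Q hQ => ?_
    have hw : 0 ≤ z * w Q := mul_nonneg hz.le (h.nonneg Q (Finset.mem_filter.mp hQ).1)
    refine mul_le_mul_of_nonneg_left ?_ hw
    have e2 : θ * (1 - Y QQ w (U \ Q) e / (b * (1 - a)) - (Δ + 6 * a * δ)) =
        θ * (1 - y / (b * (1 - a)) - (Δ + 6 * a * δ)) +
          θ * (y - Y QQ w (U \ Q) e) / (b * (1 - a)) := by
      ring
    rw [e2, Real.exp_add, ← hX_def]
    exact mul_le_mul_of_nonneg_left (N2a_exp_pos (hloss Q hQ).1 (hloss Q hQ).2 hδ') hX0.le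
  -- the bracket
  have hbr : z * ∑ Q ∈ QQ.filter (fun Q => Q ⊆ U ∧ e ∉ Q), w Q +
      z * (1 + δ) * (θ / (b * (1 - a))) * EL +
      (1 - z * ∑ Q ∈ QQ.filter (fun Q => Q ⊆ U), w Q) ≤
      Real.exp (θ * (a * (1 + δ) * (1 + δ) * (y / b) / (1 - a))) := by
    have h1 : z * ∑ Q ∈ QQ.filter (fun Q => Q ⊆ U ∧ e ∉ Q), w Q ≤
        z * ∑ Q ∈ QQ.filter (fun Q => Q ⊆ U), w Q := mul_le_mul_of_nonneg_left hsub hz.le
    have h2 : z * (1 + δ) * (θ / (b * (1 - a))) * EL ≤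
        z * (1 + δ) * (θ / (b * (1 - a))) * (((D : ℝ) - 1) * ((1 + δ) * b) * y) := by
      refine mul_le_mul_of_nonneg_left hEL ?_
      exact mul_nonneg (mul_nonneg hz.le (by linarith)) (div_nonneg hθ.le hb'.le)
    have h3 : z * (1 + δ) * (θ / (b * (1 - a))) * (((D : ℝ) - 1) * ((1 + δ) * b) * y) =
        θ * (a * (1 + δ) * (1 + δ) * (y / b) / (1 - a)) := by
      rw [ha_def] at h1a ⊢
      field_simp
    have h4 := Real.add_one_le_exp (θ * (a * (1 + δ) * (1 + δ) * (y / b) / (1 - a)))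
    linarith
  have hfin : X * Real.exp (θ * (a * (1 + δ) * (1 + δ) * (y / b) / (1 - a))) ≤
      Real.exp (θ * (1 - y / b - Δ)) := by
    rw [hX_def, ← Real.exp_add, Real.exp_le_exp]
    have e3 : y / (b * (1 - a)) = (y / b) / (1 - a) := by rw [div_div]
    obtain ⟨x, hx_def⟩ : ∃ x, x = y / b := ⟨_, rfl⟩
    have hx0 : 0 ≤ x := by
      rw [hx_def]
      exact div_nonneg hy0 hb.le
    have hx1 : x ≤ 5 / 4 := by
      rw [hx_def, div_le_iff₀ hb]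
      nlinarith
    rw [e3, ← hx_def]
    have h5 : a * (1 + δ) * (1 + δ) * x / (1 - a) - x / (1 - a) ≤ 6 * a * δ - x := by
      rw [← sub_div, div_le_iff₀ h1a]
      nlinarith [mul_nonneg ha0.le hδ.le, mul_nonneg (mul_nonneg ha0.le hδ.le) hx0,
        mul_nonneg (mul_nonneg ha0.le hδ.le) (mul_nonneg hx0 (sub_nonneg.mpr hδ')),
        mul_nonneg (mul_nonneg ha0.le ha0.le) hδ.le,
        mul_nonneg (mul_nonneg ha0.le hδ.le) (sub_nonneg.mpr hx1),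
        mul_nonneg (mul_nonneg ha0.le hδ.le) (sub_nonneg.mpr ha1)]
    nlinarith [mul_le_mul_of_nonneg_left h5 hθ.le]
  calc _ ≤ X * (z * ∑ Q ∈ QQ.filter (fun Q => Q ⊆ U ∧ e ∉ Q), w Q +
        z * (1 + δ) * (θ / (b * (1 - a))) * EL) +
        (1 - z * ∑ Q ∈ QQ.filter (fun Q => Q ⊆ U), w Q) * X := by
        rw [← hX_def]
        exact add_le_add hsum le_rfl
    _ = X * (z * ∑ Q ∈ QQ.filter (fun Q => Q ⊆ U ∧ e ∉ Q), w Q +
      z * (1 + δ) * (θ / (b * (1 - a))) * EL +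
      (1 - z * ∑ Q ∈ QQ.filter (fun Q => Q ⊆ U), w Q)) := by ring
    _ ≤ _ := (mul_le_mul_of_nonneg_left hbr hX0.le).trans hfin

end MP5cN
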