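import Pool.Agent.Lib.MP_5c685b_co.N.NDefs

set_option autoImplicit false

/-!
# Nibble, row N3: the deterministic sequences
-/

namespace MP5cN

/-- predicted weight -/
noncomputable def bs (D : ℕ) (z : ℝ) : ℕ → ℝ
  | 0 => 1
  | t + 1 => bs D z t * (1 - z * (D - 1) * bs D z t)

/-- predicted fraction for the tests (upper bound) -/
noncomputable def rs (D : ℕ) (z : ℝ) : ℕ → ℝ
  | 0 => 1
  | t + 1 => rs D z t * (1 - z * bs D z t / 2)

/-- accumulated error, `ds = Δ_t`; the band is `Δ_t + δ₀` -/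
noncomputable def ds (D : ℕ) (z δ₀ : ℝ) : ℕ → ℝ
  | 0 => δ₀
  | t + 1 => ds D z δ₀ t + 6 * (z * (D - 1) * bs D z t) * (ds D z δ₀ t + δ₀)

variable {D : ℕ} {z τ δ₀ : ℝ} {T : ℕ}

theorem bs_pos (hD : 2 ≤ D) (hz : 0 < z) (hz8 : z * (D - 1) ≤ 1 / 8) (t : ℕ) :
    0 < bs D z t ∧ bs D z t ≤ 1 := by
  have hD' : (2 : ℝ) ≤ D := by exact_mod_cast hD
  induction t with
  | zero => simp [bs]
  | succ t ih =>
    obtain ⟨h0, h1⟩ := ih
    have hc : 0 < z * ((D : ℝ) - 1) := mul_pos hz (by linarith)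
    have h2 : z * ((D : ℝ) - 1) * bs D z t ≤ 1 / 8 := by
      calc z * ((D : ℝ) - 1) * bs D z t ≤ z * ((D : ℝ) - 1) * 1 :=
            mul_le_mul_of_nonneg_left h1 hc.le
        _ ≤ 1 / 8 := by linarith
    have h3 : 0 < z * ((D : ℝ) - 1) * bs D z t := mul_pos hc h0
    refine ⟨mul_pos h0 (by linarith), ?_⟩
    show bs D z t * (1 - z * ((D : ℝ) - 1) * bs D z t) ≤ 1
    nlinarith

theorem bs_lower (hD : 2 ≤ D) (hz : 0 < z) (hz8 : z * (D - 1) ≤ 1 / 8) (t : ℕ) :
    1 / (1 + 2 * (D - 1) * (z * t)) ≤ bs D z t := by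
  have hD' : (2 : ℝ) ≤ D := by exact_mod_cast hD
  have hc : 0 < z * ((D : ℝ) - 1) := mul_pos hz (by linarith)
  have key : ∀ t : ℕ, 1 / bs D z t ≤ 1 + 2 * ((D : ℝ) - 1) * (z * t) := by
    intro t
    induction t with
    | zero => simp [bs]
    | succ t ih =>
      obtain ⟨h0, h1⟩ := bs_pos hD hz hz8 t
      have h2 : z * ((D : ℝ) - 1) * bs D z t ≤ 1 / 8 := by
        calc z * ((D : ℝ) - 1) * bs D z t ≤ z * ((D : ℝ) - 1) * 1 :=
              mul_le_mul_of_nonneg_left h1 hc.le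
          _ ≤ 1 / 8 := by linarith
      have h3 : 0 < z * ((D : ℝ) - 1) * bs D z t := mul_pos hc h0
      have h4 : 0 < 1 - z * ((D : ℝ) - 1) * bs D z t := by linarith
      have h5 : 1 / bs D z (t + 1) ≤ 1 / bs D z t + 2 * (z * ((D : ℝ) - 1)) := by
        show 1 / (bs D z t * (1 - z * ((D : ℝ) - 1) * bs D z t)) ≤ _
        rw [div_add' _ _ _ h0.ne', div_le_div_iff₀ (mul_pos h0 h4) h0]
        have : (1 + 2 * (z * ((D : ℝ) - 1)) * bs D z t) *
            (bs D z t * (1 - z * ((D : ℝ) - 1) * bs D z t)) =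
            bs D z t * ((1 + 2 * (z * ((D : ℝ) - 1) * bs D z t)) *
              (1 - z * ((D : ℝ) - 1) * bs D z t)) := by ring
        rw [this, one_mul]
        have h6 : 1 ≤ (1 + 2 * (z * ((D : ℝ) - 1) * bs D z t)) *
              (1 - z * ((D : ℝ) - 1) * bs D z t) := by nlinarith
        nlinarith
      push_cast
      linarith
  have h0 := (bs_pos hD hz hz8 t).1
  have h1 := key t
  have h2 : 0 < 1 + 2 * ((D : ℝ) - 1) * (z * t) := lt_of_lt_of_le (by positivity) h1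
  rw [div_le_iff₀ h2]
  rw [div_le_iff₀ h0] at h1
  linarith

theorem rs_pos (hD : 2 ≤ D) (hz : 0 < z) (hz8 : z * (D - 1) ≤ 1 / 8) (t : ℕ) :
    Real.exp (-(z * t)) ≤ rs D z t ∧ rs D z t ≤ 1 := by
  have hD' : (2 : ℝ) ≤ D := by exact_mod_cast hD
  have hz1 : z ≤ 1 / 8 := by nlinarith
  induction t with
  | zero => simp [rs]
  | succ t ih =>
    obtain ⟨h0, h1⟩ := bs_pos hD hz hz8 t
    obtain ⟨i0, i1⟩ := ih
    have hr0 : 0 < rs D z t := lt_of_lt_of_le (Real.exp_pos _) i0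
    have hzb : z * bs D z t ≤ z := by nlinarith
    have hzb0 : 0 < z * bs D z t := mul_pos hz h0
    constructor
    · show _ ≤ rs D z t * (1 - z * bs D z t / 2)
      have e1 : Real.exp (-(z * ((t + 1 : ℕ) : ℝ))) = Real.exp (-(z * t)) * Real.exp (-z) := by
        rw [← Real.exp_add]; congr 1; push_cast; ring
      rw [e1]
      have e2 : Real.exp (-z) ≤ 1 - z * bs D z t / 2 := by
        have e3 : Real.exp (-z) ≤ 1 / (1 + z) := by
          rw [Real.exp_neg, inv_eq_one_div]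
          exact one_div_le_one_div_of_le (by linarith) (by linarith [Real.add_one_le_exp z])
        have e4 : 1 / (1 + z) ≤ 1 - z / 2 := by
          rw [div_le_iff₀ (by linarith)]
          nlinarith
        linarith
      exact mul_le_mul i0 e2 (Real.exp_pos _).le hr0.le
    · show rs D z t * (1 - z * bs D z t / 2) ≤ 1
      nlinarith

theorem ds_upper (hD : 2 ≤ D) (hz : 0 < z) (hz8 : z * (D - 1) ≤ 1 / 8) (hδ₀ : 0 < δ₀) (t : ℕ) :
    δ₀ ≤ ds D z δ₀ t ∧ ds D z δ₀ t + δ₀ ≤ 2 * δ₀ * Real.exp (6 * (D - 1) * (z * t)) := by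
  have hD' : (2 : ℝ) ≤ D := by exact_mod_cast hD
  have hc : 0 < z * ((D : ℝ) - 1) := mul_pos hz (by linarith)
  induction t with
  | zero => simp [ds]; linarith
  | succ t ih =>
    obtain ⟨h0, h1⟩ := bs_pos hD hz hz8 t
    obtain ⟨i0, i1⟩ := ih
    have hS : 0 < ds D z δ₀ t + δ₀ := by linarith
    have hcb0 : 0 < z * ((D : ℝ) - 1) * bs D z t := mul_pos hc h0
    have hcb : z * ((D : ℝ) - 1) * bs D z t ≤ z * ((D : ℝ) - 1) := by nlinarith
    have e0 : ds D z δ₀ (t + 1) =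
        ds D z δ₀ t + 6 * (z * ((D : ℝ) - 1) * bs D z t) * (ds D z δ₀ t + δ₀) := rfl
    constructor
    · rw [e0]
      have := mul_pos hcb0 hS
      linarith
    · rw [e0]
      have e1 : Real.exp (6 * ((D : ℝ) - 1) * (z * ((t + 1 : ℕ) : ℝ))) =
          Real.exp (6 * ((D : ℝ) - 1) * (z * t)) * Real.exp (6 * (z * ((D : ℝ) - 1))) := by
        rw [← Real.exp_add]; congr 1; push_cast; ring
      rw [e1]
      have e2 : 1 + 6 * (z * ((D : ℝ) - 1)) ≤ Real.exp (6 * (z * ((D : ℝ) - 1))) := by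
        linarith [Real.add_one_le_exp (6 * (z * ((D : ℝ) - 1)))]
      calc ds D z δ₀ t + 6 * (z * ((D : ℝ) - 1) * bs D z t) * (ds D z δ₀ t + δ₀) + δ₀
          = (ds D z δ₀ t + δ₀) * (1 + 6 * (z * ((D : ℝ) - 1) * bs D z t)) := by ring
        _ ≤ (ds D z δ₀ t + δ₀) * (1 + 6 * (z * ((D : ℝ) - 1))) :=
            mul_le_mul_of_nonneg_left (by linarith) hS.le
        _ ≤ (2 * δ₀ * Real.exp (6 * (D - 1) * (z * t))) * Real.exp (6 * (z * ((D : ℝ) - 1))) :=
            mul_le_mul i1 e2 (by linarith) (by positivity)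
        _ = _ := by ring

/-- the fraction becomes small -/
theorem rs_small (hD : 2 ≤ D) {η : ℝ} (hη : 0 < η) :
    ∃ τ : ℝ, 0 < τ ∧ ∀ z : ℝ, 0 < z → z * (D - 1) ≤ 1 / 8 → ∀ T : ℕ, z * T = τ → rs D z T ≤ η := by
  have hD' : (2 : ℝ) ≤ D := by exact_mod_cast hD
  have hd : (1 : ℝ) ≤ (D : ℝ) - 1 := by linarith
  -- rs D z T * (1 + 2 (D-1) z T)^(1/(8 (D-1))) ≤ 1
  set a : ℝ := 1 / (8 * ((D : ℝ) - 1)) with ha
  have ha0 : 0 < a := by positivity
  have key : ∀ z : ℝ, 0 < z → z * (D - 1) ≤ 1 / 8 → ∀ t : ℕ,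
      rs D z t ≤ Real.exp (-(a * Real.log (1 + 2 * ((D : ℝ) - 1) * (z * t)))) := by
    intro z hz hz8 t
    have hc : 0 < z * ((D : ℝ) - 1) := mul_pos hz (by linarith)
    induction t with
    | zero => simp [rs]
    | succ t ih =>
      have hb := bs_lower hD hz hz8 t
      obtain ⟨h0, h1⟩ := bs_pos hD hz hz8 t
      have hr0 : 0 < rs D z t := lt_of_lt_of_le (Real.exp_pos _) (rs_pos hD hz hz8 t).1
      set S : ℝ := 1 + 2 * ((D : ℝ) - 1) * (z * t) with hS
      have hS1 : 1 ≤ S := by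
        have : 0 ≤ 2 * ((D : ℝ) - 1) * (z * t) := by positivity
        linarith
      have e1 : 1 + 2 * ((D : ℝ) - 1) * (z * ((t + 1 : ℕ) : ℝ)) = S + 2 * (z * ((D : ℝ) - 1)) := by
        rw [hS]; push_cast; ring
      rw [e1]
      have hS0 : 0 < S := by linarith
      have e2 : Real.log (S + 2 * (z * ((D : ℝ) - 1))) ≤ Real.log S + 2 * (z * ((D : ℝ) - 1)) / S := by
        have : S + 2 * (z * ((D : ℝ) - 1)) = S * (1 + 2 * (z * ((D : ℝ) - 1)) / S) := by
          field_simp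
        rw [this, Real.log_mul hS0.ne' (by positivity)]
        have := Real.log_le_sub_one_of_pos (x := 1 + 2 * (z * ((D : ℝ) - 1)) / S) (by positivity)
        linarith
      have e3 : rs D z (t + 1) ≤ rs D z t * Real.exp (-(z * bs D z t / 2)) := by
        show rs D z t * (1 - z * bs D z t / 2) ≤ _
        refine mul_le_mul_of_nonneg_left ?_ hr0.le
        linarith [Real.add_one_le_exp (-(z * bs D z t / 2))]
      have e4 : a * (2 * (z * ((D : ℝ) - 1)) / S) ≤ z * bs D z t / 2 := by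
        have : a * (2 * (z * ((D : ℝ) - 1)) / S) = z / 4 * (1 / S) := by
          rw [ha]; field_simp; ring
        rw [this]
        have : z / 4 * (1 / S) ≤ z / 4 * bs D z t := mul_le_mul_of_nonneg_left hb (by positivity)
        have : 0 < z * bs D z t := mul_pos hz h0
        linarith
      calc rs D z (t + 1) ≤ rs D z t * Real.exp (-(z * bs D z t / 2)) := e3
        _ ≤ Real.exp (-(a * Real.log S)) * Real.exp (-(z * bs D z t / 2)) :=
            mul_le_mul_of_nonneg_right ih (Real.exp_pos _).le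
        _ = Real.exp (-(a * Real.log S) + -(z * bs D z t / 2)) := (Real.exp_add _ _).symm
        _ ≤ _ := by
            apply Real.exp_le_exp.mpr
            have := mul_le_mul_of_nonneg_left e2 ha0.le
            linarith
  -- choice of τ
  obtain ⟨x, hx⟩ : ∃ x : ℝ, 0 < x ∧ Real.exp (-(a * x)) ≤ η := by
    refine ⟨max 1 (-Real.log η / a), by positivity, ?_⟩
    have h1 : -Real.log η ≤ a * max 1 (-Real.log η / a) := by
      calc -Real.log η = a * (-Real.log η / a) := by field_simp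
        _ ≤ _ := mul_le_mul_of_nonneg_left (le_max_right _ _) ha0.le
    calc Real.exp (-(a * max 1 (-Real.log η / a))) ≤ Real.exp (Real.log η) :=
          Real.exp_le_exp.mpr (by linarith)
      _ = η := Real.exp_log hη
  refine ⟨Real.exp x, Real.exp_pos _, fun z hz hz8 T hT => ?_⟩
  refine (key z hz hz8 T).trans (le_trans (Real.exp_le_exp.mpr ?_) hx.2)
  rw [hT]
  have h1 : x ≤ Real.log (1 + 2 * ((D : ℝ) - 1) * Real.exp x) := by
    rw [Real.le_log_iff_exp_le (by positivity)]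
    nlinarith [Real.exp_pos x]
  have := mul_le_mul_of_nonneg_left h1 ha0.le
  linarith

end MP5cN
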