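import Pool.Agent.Lib.MP_5c685b_co.N.N2
import Pool.Agent.Lib.MP_5c685b_co.N.N3

set_option autoImplicit false

/-!
# Nibble, row N4: the abstract nibble theorem
-/

namespace MP5cN

open Finset

section aux

variable {E : Type} [DecidableEq E] {QQ TT : Finset (Finset E)} {w : Finset E → ℝ}
  {θ M b ρ Δ : ℝ} {U : Finset E}

private theorem N4_up {e : E} (he : e ∈ U) :
    Real.exp (θ * (Y QQ w U e / b - 1 - Δ)) + Real.exp (θ * (1 - Y QQ w U e / b - Δ)) ≤
      Pot QQ w TT θ M b ρ Δ U := by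
  unfold Pot
  have h1 := Finset.single_le_sum (f := fun e => Real.exp (θ * (Y QQ w U e / b - 1 - Δ)) +
    Real.exp (θ * (1 - Y QQ w U e / b - Δ))) (fun i _ => by positivity) he
  have h2 : 0 ≤ ∑ S ∈ TT, Real.exp (θ * (((S ∩ U).card : ℝ) / (M * ρ) - 1)) :=
    Finset.sum_nonneg fun _ _ => (Real.exp_pos _).le

  linarith

private theorem N4_test {S : Finset E} (hS : S ∈ TT) :
    Real.exp (θ * (((S ∩ U).card : ℝ) / (M * ρ) - 1)) ≤ Pot QQ w TT θ M b ρ Δ U := by
  unfold Pot
  have h1 := Finset.single_le_sum (f := fun S : Finset E =>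
    Real.exp (θ * (((S ∩ U).card : ℝ) / (M * ρ) - 1))) (fun i _ => (Real.exp_pos _).le) hS
  have h2 : 0 ≤ ∑ e ∈ U, (Real.exp (θ * (Y QQ w U e / b - 1 - Δ)) +
      Real.exp (θ * (1 - Y QQ w U e / b - Δ))) :=
    Finset.sum_nonneg fun _ _ => by positivity

  linarith

private theorem N4_log {x N δ : ℝ} (hθ : 0 < θ) (hx : Real.exp (θ * x) ≤ N)
    (hlog : Real.log N ≤ δ * θ) : x ≤ δ := by
  have hN : 0 < N := lt_of_lt_of_le (Real.exp_pos _) hx
  have h1 : θ * x ≤ Real.log N := (Real.le_log_iff_exp_le hN).2 hx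
  have h2 : θ * x ≤ θ * δ := by linarith
  exact le_of_mul_le_mul_left h2 hθ

private theorem N4_band (hb : 0 < b) (hθ : 0 < θ) {N δ : ℝ}
    (hN : Pot QQ w TT θ M b ρ Δ U ≤ N) (hlog : Real.log N ≤ δ * θ) {g : E} (hg : g ∈ U) :
    |Y QQ w U g - b| ≤ (Δ + δ) * b := by
  have h0 := (N4_up (QQ := QQ) (TT := TT) (w := w) (θ := θ) (M := M) (b := b) (ρ := ρ)
    (Δ := Δ) hg).trans hN
  have h1 : Real.exp (θ * (Y QQ w U g / b - 1 - Δ)) ≤ N := by
    have := Real.exp_pos (θ * (1 - Y QQ w U g / b - Δ))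
    linarith
  have h2 : Real.exp (θ * (1 - Y QQ w U g / b - Δ)) ≤ N := by
    have := Real.exp_pos (θ * (Y QQ w U g / b - 1 - Δ))
    linarith
  have h3 := N4_log hθ h1 hlog
  have h4 := N4_log hθ h2 hlog
  have h5 : Y QQ w U g / b ≤ 1 + Δ + δ := by linarith
  have h6 : 1 - Δ - δ ≤ Y QQ w U g / b := by linarith
  rw [div_le_iff₀ hb] at h5
  rw [le_div_iff₀ hb] at h6
  rw [abs_le]
  constructor <;> nlinarith

end aux

/-- THE NIBBLE: a packing of members of `QQ` which leaves at most `η M` items of every test set. -/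
theorem nibble (D : ℕ) (hD : 2 ≤ D) {η : ℝ} (hη : 0 < η) :
    ∃ δ A : ℝ, 0 < δ ∧ 0 < A ∧ ∀ (E : Type) [DecidableEq E] (EE : Finset E)
      (QQ TT : Finset (Finset E)) (w : Finset E → ℝ) (κ θ M : ℝ), Data D EE QQ w δ κ → 0 ≤ κ →
      1 ≤ θ → A * (θ * κ) ≤ 1 → A * θ ≤ M →
      (∀ S ∈ TT, S ⊆ EE ∧ (S.card : ℝ) ≤ M) →
      Real.log (2 * (EE.card : ℝ) + (TT.card : ℝ)) ≤ δ * θ →
      ∃ NN ⊆ QQ, (∀ Q ∈ NN, ∀ Q' ∈ NN, Q ≠ Q' → Disjoint Q Q') ∧
        ∀ S ∈ TT, ((S.filter (fun e => ∀ Q ∈ NN, e ∉ Q)).card : ℝ) ≤ η * M := by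
  obtain ⟨τ, hτ, hrs⟩ := rs_small hD (half_pos hη)
  have hDn : 0 < D := by omega
  have hD2 : (2 : ℝ) ≤ D := by exact_mod_cast hD
  have hD1 : (1 : ℝ) ≤ (D : ℝ) - 1 := by linarith
  have hD0 : (0 : ℝ) ≤ (D : ℝ) - 1 := by linarith
  set δ : ℝ := Real.exp (-(6 * ((D : ℝ) - 1) * τ)) / 8 with hδdef
  have hδ : 0 < δ := by positivity
  have hden : 0 < 1 + 2 * ((D : ℝ) - 1) * τ := by
    have := mul_nonneg hD0 hτ.le
    nlinarith
  set β : ℝ := 1 / (1 + 2 * ((D : ℝ) - 1) * τ) with hβdef
  have hβ : 0 < β := by positivity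
  refine ⟨δ, (D : ℝ) ^ 2 / (δ * β) + 8 * D * Real.exp τ, hδ, by positivity, ?_⟩
  intro E _ EE QQ TT w κ θ M hdata hκ hθ hA hM hTT hlog
  have hθ0 : 0 < θ := by linarith
  have hθκ : 0 ≤ θ * κ := mul_nonneg hθ0.le hκ
  have hMpos : 0 < M := by
    refine lt_of_lt_of_le ?_ hM
    positivity
  -- consequences of the size of `A`
  have hk : (D : ℝ) ^ 2 * (θ * κ) ≤ δ * β := by
    have h1 : (D : ℝ) ^ 2 / (δ * β) * (θ * κ) ≤ 1 := by
      refine le_trans ?_ hA
      refine mul_le_mul_of_nonneg_right ?_ hθκ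
      have : 0 ≤ 8 * (D : ℝ) * Real.exp τ := by positivity
      linarith
    rw [div_mul_eq_mul_div, div_le_one (by positivity)] at h1
    exact h1
  have hMA : 8 * (D : ℝ) * Real.exp τ * θ ≤ M := by
    refine le_trans ?_ hM
    refine mul_le_mul_of_nonneg_right ?_ hθ0.le
    have : 0 ≤ (D : ℝ) ^ 2 / (δ * β) := by positivity
    linarith
  -- number of slots
  obtain ⟨T, hT⟩ := exists_nat_ge (max (max (8 * ((D : ℝ) - 1) * τ) (τ * ∑ Q ∈ QQ, w Q)) 1)
  have hT1 : (1 : ℝ) ≤ T := (le_max_right _ _).trans hT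
  have hTa : 8 * ((D : ℝ) - 1) * τ ≤ T := ((le_max_left _ _).trans (le_max_left _ _)).trans hT
  have hTb : τ * ∑ Q ∈ QQ, w Q ≤ T := ((le_max_right _ _).trans (le_max_left _ _)).trans hT
  have hT0 : (0 : ℝ) < T := by linarith
  set z : ℝ := τ / T with hzdef
  have hz : 0 < z := by positivity
  have hzT : z * T = τ := by rw [hzdef]; field_simp
  have hz8 : z * ((D : ℝ) - 1) ≤ 1 / 8 := by
    rw [hzdef, div_mul_eq_mul_div, div_le_iff₀ hT0]
    linarith
  have hz8' : z ≤ 1 / 8 := by nlinarith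
  have hzw : z * ∑ Q ∈ QQ, w Q ≤ 1 := by
    rw [hzdef, div_mul_eq_mul_div, div_le_one hT0]
    exact hTb
  set N : ℝ := 2 * (EE.card : ℝ) + (TT.card : ℝ) with hN
  have claim : ∀ t : ℕ, t ≤ T → ∃ NN ⊆ QQ, (∀ Q ∈ NN, ∀ Q' ∈ NN, Q ≠ Q' → Disjoint Q Q') ∧
      Pot QQ w TT θ M (bs D z t) (rs D z t) (ds D z δ t)
        (EE.filter (fun e => ∀ Q ∈ NN, e ∉ Q)) ≤ N := by
    intro t
    induction t with
    | zero =>
      intro _
      refine ⟨∅, Finset.empty_subset _, by simp, ?_⟩
      have h0 : EE.filter (fun e => ∀ Q ∈ (∅ : Finset (Finset E)), e ∉ Q) = EE := by simp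
      rw [h0]
      unfold Pot
      have hY : ∀ e ∈ EE, Y QQ w EE e = ∑ Q ∈ QQ.filter (fun Q => e ∈ Q), w Q := by
        intro e _
        unfold Y
        refine Finset.sum_congr (Finset.filter_congr fun Q hQ => ?_) fun _ _ => rfl
        exact ⟨fun h => h.2, fun h => ⟨hdata.sub Q hQ, h⟩⟩
      have h1 : ∑ e ∈ EE, (Real.exp (θ * (Y QQ w EE e / bs D z 0 - 1 - ds D z δ 0)) +
          Real.exp (θ * (1 - Y QQ w EE e / bs D z 0 - ds D z δ 0))) ≤ ∑ e ∈ EE, (2 : ℝ) := by
        refine Finset.sum_le_sum fun e he => ?_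
        have hlo := hdata.lo e he
        have hhi := hdata.hi e he
        rw [← hY e he] at hlo hhi
        have e1 : bs D z 0 = 1 := rfl
        have e2 : ds D z δ 0 = δ := rfl
        rw [e1, e2, div_one]
        have h2 : Real.exp (θ * (Y QQ w EE e - 1 - δ)) ≤ 1 := by
          rw [Real.exp_le_one_iff]
          exact mul_nonpos_of_nonneg_of_nonpos hθ0.le (by linarith)
        have h3 : Real.exp (θ * (1 - Y QQ w EE e - δ)) ≤ 1 := by
          rw [Real.exp_le_one_iff]
          exact mul_nonpos_of_nonneg_of_nonpos hθ0.le (by linarith)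
        linarith
      have h2 : ∑ S ∈ TT, Real.exp (θ * (((S ∩ EE).card : ℝ) / (M * rs D z 0) - 1)) ≤
          ∑ S ∈ TT, (1 : ℝ) := by
        refine Finset.sum_le_sum fun S hS => ?_
        have e1 : rs D z 0 = 1 := rfl
        rw [e1, mul_one, Real.exp_le_one_iff]
        refine mul_nonpos_of_nonneg_of_nonpos hθ0.le ?_
        have h3 : ((S ∩ EE).card : ℝ) ≤ M := by
          refine le_trans ?_ (hTT S hS).2
          exact_mod_cast Finset.card_le_card Finset.inter_subset_left
        have h4 : ((S ∩ EE).card : ℝ) / M ≤ 1 := by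
          rw [div_le_one hMpos]; exact h3
        linarith
      rw [Finset.sum_const, nsmul_eq_mul] at h1 h2
      rw [hN]
      linarith
    | succ t ih =>
      intro ht
      obtain ⟨NN, hNN, hdis, hpot⟩ := ih (by omega)
      set U : Finset E := EE.filter (fun e => ∀ Q ∈ NN, e ∉ Q) with hU
      have hUE : U ⊆ EE := Finset.filter_subset _ _
      obtain ⟨hb0, hb1⟩ := bs_pos hD hz hz8 t
      have hbl := bs_lower hD hz hz8 t
      obtain ⟨hr0, hr1⟩ := rs_pos hD hz hz8 t
      obtain ⟨hd0, hd1⟩ := ds_upper hD hz hz8 hδ t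
      have htT : z * (t : ℝ) ≤ τ := by
        rw [← hzT]
        refine mul_le_mul_of_nonneg_left ?_ hz.le
        exact_mod_cast (by omega : t ≤ T)
      have hzt : 0 ≤ z * (t : ℝ) := by positivity
      have hβb : β ≤ bs D z t := by
        refine le_trans ?_ hbl
        rw [hβdef]
        refine one_div_le_one_div_of_le ?_ ?_
        · have := mul_nonneg hD0 hzt
          nlinarith
        · have := mul_le_mul_of_nonneg_left htT hD0
          nlinarith
      have hρ0 : 0 < rs D z t := lt_of_lt_of_le (Real.exp_pos _) hr0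
      have hρτ : Real.exp (-τ) ≤ rs D z t := by
        refine le_trans ?_ hr0
        exact Real.exp_le_exp.2 (by linarith)
      have hband : ds D z δ t + δ ≤ 1 / 4 := by
        refine hd1.trans ?_
        have h1 : Real.exp (6 * ((D : ℝ) - 1) * (z * t)) ≤ Real.exp (6 * ((D : ℝ) - 1) * τ) :=
          Real.exp_le_exp.2 (mul_le_mul_of_nonneg_left htT (by positivity))
        calc 2 * δ * Real.exp (6 * ((D : ℝ) - 1) * (z * t))
            ≤ 2 * δ * Real.exp (6 * ((D : ℝ) - 1) * τ) :=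
              mul_le_mul_of_nonneg_left h1 (by positivity)
          _ = 1 / 4 * (Real.exp (-(6 * ((D : ℝ) - 1) * τ)) *
                Real.exp (6 * ((D : ℝ) - 1) * τ)) := by rw [hδdef]; ring
          _ = 1 / 4 := by rw [← Real.exp_add]; simp
      have hband2 : 2 * δ ≤ ds D z δ t + δ := by linarith
      have hzDb : z * ((D : ℝ) - 1) * bs D z t ≤ 1 / 8 := by
        have h1 : z * ((D : ℝ) - 1) * bs D z t ≤ z * ((D : ℝ) - 1) * 1 :=
          mul_le_mul_of_nonneg_left hb1 (mul_nonneg hz.le hD0)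
        linarith
      have hzb : z * bs D z t ≤ 1 / 8 := by
        have h1 : z * bs D z t ≤ z * 1 := mul_le_mul_of_nonneg_left hb1 hz.le
        linarith
      have hDk : (D : ℝ) * (θ * κ) ≤ δ * β := by
        refine le_trans ?_ hk
        refine mul_le_mul_of_nonneg_right ?_ hθκ
        nlinarith
      have hDk2 : (D : ℝ) ^ 2 * κ ≤ δ * β := by
        refine le_trans ?_ hk
        refine mul_le_mul_of_nonneg_left ?_ (by positivity)
        nlinarith
      have hstep : Step D θ M κ z (bs D z t) (rs D z t) (ds D z δ t) (ds D z δ t + δ) :=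
        { hD := hD
          hθ := hθ0
          hM := hMpos
          hκ := hκ
          hz := hz
          hb := hb0
          hρ := hρ0
          hδ := by linarith
          hδ' := hband
          ha := hzDb
          hzb := hzb
          hω := by
            have h1 : β * (7 / 8) ≤ bs D z t * (1 - z * ((D : ℝ) - 1) * bs D z t) :=
              mul_le_mul hβb (by linarith) (by norm_num) hb0.le
            have h2 : 2 * δ * (β * (7 / 8)) ≤ (ds D z δ t + δ) *
                (bs D z t * (1 - z * ((D : ℝ) - 1) * bs D z t)) :=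
              mul_le_mul hband2 h1 (by positivity) (by linarith)
            have h3 : 0 < δ * β := by positivity
            nlinarith
          hκ2 := by
            have h1 : 2 * δ * 1 * β ≤ (ds D z δ t + δ) * ((D : ℝ) - 1) * bs D z t :=
              mul_le_mul (mul_le_mul hband2 hD1 (by norm_num) (by linarith)) hβb hβ.le
                (mul_nonneg (by linarith) hD0)
            have h3 : 0 < δ * β := by positivity
            nlinarith
          hα := by
            have h1 : (1 : ℝ) / 2 ≤ 1 - z * bs D z t / 2 := by linarith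
            have h2 : Real.exp (-τ) * (1 / 2) ≤ rs D z t * (1 - z * bs D z t / 2) :=
              mul_le_mul hρτ h1 (by norm_num) hρ0.le
            have h3 : 8 * (D : ℝ) * Real.exp τ * θ * (Real.exp (-τ) * (1 / 2)) ≤
                M * (rs D z t * (1 - z * bs D z t / 2)) :=
              mul_le_mul hMA h2 (by positivity) hMpos.le
            have h4 : 8 * (D : ℝ) * Real.exp τ * θ * (Real.exp (-τ) * (1 / 2)) = 4 * (θ * D) := by
              have h5 : Real.exp τ * Real.exp (-τ) = 1 := by rw [← Real.exp_add]; simp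
              calc 8 * (D : ℝ) * Real.exp τ * θ * (Real.exp (-τ) * (1 / 2))
                  = 4 * (θ * D) * (Real.exp τ * Real.exp (-τ)) := by ring
                _ = 4 * (θ * D) := by rw [h5, mul_one]
            linarith }
      have hg : ∀ g ∈ U, |Y QQ w U g - bs D z t| ≤ (ds D z δ t + δ) * bs D z t :=
        fun g hg => N4_band hb0 hθ0 hpot hlog hg
      have hnext := pot_step hdata hstep hUE TT hzw hg
      have e1 : bs D z (t + 1) = bs D z t * (1 - z * ((D : ℝ) - 1) * bs D z t) := rfl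
      have e2 : rs D z (t + 1) = rs D z t * (1 - z * bs D z t / 2) := rfl
      have e3 : ds D z δ (t + 1) = ds D z δ t +
          6 * (z * ((D : ℝ) - 1) * bs D z t) * (ds D z δ t + δ) := rfl
      rw [← e1, ← e2, ← e3] at hnext
      rcases hnext with h | ⟨Q, hQ, hQU, h⟩
      · exact ⟨NN, hNN, hdis, h.trans hpot⟩
      · refine ⟨insert Q NN, Finset.insert_subset hQ hNN, ?_, ?_⟩
        · have hQd : ∀ Q' ∈ NN, Disjoint Q Q' := by
            intro Q' hQ'
            rw [Finset.disjoint_left]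
            intro e he he'
            have := (Finset.mem_filter.1 (hQU he)).2 Q' hQ'
            exact this he'
          intro Q₁ h₁ Q₂ h₂ hne
          rw [Finset.mem_insert] at h₁ h₂
          rcases h₁ with rfl | h₁
          · rcases h₂ with rfl | h₂
            · exact absurd rfl hne
            · exact hQd _ h₂
          · rcases h₂ with rfl | h₂
            · exact (hQd _ h₁).symm
            · exact hdis _ h₁ _ h₂ hne
        · have hUQ : EE.filter (fun e => ∀ Q' ∈ insert Q NN, e ∉ Q') = U \ Q := by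
            ext e
            simp only [hU, Finset.mem_filter, Finset.mem_sdiff, Finset.mem_insert,
              forall_eq_or_imp]
            tauto
          rw [hUQ]
          exact h.trans hpot
  obtain ⟨NN, hNN, hdis, hpot⟩ := claim T le_rfl
  refine ⟨NN, hNN, hdis, ?_⟩
  intro S hS
  have h1 := (N4_test (QQ := QQ) (w := w) (θ := θ) (M := M) (b := bs D z T) (ρ := rs D z T)
    (Δ := ds D z δ T) (U := EE.filter (fun e => ∀ Q ∈ NN, e ∉ Q)) hS).trans hpot
  have h2 := N4_log hθ0 h1 hlog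
  have hr := hrs z hz hz8 T hzT
  obtain ⟨hr0, hr1⟩ := rs_pos hD hz hz8 T
  have hρ0 : 0 < rs D z T := lt_of_lt_of_le (Real.exp_pos _) hr0
  have hδ1 : δ ≤ 1 := by
    have : Real.exp (-(6 * ((D : ℝ) - 1) * τ)) ≤ 1 := by
      rw [Real.exp_le_one_iff]
      have := mul_nonneg hD0 hτ.le
      nlinarith
    rw [hδdef]
    linarith
  have h3 : ((S ∩ EE.filter (fun e => ∀ Q ∈ NN, e ∉ Q)).card : ℝ) / (M * rs D z T) ≤ 2 := by
    linarith
  rw [div_le_iff₀ (by positivity)] at h3
  have h4 : S.filter (fun e => ∀ Q ∈ NN, e ∉ Q) =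
      S ∩ EE.filter (fun e => ∀ Q ∈ NN, e ∉ Q) := by
    ext e
    simp only [Finset.mem_filter, Finset.mem_inter]
    constructor
    · rintro ⟨a, b⟩
      exact ⟨a, (hTT S hS).1 a, b⟩
    · rintro ⟨a, _, b⟩
      exact ⟨a, b⟩
  rw [h4]
  refine h3.trans ?_
  have h5 : M * rs D z T ≤ M * (η / 2) := mul_le_mul_of_nonneg_left hr hMpos.le
  nlinarith

end MP5cN
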