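import Pool.Agent.Lib.MP_5c685b_co.N.HDefs
import Pool.Agent.Lib.MP_5c685b_co.Sec9

set_option autoImplicit false

/-!
# Nibble, row N6 (spread weights)
-/

namespace MP5cN

open Finset MP5cH
open Pool.Agent.Lib.MP_5c685b_co (GS Nb FC1_count bad_count)

/-! ## Transport from a subset -/

private theorem n6_sub_map {V : Type} [DecidableEq V] (S : Finset V) (t : Finset {x // x ∈ S}) :
    (t.map (Function.Embedding.subtype _)).subtype (fun x => x ∈ S) = t := by
  ext ⟨x, hx⟩
  simp [hx]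

private theorem n6_map_sub {V : Type} [DecidableEq V] (S : Finset V) {t : Finset V} (h : t ⊆ S) :
    (t.subtype (fun x => x ∈ S)).map (Function.Embedding.subtype _) = t := by
  ext x
  simp only [mem_map, mem_subtype, Function.Embedding.subtype_apply, Subtype.exists,
    exists_and_right, exists_eq_right]
  exact ⟨fun ⟨_, h⟩ => h, fun hx => ⟨h hx, hx⟩⟩

private theorem n6_rel {V : Type} [Fintype V] [DecidableEq V] {r : ℕ} {S : Finset V}
    {G : Finset (Finset V)}
    (h : ∃ w : Finset {x // x ∈ S} → ℝ, (∀ Q, 0 ≤ w Q) ∧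
      (∀ Q, w Q ≠ 0 → Q.card = r ∧ tri Q ⊆ GS G S) ∧
        ∀ e ∈ GS G S, ∑ Q ∈ univ.filter (fun Q => e ⊆ Q), w Q = 1) :
    ∃ w : Finset V → ℝ, (∀ Q, 0 ≤ w Q) ∧
      (∀ Q, w Q ≠ 0 → Q ⊆ S ∧ Q.card = r ∧ tri Q ⊆ G) ∧
      ∀ e ∈ G, e ⊆ S → ∑ Q ∈ univ.filter (fun Q => e ⊆ Q), w Q = 1 := by
  obtain ⟨P', h0, h1, h2⟩ := h
  refine ⟨fun J => if J ⊆ S then P' (J.subtype (fun x => x ∈ S)) else 0,
    fun J => ?_, fun J hJ => ?_, fun e he heS => ?_⟩
  · simp only
    split_ifs
    · exact h0 _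
    · exact le_refl _
  · simp only [ne_eq, ite_eq_right_iff, Classical.not_imp] at hJ
    obtain ⟨hJS, hP⟩ := hJ
    obtain ⟨hcard, hcl⟩ := h1 _ hP
    set J' : Finset {x // x ∈ S} := J.subtype (fun x => x ∈ S) with hJ'
    have hJeq : J'.map (Function.Embedding.subtype _) = J := n6_map_sub S hJS
    refine ⟨hJS, ?_, ?_⟩
    · rw [← hJeq, card_map]
      exact hcard
    · intro e he
      rw [tri, mem_powersetCard] at he
      have heS : e ⊆ S := he.1.trans hJS
      have h3 : e.subtype (fun x => x ∈ S) ∈ GS G S := by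
        apply hcl
        rw [tri, mem_powersetCard]
        refine ⟨?_, ?_⟩
        · intro x hx
          rw [mem_subtype] at hx
          rw [hJ', mem_subtype]
          exact he.1 hx
        · rw [← card_map (Function.Embedding.subtype _), n6_map_sub S heS]
          exact he.2
      rw [GS, mem_filter, n6_map_sub S heS] at h3
      exact h3.2
  · have h3 := h2 (e.subtype (fun x => x ∈ S)) (by
      rw [GS, mem_filter, n6_map_sub S heS]
      exact ⟨mem_univ _, he⟩)
    rw [← h3]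
    rw [← sum_filter]
    symm
    refine sum_nbij' (fun J => J.map (Function.Embedding.subtype _))
      (fun J => J.subtype (fun x => x ∈ S)) ?_ ?_ ?_ ?_ ?_
    · intro J hJ
      rw [mem_filter] at hJ
      rw [mem_filter, mem_filter]
      refine ⟨⟨mem_univ _, ?_⟩, ?_⟩
      · have := map_subset_map (f := Function.Embedding.subtype _).2 hJ.2
        rwa [n6_map_sub S heS] at this
      · intro x hx
        rw [mem_map] at hx
        obtain ⟨y, _, rfl⟩ := hx
        exact y.2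
    · intro J hJ
      rw [mem_filter, mem_filter] at hJ
      rw [mem_filter]
      refine ⟨mem_univ _, ?_⟩
      intro x hx
      rw [mem_subtype] at hx ⊢
      exact hJ.1.2 hx
    · intro J _
      exact n6_sub_map S J
    · intro J hJ
      rw [mem_filter] at hJ
      exact n6_map_sub S hJ.2
    · intro J _
      rw [n6_sub_map]

/-! ## Counting -/

private theorem n6_ratio (j : ℕ) : ∀ N M : ℕ, j ≤ M → M ≤ N →
    (((N - j).choose (M - j) : ℕ) : ℝ) ≤ (N.choose M : ℝ) * ((M : ℝ) / N) ^ j := by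
  induction j with
  | zero => intro N M _ _; simp
  | succ j ih =>
    intro N M hj hM
    obtain ⟨M', rfl⟩ : ∃ M', M = M' + 1 := ⟨M - 1, by omega⟩
    obtain ⟨N', rfl⟩ : ∃ N', N = N' + 1 := ⟨N - 1, by omega⟩
    have h1 := ih N' M' (by omega) (by omega)
    have e1 : N' + 1 - (j + 1) = N' - j := by omega
    have e2 : M' + 1 - (j + 1) = M' - j := by omega
    rw [e1, e2]
    have hN0 : (0 : ℝ) < ((N' + 1 : ℕ) : ℝ) := by positivity
    have h2 : (N'.choose M' : ℝ) = ((N' + 1).choose (M' + 1) : ℝ) *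
        (((M' + 1 : ℕ) : ℝ) / ((N' + 1 : ℕ) : ℝ)) := by
      have h3 := Nat.add_one_mul_choose_eq N' M'
      have h4 : (((N' + 1 : ℕ) : ℝ)) * (N'.choose M' : ℝ) =
          ((N' + 1).choose (M' + 1) : ℝ) * ((M' + 1 : ℕ) : ℝ) := by
        exact_mod_cast h3
      field_simp
      linarith
    have h5 : ((M' : ℝ) / N') ≤ (((M' + 1 : ℕ) : ℝ) / ((N' + 1 : ℕ) : ℝ)) := by
      rcases Nat.eq_zero_or_pos N' with h0 | h0
      · subst h0
        simp only [Nat.cast_zero, div_zero]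
        positivity
      · have h0' : (0 : ℝ) < (N' : ℝ) := by exact_mod_cast h0
        rw [div_le_div_iff₀ h0' hN0]
        have : (M' : ℝ) ≤ N' := by exact_mod_cast (by omega : M' ≤ N')
        push_cast
        nlinarith
    calc (((N' - j).choose (M' - j) : ℕ) : ℝ) ≤ (N'.choose M' : ℝ) * ((M' : ℝ) / N') ^ j := h1
      _ ≤ (((N' + 1).choose (M' + 1) : ℝ) * (((M' + 1 : ℕ) : ℝ) / ((N' + 1 : ℕ) : ℝ))) *
            (((M' + 1 : ℕ) : ℝ) / ((N' + 1 : ℕ) : ℝ)) ^ j := by
          rw [← h2]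
          gcongr
      _ = ((N' + 1).choose (M' + 1) : ℝ) * (((M' + 1 : ℕ) : ℝ) / ((N' + 1 : ℕ) : ℝ)) ^ (j + 1) := by
          rw [pow_succ]
          ring

/-- number of the `m`-sets that contain `U` -/
private theorem n6_count {V : Type} [Fintype V] [DecidableEq V] {m : ℕ} (hm : 3 ≤ m)
    (hmn : m ≤ Fintype.card V) {U : Finset V} {j : ℕ} (hU : U.card = 3 + j) :
    (((univ.powersetCard m).filter (fun S : Finset V => U ⊆ S)).card : ℝ) ≤
      ((Fintype.card V - 3).choose (m - 3) : ℝ) *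
        (((m - 3 : ℕ) : ℝ) / ((Fintype.card V - 3 : ℕ) : ℝ)) ^ j := by
  rcases le_or_gt (3 + j) m with h | h
  · have h1 : ((univ.powersetCard m).filter (fun S : Finset V => U ⊆ S)).card =
        (Fintype.card V - (3 + j)).choose (m - (3 + j)) := by
      have := FC1_count (V := V) h (subset_univ U) hU
      rw [card_univ] at this
      convert this
    rw [h1]
    have h2 := n6_ratio j (Fintype.card V - 3) (m - 3) (by omega) (by omega)
    have e1 : Fintype.card V - 3 - j = Fintype.card V - (3 + j) := by omega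
    have e2 : m - 3 - j = m - (3 + j) := by omega
    rw [e1, e2] at h2
    exact h2
  · have h1 : (univ.powersetCard m).filter (fun S : Finset V => U ⊆ S) = ∅ := by
      rw [filter_eq_empty_iff]
      intro S hS hUS
      have := card_le_card hUS
      rw [(mem_powersetCard.1 hS).2] at this
      omega
    rw [h1, card_empty, Nat.cast_zero]
    positivity

/-! ## The choice of `m` -/

private theorem n6_exists_m (n₀ : ℕ) {ρ : ℝ} (hρ : 0 < ρ) {δ : ℝ} (hδ : 0 < δ) :
    ∃ m : ℕ, n₀ ≤ m ∧ 3 ≤ m ∧ 3 ≤ ρ * m ∧ (m : ℝ) ^ 2 * Real.exp (8 - ρ * m) ≤ δ := by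
  have h1 : Filter.Tendsto (fun m : ℕ => ρ * (m : ℝ)) Filter.atTop Filter.atTop :=
    Filter.Tendsto.const_mul_atTop hρ tendsto_natCast_atTop_atTop
  have h2 := (Real.tendsto_pow_mul_exp_neg_atTop_nhds_zero 2).comp h1
  have h3 : ∀ᶠ m : ℕ in Filter.atTop,
      (ρ * (m : ℝ)) ^ 2 * Real.exp (-(ρ * (m : ℝ))) < δ * ρ ^ 2 * Real.exp (-8) :=
    h2.eventually_lt_const (by positivity)
  have h4 : ∀ᶠ m : ℕ in Filter.atTop, (3 : ℝ) ≤ ρ * (m : ℝ) := h1.eventually_ge_atTop 3
  obtain ⟨m, hm⟩ := (h3.and (h4.and ((Filter.eventually_ge_atTop n₀).and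
    (Filter.eventually_ge_atTop 3)))).exists
  obtain ⟨ha, hb, hc, hd⟩ := hm
  refine ⟨m, hc, hd, hb, ?_⟩
  have e1 : Real.exp (8 - ρ * m) = Real.exp (-(ρ * m)) * Real.exp 8 := by
    rw [← Real.exp_add]
    ring_nf
  have e2 : Real.exp (-8) * Real.exp 8 = 1 := by
    rw [← Real.exp_add]
    norm_num
  have e3 : ρ ^ 2 * ((m : ℝ) ^ 2 * Real.exp (8 - ρ * m)) ≤ ρ ^ 2 * δ := by
    calc ρ ^ 2 * ((m : ℝ) ^ 2 * Real.exp (8 - ρ * m))
        = ((ρ * (m : ℝ)) ^ 2 * Real.exp (-(ρ * (m : ℝ)))) * Real.exp 8 := by rw [e1]; ring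
      _ ≤ (δ * ρ ^ 2 * Real.exp (-8)) * Real.exp 8 := by gcongr
      _ = ρ ^ 2 * δ := by
          rw [mul_assoc, e2]
          ring
  exact le_of_mul_le_mul_left e3 (by positivity)

private theorem n6_tail {ρ : ℝ} (hρ : 0 < ρ) {m : ℕ} (hρm : 3 ≤ ρ * m) {k : ℕ}
    (hk : k = ⌊ρ * (m : ℝ)⌋₊ - 3) :
    (ρ / 10 * m) ^ k / (k.factorial : ℝ) ≤ Real.exp (8 - ρ * m) := by
  have hx0 : 0 ≤ ρ * (m : ℝ) := by linarith
  have hfl2 : ρ * (m : ℝ) < (⌊ρ * (m : ℝ)⌋₊ : ℝ) + 1 := Nat.lt_floor_add_one _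
  have hfl3 : 3 ≤ ⌊ρ * (m : ℝ)⌋₊ := by
    apply Nat.le_floor
    push_cast
    exact hρm
  have hkR : (k : ℝ) = (⌊ρ * (m : ℝ)⌋₊ : ℝ) - 3 := by
    rw [hk, Nat.cast_sub hfl3]
    norm_num
  have hk4 : ρ * m - 4 ≤ k := by
    rw [hkR]
    linarith
  have h1 := Real.pow_div_factorial_le_exp (ρ * m) hx0 k
  have h2 : (ρ / 10 * m) ^ k / (k.factorial : ℝ) = ((ρ * m) ^ k / (k.factorial : ℝ)) / 10 ^ k := by
    rw [show ρ / 10 * (m : ℝ) = (ρ * m) / 10 by ring, div_pow]
    ring
  have h3 : Real.exp (2 * (k : ℝ)) ≤ 10 ^ k := by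
    have h5 : Real.exp (2 : ℝ) ≤ 10 := by
      have h6 : Real.exp 1 ≤ 2.7182818286 := Real.exp_one_lt_d9.le
      have h0 : 0 < Real.exp 1 := Real.exp_pos 1
      rw [show (2 : ℝ) = 1 + 1 by norm_num, Real.exp_add]
      calc Real.exp 1 * Real.exp 1 ≤ 2.7182818286 * 2.7182818286 := by gcongr
        _ ≤ 10 := by norm_num
    calc Real.exp (2 * (k : ℝ)) = Real.exp 2 ^ k := by
          rw [← Real.exp_nat_mul]
          ring_nf
      _ ≤ 10 ^ k := by gcongr
  rw [h2]
  calc ((ρ * m) ^ k / (k.factorial : ℝ)) / 10 ^ k ≤ Real.exp (ρ * m) / Real.exp (2 * (k : ℝ)) := by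
        gcongr
    _ = Real.exp (ρ * m - 2 * k) := by rw [← Real.exp_sub]
    _ ≤ Real.exp (8 - ρ * m) := by
        apply Real.exp_le_exp.2
        linarith

/-- N6: weights with total in `[1 - δ, 1]` at every edge and with weights at most `K / n^(r-3)`. -/
theorem weights {r : ℕ} (hr : 4 ≤ r) {ρ : ℝ} (hρ : 0 < ρ) (hF : Frac r ρ) {δ : ℝ} (hδ : 0 < δ) :
    ∃ K : ℝ, 0 < K ∧ ∃ n₁ : ℕ, ∀ (V : Type) [Fintype V] [DecidableEq V], n₁ ≤ Fintype.card V →
    ∀ G : Finset (Finset V), (∀ e ∈ G, e.card = 3) →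
      (∀ a b : V, a ≠ b → ((Nbd G a b).card : ℝ) ≤ ρ / 10 * Fintype.card V) →
      ∃ w : Finset V → ℝ, (∀ Q, 0 ≤ w Q) ∧ (∀ Q, w Q ≠ 0 → Q.card = r ∧ tri Q ⊆ G) ∧
        (∀ e ∈ G, 1 - δ ≤ ∑ Q ∈ univ.filter (fun Q => e ⊆ Q), w Q) ∧
        (∀ e ∈ G, ∑ Q ∈ univ.filter (fun Q => e ⊆ Q), w Q ≤ 1) ∧
        ∀ Q, w Q ≤ K / (Fintype.card V : ℝ) ^ (r - 3) := by
  obtain ⟨n₀, hF⟩ := hF
  obtain ⟨m, hmn0, hm3, hρm, hmδ⟩ := n6_exists_m n₀ hρ hδ
  have hm0 : (0 : ℝ) < (m : ℝ) := by exact_mod_cast (by omega : 0 < m)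
  refine ⟨(2 * (m : ℝ)) ^ (r - 3), by positivity, max m 6, ?_⟩
  intro V _ _ hcard G hG hN
  have hmn : m ≤ Fintype.card V := (le_max_left _ _).trans hcard
  have hn6 : 6 ≤ Fintype.card V := (le_max_right _ _).trans hcard
  -- the good sets
  set good : Finset V → Prop := fun S => ∀ a ∈ S, ∀ b ∈ S, a ≠ b →
    ((S ∩ Nb G a b).card : ℝ) ≤ ρ * m with hgood
  have : DecidablePred good := Classical.decPred _
  set k : ℕ := ⌊ρ * (m : ℝ)⌋₊ - 3 with hk
  have hfl3 : 3 ≤ ⌊ρ * (m : ℝ)⌋₊ := by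
    apply Nat.le_floor
    push_cast
    exact hρm
  have hgood' : ∀ S : Finset V, ¬ good S →
      ∃ a ∈ S, ∃ b ∈ S, a ≠ b ∧ k + 3 ≤ (S ∩ Nb G a b).card := by
    intro S hS
    rw [hgood] at hS
    push Not at hS
    obtain ⟨a, ha, b, hb, hab, hlt⟩ := hS
    refine ⟨a, ha, b, hb, hab, ?_⟩
    have h1 : ⌊ρ * (m : ℝ)⌋₊ < (S ∩ Nb G a b).card := by
      rw [Nat.floor_lt (by positivity)]
      exact hlt
    omega
  set N0 : ℝ := ((Fintype.card V - 3).choose (m - 3) : ℝ) with hN0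
  have hN0pos : 0 < N0 := by
    rw [hN0]
    exact_mod_cast Nat.choose_pos (by omega)
  have hbad : ∀ e ∈ G,
      (((univ.powersetCard m).filter (fun S : Finset V => e ⊆ S ∧ ¬ good S)).card : ℝ) ≤
        N0 * δ := by
    intro e he
    have h1 := bad_count (V := V) (k := k) (ε := ρ / 10) hm3 hmn (by omega) (by positivity) hN
      (hG e he) good hgood'
    refine h1.trans ?_
    refine mul_le_mul_of_nonneg_left ?_ hN0pos.le
    refine le_trans ?_ hmδ
    exact mul_le_mul_of_nonneg_left (n6_tail hρ hρm hk) (by positivity)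
  set GD : Finset (Finset V) := ((univ : Finset V).powersetCard m).filter good with hGD
  have hW : ∀ S ∈ GD, ∃ w : Finset V → ℝ, (∀ Q, 0 ≤ w Q) ∧
      (∀ Q, w Q ≠ 0 → Q ⊆ S ∧ Q.card = r ∧ tri Q ⊆ G) ∧
      ∀ e ∈ G, e ⊆ S → ∑ Q ∈ univ.filter (fun Q => e ⊆ Q), w Q = 1 := by
    intro S hS
    rw [hGD, mem_filter] at hS
    obtain ⟨hSm, hgS⟩ := hS
    have hScard : S.card = m := (mem_powersetCard.1 hSm).2
    refine n6_rel (hF {x // x ∈ S} (by rw [Fintype.card_coe, hScard]; exact hmn0) (GS G S) ?_ ?_)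
    · intro e he
      rw [GS, mem_filter] at he
      have := hG _ he.2
      rwa [card_map] at this
    · intro a b hab
      have h1 := hgS a.1 a.2 b.1 b.2 (fun h => hab (Subtype.ext h))
      have h2 : (Nbd (GS G S) a b).card ≤ (S ∩ Nb G a.1 b.1).card := by
        rw [← card_map (Function.Embedding.subtype _)]
        apply card_le_card
        intro x hx
        rw [mem_map] at hx
        obtain ⟨v, hv, rfl⟩ := hx
        rw [Nbd, mem_filter] at hv
        obtain ⟨_, hva, hvb, hvG⟩ := hv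
        rw [mem_inter, Nb, mem_filter]
        refine ⟨v.2, mem_univ _, fun h => hva (Subtype.ext h), fun h => hvb (Subtype.ext h),
          fun h => hvG ?_⟩
        rw [GS, mem_filter]
        refine ⟨mem_univ _, ?_⟩
        rw [map_insert, map_insert, map_singleton]
        exact h
      rw [Fintype.card_coe, hScard]
      refine le_trans ?_ h1
      exact_mod_cast h2
  choose! W hW0 hW1 hW2 using hW
  -- the sum at one edge
  have hNesum : ∀ e ∈ G, ((GD.filter (fun S => e ⊆ S)).card : ℝ) + (((univ.powersetCard m).filter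
      (fun S : Finset V => e ⊆ S ∧ ¬ good S)).card : ℝ) = N0 := by
    intro e he
    have h1 : ((univ.powersetCard m).filter (fun S : Finset V => e ⊆ S)).card =
        (Fintype.card V - 3).choose (m - 3) := by
      have := FC1_count (V := V) hm3 (subset_univ e) (hG e he)
      rw [card_univ] at this
      convert this
    have h2 : (GD.filter (fun S => e ⊆ S)).card + ((univ.powersetCard m).filter
        (fun S : Finset V => e ⊆ S ∧ ¬ good S)).card =
        ((univ.powersetCard m).filter (fun S : Finset V => e ⊆ S)).card := by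
      have e1 : GD.filter (fun S => e ⊆ S) =
          ((univ.powersetCard m).filter (fun S : Finset V => e ⊆ S)).filter good := by
        ext S
        simp only [hGD, mem_filter]
        tauto
      have e2 : (univ.powersetCard m).filter (fun S : Finset V => e ⊆ S ∧ ¬ good S) =
          ((univ.powersetCard m).filter (fun S : Finset V => e ⊆ S)).filter (fun S => ¬ good S) := by
        ext S
        simp only [mem_filter]
        tauto
      rw [e1, e2]
      exact card_filter_add_card_filter_not _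
    rw [hN0, ← h1, ← h2]
    push_cast
    rfl
  have hsum : ∀ e ∈ G, ∑ Q ∈ univ.filter (fun Q => e ⊆ Q), (∑ S ∈ GD, W S Q) / N0 =
      ((GD.filter (fun S => e ⊆ S)).card : ℝ) / N0 := by
    intro e he
    rw [← sum_div]
    congr 1
    rw [sum_comm]
    have h2 : ∀ S ∈ GD, ∑ Q ∈ univ.filter (fun Q => e ⊆ Q), W S Q = if e ⊆ S then 1 else 0 := by
      intro S hS
      split_ifs with heS
      · exact hW2 S hS e he heS
      · refine sum_eq_zero fun J hJ => ?_
        by_contra hne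
        exact heS ((mem_filter.1 hJ).2.trans (hW1 S hS J hne).1)
    rw [sum_congr rfl h2, ← sum_filter, sum_const, nsmul_eq_mul, mul_one]
  refine ⟨fun Q => (∑ S ∈ GD, W S Q) / N0, fun Q => ?_, fun Q hQ => ?_, fun e he => ?_,
    fun e he => ?_, fun Q => ?_⟩
  · exact div_nonneg (sum_nonneg fun S hS => hW0 S hS Q) hN0pos.le
  · have h1 : ∑ S ∈ GD, W S Q ≠ 0 := by
      intro h
      apply hQ
      simp only [h, zero_div]
    obtain ⟨S, hS, hne⟩ := exists_ne_zero_of_sum_ne_zero h1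
    exact (hW1 S hS Q hne).2
  · rw [hsum e he, le_div_iff₀ hN0pos]
    have h1 := hNesum e he
    have h2 := hbad e he
    linarith
  · rw [hsum e he, div_le_one hN0pos]
    have h1 := hNesum e he
    have h2 : (0 : ℝ) ≤ (((univ.powersetCard m).filter
      (fun S : Finset V => e ⊆ S ∧ ¬ good S)).card : ℝ) := Nat.cast_nonneg _
    linarith
  · -- each weight is small
    have hn0 : (0 : ℝ) < (Fintype.card V : ℝ) := by exact_mod_cast (by omega : 0 < Fintype.card V)
    by_cases hQ : Q.card = r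
    · have hle1 : ∀ S ∈ GD, W S Q ≤ if Q ⊆ S then 1 else 0 := by
        intro S hS
        by_cases hne : W S Q = 0
        · rw [hne]
          split_ifs <;> norm_num
        · obtain ⟨hQS, hQr, hQG⟩ := hW1 S hS Q hne
          rw [if_pos hQS]
          obtain ⟨e, heQ, hec⟩ := exists_subset_card_eq (s := Q) (n := 3) (by omega)
          have heG : e ∈ G := hQG (by rw [tri, mem_powersetCard]; exact ⟨heQ, hec⟩)
          rw [← hW2 S hS e heG (heQ.trans hQS)]
          exact single_le_sum (f := fun Q => W S Q) (fun Q _ => hW0 S hS Q)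
            (mem_filter.2 ⟨mem_univ _, heQ⟩)
      have h1 : ∑ S ∈ GD, W S Q ≤
          (((univ.powersetCard m).filter (fun S : Finset V => Q ⊆ S)).card : ℝ) := by
        refine (sum_le_sum hle1).trans ?_
        rw [← sum_filter, sum_const, nsmul_eq_mul, mul_one]
        exact_mod_cast card_le_card (filter_subset_filter _ (filter_subset _ _))
      have h2 := n6_count (V := V) hm3 hmn (U := Q) (j := r - 3) (by omega)
      have h3 : (((m - 3 : ℕ) : ℝ) / ((Fintype.card V - 3 : ℕ) : ℝ)) ≤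
          2 * (m : ℝ) / (Fintype.card V : ℝ) := by
        have h5 : (0 : ℝ) < ((Fintype.card V - 3 : ℕ) : ℝ) := by
          exact_mod_cast (by omega : 0 < Fintype.card V - 3)
        rw [div_le_div_iff₀ h5 hn0]
        have h6 : ((m - 3 : ℕ) : ℝ) ≤ (m : ℝ) := by exact_mod_cast (by omega : m - 3 ≤ m)
        have h7 : (Fintype.card V : ℝ) ≤ 2 * ((Fintype.card V - 3 : ℕ) : ℝ) := by
          exact_mod_cast (by omega : Fintype.card V ≤ 2 * (Fintype.card V - 3))
        calc ((m - 3 : ℕ) : ℝ) * (Fintype.card V : ℝ)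
            ≤ (m : ℝ) * (2 * ((Fintype.card V - 3 : ℕ) : ℝ)) := by gcongr
          _ = 2 * (m : ℝ) * ((Fintype.card V - 3 : ℕ) : ℝ) := by ring
      show (∑ S ∈ GD, W S Q) / N0 ≤ _
      rw [div_le_iff₀ hN0pos]
      calc ∑ S ∈ GD, W S Q
          ≤ N0 * (((m - 3 : ℕ) : ℝ) / ((Fintype.card V - 3 : ℕ) : ℝ)) ^ (r - 3) := h1.trans h2
        _ ≤ N0 * (2 * (m : ℝ) / (Fintype.card V : ℝ)) ^ (r - 3) := by gcongr
        _ = (2 * (m : ℝ)) ^ (r - 3) / (Fintype.card V : ℝ) ^ (r - 3) * N0 := by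
            rw [div_pow]
            ring
    · have h1 : ∑ S ∈ GD, W S Q = 0 := by
        refine sum_eq_zero fun S hS => ?_
        by_contra hne
        exact hQ (hW1 S hS Q hne).2.1
      show (∑ S ∈ GD, W S Q) / N0 ≤ _
      rw [h1, zero_div]
      positivity

end MP5cN
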