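import Pool.Agent.Lib.MP_5c685b_co.N.HDefs
import Pool.Agent.Lib.MP_5c685b_co.Sec9
import Pool.Agent.Lib.MP_5c685b_co.N.N6

set_option autoImplicit false

/-!
# Nibble, row N5 (black box in terms of non-neighbours)
-/

namespace MP5cN

open Finset MP5cH

theorem N5_card {V : Type} [Fintype V] [DecidableEq V] (G : Finset (Finset V)) {a b : V}
    (hab : a ≠ b) : (Pbd G a b).card + (Nbd G a b).card + 2 = Fintype.card V := by
  have h1 : Pbd G a b ∪ Nbd G a b = univ \ {a, b} := by
    ext v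
    simp only [Pbd, Nbd, mem_union, mem_filter, mem_univ, true_and, mem_sdiff, mem_insert,
      mem_singleton]
    tauto
  have h2 : Disjoint (Pbd G a b) (Nbd G a b) := by
    rw [disjoint_left]
    intro v hv hv'
    exact (mem_filter.1 hv').2.2.2 (mem_filter.1 hv).2.2.2
  have h3 := card_sdiff_add_card_eq_card (subset_univ ({a, b} : Finset V))
  rw [← h1, card_union_of_disjoint h2, card_pair hab, card_univ] at h3
  exact h3

/-- transport of a function on the sets of `V` to the sets of `Fin n` -/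
theorem N5_transport {V : Type} [Fintype V] [DecidableEq V] {n r n₀ : ℕ} (hn : Fintype.card V = n)
    (hn0 : n₀ ≤ n) {ρ : ℝ} (hρ : 2 ≤ ρ * n)
    (hcore : ∀ n : ℕ, n₀ ≤ n →
      ∀ G : Finset (Finset (Fin n)), (∀ e ∈ G, e.card = 3) →
      (∀ A : Finset (Fin n), A.card = 2 →
        (1 - 2 * ρ) * (n : ℝ) ≤ ((G.filter (fun e => A ⊆ e)).card : ℝ)) →
      ∀ y : Finset (Fin n) → ℝ,
        (∀ K : Finset (Fin n), K.card = r → MP5c68.Cl G K → 0 ≤ MP5c68.tot y K) →
        0 ≤ ∑ e ∈ G, y e)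
    {G : Finset (Finset V)} (hG : ∀ e ∈ G, e.card = 3)
    (hcod : ∀ a b : V, a ≠ b → ((Nbd G a b).card : ℝ) ≤ ρ * n)
    (y : Finset V → ℝ)
    (hy : ∀ K : Finset V, K.card = r → MP5c68.Cl G K → 0 ≤ MP5c68.tot y K) :
    0 ≤ ∑ e ∈ G, y e := by
  classical
  let φ : V ≃ Fin n := Fintype.equivFinOfCardEq hn
  let ψ : Finset V ≃ Finset (Fin n) := φ.finsetCongr
  have hψ : ∀ S : Finset V, ψ S = S.map φ.toEmbedding := fun S => rfl
  have hψc : ∀ S : Finset V, (ψ S).card = S.card := fun S => by rw [hψ, card_map]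
  have hψm : ∀ S T : Finset V, ψ S ⊆ ψ T ↔ S ⊆ T := fun S T => by
    rw [hψ, hψ, map_subset_map]
  have hmem : ∀ S : Finset V, ψ S ∈ G.map ψ.toEmbedding ↔ S ∈ G := fun S => by
    rw [mem_map]
    constructor
    · rintro ⟨T, hT, hTS⟩
      have : T = S := ψ.injective hTS
      rwa [← this]
    · intro h
      exact ⟨S, h, rfl⟩
  have key := hcore n hn0 (G.map ψ.toEmbedding) ?_ ?_ (fun s => y (ψ.symm s)) ?_
  · rw [sum_map] at key
    refine key.trans (le_of_eq (sum_congr rfl fun e _ => ?_))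
    simp
  · intro e he
    obtain ⟨s, hs, rfl⟩ := mem_map.1 he
    exact (hψc s).trans (hG s hs)
  · intro A hA
    obtain ⟨a', b', hab', rfl⟩ := card_eq_two.1 hA
    obtain ⟨a, rfl⟩ := φ.surjective a'
    obtain ⟨b, rfl⟩ := φ.surjective b'
    have hab : a ≠ b := fun h => hab' (by rw [h])
    have h1 : (Pbd G a b).card ≤
        ((G.map ψ.toEmbedding).filter (fun e => {φ a, φ b} ⊆ e)).card := by
      refine card_le_card_of_injOn (fun v => ψ {a, b, v}) ?_ ?_
      · intro v hv
        obtain ⟨_, h1, h2, h3⟩ := mem_filter.1 (mem_coe.1 hv)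
        refine mem_coe.2 (mem_filter.2 ⟨(hmem _).2 h3, ?_⟩)
        have h4 : ψ {a, b} = {φ a, φ b} := by
          rw [hψ]
          ext x
          simp [eq_comm]
        rw [← h4, hψm]
        intro x hx
        rw [mem_insert, mem_singleton] at hx
        rcases hx with rfl | rfl <;> simp
      · intro v hv v' hv' h
        obtain ⟨_, h1, h2, h3⟩ := mem_filter.1 (mem_coe.1 hv)
        have h4 : ({a, b, v} : Finset V) = {a, b, v'} := ψ.injective h
        have h5 : v ∈ ({a, b, v'} : Finset V) := by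
          rw [← h4]; simp
        rw [mem_insert, mem_insert, mem_singleton] at h5
        rcases h5 with h5 | h5 | h5
        · exact absurd h5 h1
        · exact absurd h5 h2
        · exact h5
    have h2 := N5_card G hab
    have h3 := hcod a b hab
    have h4 : ((Pbd G a b).card : ℝ) + (Nbd G a b).card + 2 = n := by
      rw [← hn]
      exact_mod_cast h2
    have h5 : ((Pbd G a b).card : ℝ) ≤
        (((G.map ψ.toEmbedding).filter (fun e => {φ a, φ b} ⊆ e)).card : ℝ) := by
      exact_mod_cast h1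
    linarith
  · intro K' hK' hcl
    obtain ⟨K, rfl⟩ := ψ.surjective K'
    have h1 : MP5c68.tot (fun s => y (ψ.symm s)) (ψ K) = MP5c68.tot y K := by
      unfold MP5c68.tot
      rw [hψ, powersetCard_map, sum_map]
      refine sum_congr rfl fun T _ => ?_
      have : (mapEmbedding φ.toEmbedding).toEmbedding T = ψ T := rfl
      rw [this, Equiv.symm_apply_apply]
    rw [h1]
    refine hy K (by rw [← hK', hψc]) fun e he hec => ?_
    exact (hmem e).1 (hcl (ψ e) ((hψm e K).2 he) (by rw [hψc, hec]))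

/-- N5: from the core theorem (and linear duality) to the black box with non-neighbours. -/
theorem frac_all : ∃ c : ℝ, 0 < c ∧ ∃ r₀ : ℕ, 4 ≤ r₀ ∧ ∀ r : ℕ, r₀ ≤ r →
    Pool.Agent.Lib.MP_5c685b_co.FinThm → Frac r (c * Real.log r / (r : ℝ) ^ 2) := by
  by_cases hF : Pool.Agent.Lib.MP_5c685b_co.FinThm
  · obtain ⟨c1, hc1, r₀, hcore⟩ := Pool.Agent.Lib.MP_5c685b_co.core_of_fin hF
    refine ⟨c1 / 2, by positivity, max r₀ 4, le_max_right _ _, fun r hr _ => ?_⟩
    obtain ⟨n₀, hn₀⟩ := hcore r ((le_max_left _ _).trans hr)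
    have hr4 : 4 ≤ r := (le_max_right _ _).trans hr
    have hlog : 0 < Real.log r := Real.log_pos (by exact_mod_cast (by omega : 1 < r))
    have hr0 : (0 : ℝ) < r := by exact_mod_cast (by omega : 0 < r)
    set ρ : ℝ := c1 / 2 * Real.log r / (r : ℝ) ^ 2 with hρdef
    have hρ : 0 < ρ := by positivity
    have hρ2 : c1 * Real.log r / (r : ℝ) ^ 2 = 2 * ρ := by rw [hρdef]; ring
    rw [hρ2] at hn₀
    refine ⟨max n₀ ⌈2 / ρ⌉₊, ?_⟩
    intro V _ _ hV G hG hcod
    have hV0 : n₀ ≤ Fintype.card V := (le_max_left _ _).trans hV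
    have hV2 : 2 ≤ ρ * (Fintype.card V : ℝ) := by
      have h1 : (2 / ρ : ℝ) ≤ Fintype.card V :=
        (Nat.le_ceil _).trans (by exact_mod_cast (le_max_right _ _).trans hV)
      rw [div_le_iff₀ hρ] at h1
      linarith
    obtain ⟨w, h0, h1, h2⟩ := Pool.Agent.Lib.MP_5c685b_co.hasFrac_of_dual (r := r) (by omega) hG
      (fun y hy => N5_transport rfl hV0 hV2 hn₀ hG hcod y hy)
    refine ⟨w, h0, fun Q hQ => ⟨(h1 Q hQ).1, fun e he => ?_⟩, fun e he => ?_⟩
    · obtain ⟨h3, h4⟩ := mem_powersetCard.1 he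
      exact (h1 Q hQ).2 e h3 h4
    · rw [← h2 e he]
      refine sum_congr ?_ fun _ _ => rfl
      ext S
      simp only [mem_filter]
  · exact ⟨1, one_pos, 4, le_rfl, fun r _ h => absurd h hF⟩

end MP5cN
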