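import Pool.Agent.Lib.MP_5c685b_co.N.N4
import Pool.Agent.Lib.MP_5c685b_co.N.N5

set_option autoImplicit false

/-!
# Nibble, rows N7 (packing with uniformly small leave)
-/

namespace MP5cN

open Finset MP5cH

section N7aux

variable {V : Type} [DecidableEq V]

theorem N7_mem_tri {Q e : Finset V} : e ∈ tri Q ↔ e ⊆ Q ∧ e.card = 3 := by
  simp [tri, mem_powersetCard]

theorem N7_union {Q : Finset V} (hQ : 3 ≤ Q.card) : (tri Q).biUnion id = Q := by
  ext v
  simp only [mem_biUnion, id, N7_mem_tri]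
  constructor
  · rintro ⟨e, ⟨he, _⟩, hv⟩
    exact he hv
  · intro hv
    obtain ⟨e, h1, h2, h3⟩ := Finset.exists_subsuperset_card_eq (s := {v}) (t := Q) (n := 3)
      (by simpa using hv) (by simp) hQ
    exact ⟨e, ⟨h2, h3⟩, h1 (by simp)⟩

theorem N7_inj {Q Q' : Finset V} (hQ : 3 ≤ Q.card) (hQ' : 3 ≤ Q'.card) (h : tri Q = tri Q') :
    Q = Q' := by
  rw [← N7_union hQ, ← N7_union hQ', h]

theorem N7_count [Fintype V] {r : ℕ} (_hr : 4 ≤ r) {S : Finset V} (hS : 4 ≤ S.card) :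
    (univ.filter (fun Q : Finset V => Q.card = r ∧ S ⊆ Q)).card ≤ Fintype.card V ^ (r - 4) := by
  classical
  obtain ⟨S', hS', hS'c⟩ := Finset.exists_subset_card_eq hS
  have h1 : (univ.filter (fun Q : Finset V => Q.card = r ∧ S ⊆ Q)).card ≤
      (powersetCard (r - 4) (univ : Finset V)).card := by
    refine Finset.card_le_card_of_injOn (fun Q => Q \ S') ?_ ?_
    · intro Q hQ
      rw [mem_coe, mem_filter] at hQ
      replace hQ := hQ.2
      rw [mem_coe, mem_powersetCard]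
      refine ⟨subset_univ _, ?_⟩
      rw [card_sdiff_of_subset (hS'.trans hQ.2), hQ.1, hS'c]
    · intro Q hQ Q' hQ' h
      rw [mem_coe, mem_filter] at hQ hQ'
      replace hQ := hQ.2
      replace hQ' := hQ'.2
      have h' : Q \ S' = Q' \ S' := h
      rw [← Finset.sdiff_union_of_subset (hS'.trans hQ.2),
        ← Finset.sdiff_union_of_subset (hS'.trans hQ'.2), h']
  refine h1.trans ?_
  rw [card_powersetCard, card_univ]
  exact Nat.choose_le_pow _ _

end N7aux

/-- the numbers -/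
theorem N7_num {δ A K : ℝ} (hδ : 0 < δ) (hA : 0 < A) (hK : 0 < K) : ∃ n₂ : ℕ, ∀ n : ℕ, n₂ ≤ n →
    1 ≤ n ∧ (1 : ℝ) ≤ Real.sqrt n ∧ A * (Real.sqrt n * (K / n)) ≤ 1 ∧ A * Real.sqrt n ≤ n ∧
      Real.log (2 * ((n : ℝ) ^ 3) + (n : ℝ) ^ 2) ≤ δ * Real.sqrt n := by
  obtain ⟨n₂, hn₂⟩ : ∃ n₂ : ℕ, max (max ((A * K) ^ 2) (A ^ 2)) (max 3 ((16 / δ) ^ 4)) ≤ (n₂ : ℝ) :=
    exists_nat_ge _
  refine ⟨n₂, fun n hn => ?_⟩
  have hnR : (n₂ : ℝ) ≤ n := by exact_mod_cast hn
  have h1 : (A * K) ^ 2 ≤ (n : ℝ) := ((le_max_left _ _).trans (le_max_left _ _)).trans (hn₂.trans hnR)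
  have h2 : A ^ 2 ≤ (n : ℝ) := ((le_max_right _ _).trans (le_max_left _ _)).trans (hn₂.trans hnR)
  have h3 : (3 : ℝ) ≤ (n : ℝ) := ((le_max_left _ _).trans (le_max_right _ _)).trans (hn₂.trans hnR)
  have h4 : (16 / δ) ^ 4 ≤ (n : ℝ) :=
    ((le_max_right _ _).trans (le_max_right _ _)).trans (hn₂.trans hnR)
  have hn0 : (0 : ℝ) < n := by linarith
  have hs0 : 0 < Real.sqrt n := Real.sqrt_pos.2 hn0
  have hss : Real.sqrt n * Real.sqrt n = n := Real.mul_self_sqrt hn0.le
  refine ⟨by exact_mod_cast (by linarith : (1 : ℝ) ≤ n), ?_, ?_, ?_, ?_⟩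
  · rw [Real.le_sqrt (by norm_num) hn0.le]; linarith
  · have : A * (Real.sqrt n * (K / n)) = A * K / Real.sqrt n := by
      field_simp
      linarith [Real.sq_sqrt hn0.le]
    rw [this, div_le_one hs0, Real.le_sqrt (by positivity) hn0.le]
    exact h1
  · have : A ≤ Real.sqrt n := (Real.le_sqrt hA.le hn0.le).2 h2
    nlinarith
  · have e1 : 2 * ((n : ℝ) ^ 3) + (n : ℝ) ^ 2 ≤ (n : ℝ) ^ 4 := by
      have e2 : (n : ℝ) ^ 2 ≤ (n : ℝ) ^ 3 := pow_le_pow_right₀ (by linarith) (by norm_num)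
      have e3 : (n : ℝ) ^ 4 = n * (n : ℝ) ^ 3 := by ring
      have e4 : 0 ≤ (n : ℝ) ^ 3 := by positivity
      nlinarith
    calc Real.log (2 * ((n : ℝ) ^ 3) + (n : ℝ) ^ 2) ≤ Real.log ((n : ℝ) ^ 4) :=
          Real.log_le_log (by positivity) e1
      _ = 4 * Real.log n := by rw [Real.log_pow]; norm_num
      _ ≤ 4 * (4 * (n : ℝ) ^ ((1 : ℝ) / 4)) := by
          have := Real.log_le_rpow_div hn0.le (ε := 1 / 4) (by norm_num)
          have e5 : (n : ℝ) ^ ((1 : ℝ) / 4) / (1 / 4) = 4 * (n : ℝ) ^ ((1 : ℝ) / 4) := by ring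
          rw [e5] at this
          linarith
      _ ≤ δ * Real.sqrt n := by
          have e6 : Real.sqrt n = (n : ℝ) ^ ((1 : ℝ) / 4) * (n : ℝ) ^ ((1 : ℝ) / 4) := by
            rw [← Real.rpow_add hn0, Real.sqrt_eq_rpow]; norm_num
          have e7 : 16 / δ ≤ (n : ℝ) ^ ((1 : ℝ) / 4) := by
            have : ((16 / δ) ^ 4) ^ ((1 : ℝ) / 4) ≤ (n : ℝ) ^ ((1 : ℝ) / 4) :=
              Real.rpow_le_rpow (by positivity) h4 (by norm_num)
            have e8 : ((16 / δ) ^ 4) ^ ((1 : ℝ) / 4) = 16 / δ := by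
              rw [← Real.rpow_natCast, ← Real.rpow_mul (by positivity)]
              norm_num
            rwa [e8] at this
          rw [div_le_iff₀ hδ] at e7
          rw [e6]
          have e9 : 0 < (n : ℝ) ^ ((1 : ℝ) / 4) := Real.rpow_pos_of_pos hn0 _
          nlinarith

/-- N7, THE PACKING THEOREM: cliques of `G`, two of them have no common triple, and at every pair at
most `η n` edges of `G` are uncovered. -/
theorem packing {r : ℕ} (hr : 4 ≤ r) {ρ : ℝ} (hρ : 0 < ρ) (hF : Frac r ρ) {η : ℝ} (hη : 0 < η) :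
    ∃ n₁ : ℕ, ∀ (V : Type) [Fintype V] [DecidableEq V], n₁ ≤ Fintype.card V →
    ∀ G : Finset (Finset V), (∀ e ∈ G, e.card = 3) →
      (∀ a b : V, a ≠ b → ((Nbd G a b).card : ℝ) ≤ ρ / 10 * Fintype.card V) →
      ∃ NN : Finset (Finset V), (∀ Q ∈ NN, Q.card = r ∧ tri Q ⊆ G) ∧
        (∀ Q ∈ NN, ∀ Q' ∈ NN, Q ≠ Q' → Disjoint (tri Q) (tri Q')) ∧
        ∀ a b : V, a ≠ b →
          ((Pbd (G.filter (fun e => ∀ Q ∈ NN, e ∉ tri Q)) a b).card : ℝ) ≤
            η * Fintype.card V := by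
  classical
  have hD : 2 ≤ r.choose 3 := by
    calc 2 ≤ Nat.choose 4 3 := by decide
      _ ≤ r.choose 3 := Nat.choose_le_choose 3 hr
  obtain ⟨δ, A, hδ, hA, hnib⟩ := nibble (r.choose 3) hD hη
  obtain ⟨K, hK, n₁, hw⟩ := weights hr hρ hF hδ
  obtain ⟨n₂, hn₂⟩ := N7_num hδ hA hK
  refine ⟨max n₁ n₂, ?_⟩
  intro V _ _ hV G hG hN
  obtain ⟨w, hw0, hwQ, hlo, hhi, hwK⟩ := hw V (le_trans (le_max_left _ _) hV) G hG hN
  obtain ⟨hn1, hθ1, hAK, hAθ, hlog⟩ := hn₂ _ (le_trans (le_max_right _ _) hV)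
  set n : ℕ := Fintype.card V with hn
  have hn0 : (0 : ℝ) < n := by exact_mod_cast hn1
  -- the family
  set CC : Finset (Finset V) := univ.filter (fun Q => Q.card = r ∧ tri Q ⊆ G) with hCC
  have hCC3 : ∀ Q ∈ CC, 3 ≤ Q.card := by
    intro Q hQ
    have := (mem_filter.1 hQ).2.1
    omega
  have hinj : Set.InjOn (tri : Finset V → Finset (Finset V)) (CC : Set (Finset V)) :=
    fun Q hQ Q' hQ' h => N7_inj (hCC3 Q hQ) (hCC3 Q' hQ') h
  set QQ : Finset (Finset (Finset V)) := CC.image tri with hQQ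
  set w' : Finset (Finset V) → ℝ := fun P => w (P.biUnion id) with hw'
  have hw't : ∀ Q ∈ CC, w' (tri Q) = w Q := by
    intro Q hQ
    show w ((tri Q).biUnion id) = w Q
    rw [N7_union (hCC3 Q hQ)]
  have hsum : ∀ p : Finset (Finset V) → Prop, ∀ [DecidablePred p],
      ∑ P ∈ QQ.filter (fun P => p P), w' P = ∑ Q ∈ CC.filter (fun Q => p (tri Q)), w Q := by
    intro p _
    rw [hQQ, Finset.filter_image, Finset.sum_image]
    · exact Finset.sum_congr rfl fun Q hQ => hw't Q (mem_filter.1 hQ).1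
    · intro Q hQ Q' hQ' h
      exact hinj (mem_filter.1 hQ).1 (mem_filter.1 hQ').1 h
  have hsum1 : ∀ e ∈ G, ∑ P ∈ QQ.filter (fun P => e ∈ P), w' P =
      ∑ Q ∈ univ.filter (fun Q => e ⊆ Q), w Q := by
    intro e he
    rw [hsum (fun P => e ∈ P)]
    refine Finset.sum_subset ?_ ?_
    · intro Q hQ
      rw [mem_filter] at hQ ⊢
      exact ⟨mem_univ _, (N7_mem_tri.1 hQ.2).1⟩
    · intro Q hQ hQ'
      by_contra hne
      apply hQ'
      rw [mem_filter] at hQ ⊢
      exact ⟨mem_filter.2 ⟨mem_univ _, hwQ Q hne⟩, N7_mem_tri.2 ⟨hQ.2, hG e he⟩⟩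
  have hdata : Data (r.choose 3) G QQ w' δ (K / n) := by
    refine ⟨?_, ?_, ?_, ?_, ?_, ?_⟩
    · intro P hP
      obtain ⟨Q, hQ, rfl⟩ := mem_image.1 hP
      rw [tri, card_powersetCard, (mem_filter.1 hQ).2.1]
    · intro P hP
      obtain ⟨Q, hQ, rfl⟩ := mem_image.1 hP
      exact (mem_filter.1 hQ).2.2
    · intro P _
      exact hw0 _
    · intro e he
      rw [hsum1 e he]
      exact hlo e he
    · intro e he
      rw [hsum1 e he]
      exact hhi e he
    · intro e he g hg heg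
      rw [hsum (fun P => e ∈ P ∧ g ∈ P)]
      have hc4 : 4 ≤ (e ∪ g).card := by
        by_contra hlt
        have h3 : (e ∪ g).card ≤ 3 := by omega
        have h4 : e = e ∪ g := Finset.eq_of_subset_of_card_le subset_union_left (by rw [hG e he]; exact h3)
        have h5 : g = e ∪ g := Finset.eq_of_subset_of_card_le subset_union_right (by rw [hG g hg]; exact h3)
        exact heg (h4.trans h5.symm)
      calc ∑ Q ∈ CC.filter (fun Q => e ∈ tri Q ∧ g ∈ tri Q), w Q
          ≤ ∑ Q ∈ CC.filter (fun Q => e ∈ tri Q ∧ g ∈ tri Q), K / (n : ℝ) ^ (r - 3) :=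
            Finset.sum_le_sum fun Q _ => hwK Q
        _ = ((CC.filter (fun Q => e ∈ tri Q ∧ g ∈ tri Q)).card : ℝ) * (K / (n : ℝ) ^ (r - 3)) := by
            rw [Finset.sum_const, nsmul_eq_mul]
        _ ≤ ((n : ℝ) ^ (r - 4)) * (K / (n : ℝ) ^ (r - 3)) := by
            refine mul_le_mul_of_nonneg_right ?_ (by positivity)
            have h6 : (CC.filter (fun Q => e ∈ tri Q ∧ g ∈ tri Q)).card ≤ n ^ (r - 4) := by
              refine le_trans (Finset.card_le_card ?_) (N7_count hr hc4)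
              intro Q hQ
              rw [mem_filter] at hQ ⊢
              refine ⟨mem_univ _, (mem_filter.1 hQ.1).2.1, ?_⟩
              exact union_subset (N7_mem_tri.1 hQ.2.1).1 (N7_mem_tri.1 hQ.2.2).1
            exact_mod_cast h6
        _ = K / n := by
            have h7 : r - 3 = (r - 4) + 1 := by omega
            rw [h7, pow_succ]
            field_simp
  -- the tests
  set SS : V × V → Finset (Finset V) := fun p => G.filter (fun e => p.1 ∈ e ∧ p.2 ∈ e) with hSS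
  set TT : Finset (Finset (Finset V)) :=
    ((univ : Finset (V × V)).filter (fun p => p.1 ≠ p.2)).image SS with hTT
  have hSScard : ∀ p : V × V, p.1 ≠ p.2 → (SS p).card ≤ n := by
    rintro ⟨a, b⟩ hab
    have : SS (a, b) ⊆ (univ : Finset V).image (fun v => ({a, b, v} : Finset V)) := by
      intro e he
      obtain ⟨heG, ha, hb⟩ := mem_filter.1 he
      have h3 := hG e heG
      have hsub : ({a, b} : Finset V) ⊆ e := by
        intro x hx
        rcases mem_insert.1 hx with rfl | hx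
        · exact ha
        · rw [mem_singleton.1 hx]; exact hb
      have hc : (e \ {a, b}).card = 1 := by
        rw [card_sdiff_of_subset hsub, h3, card_pair hab]
      obtain ⟨v, hv⟩ := card_eq_one.1 hc
      refine mem_image.2 ⟨v, mem_univ _, ?_⟩
      have : e = (e \ {a, b}) ∪ {a, b} := (sdiff_union_of_subset hsub).symm
      rw [this, hv]
      ext x
      simp only [mem_insert, mem_singleton, mem_union]
      tauto
    exact le_trans (card_le_card this) (le_trans card_image_le (by rw [card_univ]))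
  have hTTcard : (TT.card : ℝ) ≤ (n : ℝ) ^ 2 := by
    have : TT.card ≤ n ^ 2 := by
      refine le_trans card_image_le (le_trans (card_filter_le _ _) ?_)
      rw [card_univ, Fintype.card_prod, sq]
    exact_mod_cast this
  have hGcard : (G.card : ℝ) ≤ (n : ℝ) ^ 3 := by
    have : G.card ≤ n ^ 3 := by
      have h8 : G ⊆ powersetCard 3 (univ : Finset V) := fun e he =>
        mem_powersetCard.2 ⟨subset_univ _, hG e he⟩
      refine le_trans (card_le_card h8) ?_
      rw [card_powersetCard, card_univ]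
      exact Nat.choose_le_pow _ _
    exact_mod_cast this
  have hlog' : Real.log (2 * (G.card : ℝ) + (TT.card : ℝ)) ≤ δ * Real.sqrt n := by
    rcases (by positivity : (0 : ℝ) ≤ 2 * (G.card : ℝ) + (TT.card : ℝ)).eq_or_lt with h0 | h0
    · rw [← h0, Real.log_zero]; positivity
    · exact (Real.log_le_log h0 (by linarith)).trans hlog
  obtain ⟨NN', hNQ, hdisj, hcov⟩ := hnib (Finset V) G QQ TT w' (K / n) (Real.sqrt n) n hdata
    (by positivity) hθ1 hAK hAθ
    (by
      intro S hS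
      obtain ⟨p, hp, rfl⟩ := mem_image.1 hS
      exact ⟨filter_subset _ _, by exact_mod_cast hSScard p (mem_filter.1 hp).2⟩) hlog'
  refine ⟨CC.filter (fun Q => tri Q ∈ NN'), ?_, ?_, ?_⟩
  · intro Q hQ
    exact (mem_filter.1 (mem_filter.1 hQ).1).2
  · intro Q hQ Q' hQ' hne
    refine hdisj _ (mem_filter.1 hQ).2 _ (mem_filter.1 hQ').2 fun h => hne ?_
    exact hinj (mem_filter.1 hQ).1 (mem_filter.1 hQ').1 h
  · intro a b hab
    have h1 := hcov (SS (a, b)) (mem_image.2 ⟨(a, b), mem_filter.2 ⟨mem_univ _, hab⟩, rfl⟩)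
    refine le_trans ?_ h1
    have h2 : (Pbd (G.filter (fun e => ∀ Q ∈ CC.filter (fun Q => tri Q ∈ NN'), e ∉ tri Q)) a b).card ≤
        ((SS (a, b)).filter (fun e => ∀ Q ∈ NN', e ∉ Q)).card := by
      refine Finset.card_le_card_of_injOn (fun v => ({a, b, v} : Finset V)) ?_ ?_
      · intro v hv
        have hv' := (mem_filter.1 hv).2
        obtain ⟨hva, hvb, hvG⟩ := hv'
        obtain ⟨hvG1, hvG2⟩ := mem_filter.1 hvG
        refine mem_filter.2 ⟨mem_filter.2 ⟨hvG1, by simp, by simp⟩, ?_⟩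
        intro P hP
        obtain ⟨Q, hQ, rfl⟩ := mem_image.1 (hNQ hP)
        exact hvG2 Q (mem_filter.2 ⟨hQ, hP⟩)
      · intro v hv v' hv' h
        obtain ⟨hva, hvb, _⟩ := (mem_filter.1 hv).2
        have h3 : v ∈ ({a, b, v'} : Finset V) := by
          have : v ∈ ({a, b, v} : Finset V) := by simp
          rw [show ({a, b, v} : Finset V) = {a, b, v'} from h] at this
          exact this
        simp only [mem_insert, mem_singleton] at h3
        rcases h3 with h3 | h3 | h3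
        · exact absurd h3 hva
        · exact absurd h3 hvb
        · exact h3
    rw [Nat.cast_le]
    convert h2

end MP5cN
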