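import Pool.Agent.Lib.MP_5c685b_co.N.N5

set_option autoImplicit false

/-!
# Nibble, row N8 (many cliques through every edge)
-/

namespace MP5cN

open Finset MP5cH

/-- N8: every edge lies in at least `c n^(r-3)` cliques. -/
theorem many_cliques {r : ℕ} (hr : 4 ≤ r) {ρ : ℝ} (hρ : 0 < ρ) (hF : Frac r ρ) :
    ∃ c : ℝ, 0 < c ∧ ∃ n₁ : ℕ, ∀ (V : Type) [Fintype V] [DecidableEq V], n₁ ≤ Fintype.card V →
    ∀ G : Finset (Finset V), (∀ e ∈ G, e.card = 3) →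
      (∀ a b : V, a ≠ b → ((Nbd G a b).card : ℝ) ≤ ρ / 10 * Fintype.card V) →
      ∀ e ∈ G, c * (Fintype.card V : ℝ) ^ (r - 3) ≤
        ((univ.filter (fun Q : Finset V => Q.card = r ∧ e ⊆ Q ∧ tri Q ⊆ G)).card : ℝ) := by
  obtain ⟨K, hK, n₁, h⟩ := weights hr hρ hF (δ := 1 / 2) (by norm_num)
  refine ⟨1 / (2 * K), by positivity, n₁, ?_⟩
  intro V _ _ hn G hG hN e he
  obtain ⟨w, hw0, hw1, hlo, -, hwK⟩ := h V hn G hG hN
  have hV : (0 : ℝ) < (Fintype.card V : ℝ) := by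
    have h1 : e.card ≤ Fintype.card V := Finset.card_le_univ e
    rw [hG e he] at h1
    exact_mod_cast (by omega : 0 < Fintype.card V)
  have hpow : (0 : ℝ) < (Fintype.card V : ℝ) ^ (r - 3) := by positivity
  have h1 := hlo e he
  have h2 : ∑ Q ∈ univ.filter (fun Q => e ⊆ Q), w Q =
      ∑ Q ∈ univ.filter (fun Q : Finset V => Q.card = r ∧ e ⊆ Q ∧ tri Q ⊆ G), w Q := by
    symm
    apply Finset.sum_subset
    · intro Q hQ
      simp only [mem_filter, mem_univ, true_and] at hQ ⊢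
      exact hQ.2.1
    · intro Q hQ hQ'
      simp only [mem_filter, mem_univ, true_and] at hQ hQ'
      by_contra hne
      obtain ⟨h3, h4⟩ := hw1 Q hne
      exact hQ' ⟨h3, hQ, h4⟩
  have h3 : ∑ Q ∈ univ.filter (fun Q : Finset V => Q.card = r ∧ e ⊆ Q ∧ tri Q ⊆ G), w Q ≤
      ((univ.filter (fun Q : Finset V => Q.card = r ∧ e ⊆ Q ∧ tri Q ⊆ G)).card : ℝ) *
        (K / (Fintype.card V : ℝ) ^ (r - 3)) := by
    rw [← nsmul_eq_mul]
    exact Finset.sum_le_card_nsmul _ _ _ fun Q _ => hwK Q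
  rw [h2] at h1
  have h4 : (1 / 2 : ℝ) ≤
      ((univ.filter (fun Q : Finset V => Q.card = r ∧ e ⊆ Q ∧ tri Q ⊆ G)).card : ℝ) *
        (K / (Fintype.card V : ℝ) ^ (r - 3)) := by linarith
  have h5 : (1 / 2 : ℝ) * (Fintype.card V : ℝ) ^ (r - 3) ≤
      ((univ.filter (fun Q : Finset V => Q.card = r ∧ e ⊆ Q ∧ tri Q ⊆ G)).card : ℝ) * K := by
    have h6 := mul_le_mul_of_nonneg_right h4 hpow.le
    have h7 : ((univ.filter (fun Q : Finset V => Q.card = r ∧ e ⊆ Q ∧ tri Q ⊆ G)).card : ℝ) *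
        (K / (Fintype.card V : ℝ) ^ (r - 3)) * (Fintype.card V : ℝ) ^ (r - 3) =
        ((univ.filter (fun Q : Finset V => Q.card = r ∧ e ⊆ Q ∧ tri Q ⊆ G)).card : ℝ) * K := by
      field_simp
    rw [h7] at h6
    exact h6
  have h8 : 1 / (2 * K) * (Fintype.card V : ℝ) ^ (r - 3) =
      ((1 / 2 : ℝ) * (Fintype.card V : ℝ) ^ (r - 3)) / K := by
    field_simp
  rw [h8, div_le_iff₀ hK]
  exact h5

end MP5cN
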