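import Mathlib

set_option autoImplicit false

/-!
# Nibble: definitions

`EE` items, `QQ` a family of `D`-sets of items with weights `w`, total weight at every item in
`[1 - δ, 1]`, weight at two different items at most `κ`.
-/

namespace MP5cN

open Finset

variable {E : Type} [DecidableEq E]

/-- the hypotheses of the nibble -/
structure Data (D : ℕ) (EE : Finset E) (QQ : Finset (Finset E)) (w : Finset E → ℝ) (δ κ : ℝ) :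
    Prop where
  card : ∀ Q ∈ QQ, Q.card = D
  sub : ∀ Q ∈ QQ, Q ⊆ EE
  nonneg : ∀ Q ∈ QQ, 0 ≤ w Q
  lo : ∀ e ∈ EE, 1 - δ ≤ ∑ Q ∈ QQ.filter (fun Q => e ∈ Q), w Q
  hi : ∀ e ∈ EE, ∑ Q ∈ QQ.filter (fun Q => e ∈ Q), w Q ≤ 1
  co : ∀ e ∈ EE, ∀ g ∈ EE, e ≠ g → ∑ Q ∈ QQ.filter (fun Q => e ∈ Q ∧ g ∈ Q), w Q ≤ κ

/-- weight of the members inside `U` through `e` -/
def Y (QQ : Finset (Finset E)) (w : Finset E → ℝ) (U : Finset E) (e : E) : ℝ :=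
  ∑ Q ∈ QQ.filter (fun Q => Q ⊆ U ∧ e ∈ Q), w Q

/-- the potential -/
noncomputable def Pot (QQ : Finset (Finset E)) (w : Finset E → ℝ) (TT : Finset (Finset E))
    (θ M b ρ Δ : ℝ) (U : Finset E) : ℝ :=
  ∑ e ∈ U, (Real.exp (θ * (Y QQ w U e / b - 1 - Δ)) + Real.exp (θ * (1 - Y QQ w U e / b - Δ))) +
    ∑ S ∈ TT, Real.exp (θ * (((S ∩ U).card : ℝ) / (M * ρ) - 1))

/-- the hypotheses on the numbers in one step -/
structure Step (D : ℕ) (θ M κ z b ρ Δ δ : ℝ) : Prop where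
  hD : 2 ≤ D
  hθ : 0 < θ
  hM : 0 < M
  hκ : 0 ≤ κ
  hz : 0 < z
  hb : 0 < b
  hρ : 0 < ρ
  hδ : 0 < δ
  hδ' : δ ≤ 1 / 4
  ha : z * (D - 1) * b ≤ 1 / 8
  hzb : z * b ≤ 1 / 8
  hω : θ * D * κ ≤ δ * (b * (1 - z * (D - 1) * b))
  hκ2 : (D : ℝ) ^ 2 * κ ≤ δ * (D - 1) * b
  hα : θ * D ≤ 1 / 4 * (M * (ρ * (1 - z * b / 2)))

end MP5cN
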