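import Pool.Agent.Lib.MP_5c685b_co.N.McD
import Pool.Agent.Lib.MP_5c685b_co.N.N7
import Pool.Agent.Lib.MP_5c685b_co.N.N8

set_option autoImplicit false

/-!
# Reserve, row R2: the reserve `X`
-/

namespace MP5cN

open Finset MP5cH

section R2gen

open Pool.Agent.Lib.MP_5c685b_co.D

/-- the weights of a biased coin -/
noncomputable def R2_w (I : Type) (p : ℝ) : ∀ _ : I, Bool → ℝ := fun _ b => if b then p else 1 - p

variable {I : Type} [Fintype I] [DecidableEq I] {α : Type}

omit [Fintype I] [DecidableEq I] in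
private lemma R2_isProb {p : ℝ} (hp : 0 ≤ p) (hp1 : p ≤ 1) :
    IsProb (Om := fun _ : I => Bool) (R2_w I p) where
  nonneg i a := by
    cases a
    · simpa [R2_w] using hp1
    · simpa [R2_w] using hp
  one i := by simp [R2_w]

/-- number of satisfied sets -/
noncomputable def R2_F (S : Finset α) (A : α → Finset I) (ω : I → Bool) : ℝ :=
  ∑ s ∈ S, if ∀ g ∈ A s, ω g = true then (1 : ℝ) else 0

private lemma R2_Ex_ind (p : ℝ) (A : Finset I) :
    Ex (Om := fun _ : I => Bool) (R2_w I p)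
      (fun ω => if ∀ g ∈ A, ω g = true then (1 : ℝ) else 0) = p ^ A.card := by
  have h1 : ∀ ω : I → Bool, (∏ i, R2_w I p i (ω i)) *
      (if ∀ g ∈ A, ω g = true then (1 : ℝ) else 0) =
      ∏ i, (R2_w I p i (ω i) * (if i ∈ A then (if ω i = true then 1 else 0) else 1)) := by
    intro ω
    rw [Finset.prod_mul_distrib]
    congr 1
    split_ifs with h
    · symm
      refine Finset.prod_eq_one fun i _ => ?_
      split_ifs with h1 h2
      · rfl
      · exact absurd (h i h1) h2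
      · rfl
    · push Not at h
      obtain ⟨g, hg, hg2⟩ := h
      symm
      refine Finset.prod_eq_zero (Finset.mem_univ g) ?_
      rw [if_pos hg, if_neg hg2]
  unfold Ex
  rw [Finset.sum_congr rfl fun ω _ => h1 ω,
    ← Fintype.prod_sum (fun (i : I) (b : Bool) => R2_w I p i b *
      (if i ∈ A then (if b = true then (1 : ℝ) else 0) else 1))]
  have h2 : ∀ i : I, ∑ b : Bool, R2_w I p i b *
      (if i ∈ A then (if b = true then (1 : ℝ) else 0) else 1) = if i ∈ A then p else 1 := by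
    intro i
    by_cases h : i ∈ A
    · simp [R2_w, h]
    · simp [R2_w, h]
  rw [Finset.prod_congr rfl fun i _ => h2 i, Finset.prod_ite_mem, Finset.univ_inter,
    Finset.prod_const]

private lemma R2_Ex_F (p : ℝ) (S : Finset α) (A : α → Finset I) :
    Ex (Om := fun _ : I => Bool) (R2_w I p) (R2_F S A) = ∑ s ∈ S, p ^ (A s).card := by
  have : (R2_F S A : (I → Bool) → ℝ) = fun ω => ∑ s ∈ S, if ∀ g ∈ A s, ω g = true then (1 : ℝ) else 0 :=
    rfl
  rw [this, Ex_sum]
  exact Finset.sum_congr rfl fun s _ => R2_Ex_ind p (A s)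

private lemma R2_BD (S : Finset α) (A : α → Finset I) :
    BD (Om := fun _ : I => Bool) (R2_F S A)
      (fun g => (((S.filter fun s => g ∈ A s).card : ℕ) : ℝ)) := by
  intro g ω a
  have h1 : R2_F S A (Function.update ω g a) - R2_F S A ω = ∑ s ∈ S,
      ((if ∀ x ∈ A s, (Function.update ω g a) x = true then (1 : ℝ) else 0) -
        (if ∀ x ∈ A s, ω x = true then (1 : ℝ) else 0)) := by
    rw [Finset.sum_sub_distrib]; rfl
  rw [h1]
  refine (Finset.abs_sum_le_sum_abs _ _).trans ?_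
  show _ ≤ (((S.filter fun s => g ∈ A s).card : ℕ) : ℝ)
  rw [Finset.card_filter, Nat.cast_sum]
  refine Finset.sum_le_sum fun s _ => ?_
  by_cases hg : g ∈ A s
  · rw [if_pos hg]
    split_ifs <;> simp
  · rw [if_neg hg]
    have : (∀ x ∈ A s, (Function.update ω g a) x = true) ↔ ∀ x ∈ A s, ω x = true := by
      refine forall₂_congr fun x hx => ?_
      have hxg : x ≠ g := fun e => hg (e ▸ hx)
      rw [Function.update_of_ne hxg]
    simp only [this, sub_self, abs_zero, Nat.cast_zero, le_refl]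

private lemma R2_sq (S : Finset α) (A : α → Finset I) {k m : ℝ}
    (hk : ∀ g, (((S.filter fun s => g ∈ A s).card : ℕ) : ℝ) ≤ k)
    (hm : ∑ s ∈ S, ((A s).card : ℝ) ≤ m) (hk0 : 0 ≤ k) :
    ∑ g : I, (((S.filter fun s => g ∈ A s).card : ℕ) : ℝ) ^ 2 ≤ k * m := by
  have h1 : ∑ g : I, (((S.filter fun s => g ∈ A s).card : ℕ) : ℝ) ^ 2 ≤
      ∑ g : I, k * (((S.filter fun s => g ∈ A s).card : ℕ) : ℝ) := by
    refine Finset.sum_le_sum fun g _ => ?_
    rw [sq]
    exact mul_le_mul_of_nonneg_right (hk g) (Nat.cast_nonneg _)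
  refine h1.trans ?_
  rw [← Finset.mul_sum]
  refine mul_le_mul_of_nonneg_left ?_ hk0
  refine le_trans (le_of_eq ?_) hm
  have h2 : ∀ g : I, (((S.filter fun s => g ∈ A s).card : ℕ) : ℝ) =
      ∑ s ∈ S, if g ∈ A s then (1 : ℝ) else 0 := by
    intro g
    rw [Finset.card_filter]
    push_cast
    rfl
  simp only [h2]
  rw [Finset.sum_comm]
  refine Finset.sum_congr rfl fun s _ => ?_
  rw [Finset.sum_ite_mem, Finset.univ_inter, Finset.sum_const, nsmul_eq_mul, mul_one]

private lemma R2_tail {p : ℝ} (hp : 0 ≤ p) (hp1 : p ≤ 1) (S : Finset α) (A : α → Finset I)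
    {k m W : ℝ} (hk : ∀ g, (((S.filter fun s => g ∈ A s).card : ℕ) : ℝ) ≤ k)
    (hm : ∑ s ∈ S, ((A s).card : ℝ) ≤ m) (hk0 : 0 ≤ k) (hW : 0 < W) (hkm : k * m ≤ W)
    {a : ℝ} (ha : 0 ≤ a) :
    Pr (Om := fun _ : I => Bool) (R2_w I p)
        (fun ω => R2_F S A ω ≤ ∑ s ∈ S, p ^ (A s).card - a) ≤ Real.exp (-(a ^ 2 / (2 * W))) ∧
    Pr (Om := fun _ : I => Bool) (R2_w I p)
        (fun ω => ∑ s ∈ S, p ^ (A s).card + a ≤ R2_F S A ω) ≤ Real.exp (-(a ^ 2 / (2 * W))) := by
  have hs := (R2_sq S A hk hm hk0).trans hkm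
  have h1 := mcd_lower (R2_isProb hp hp1) (R2_F S A) _ (R2_BD S A) W hW hs a ha
  have h2 := mcd_upper (R2_isProb hp hp1) (R2_F S A) _ (R2_BD S A) W hW hs a ha
  rw [R2_Ex_F] at h1 h2
  exact ⟨h1, h2⟩

end R2gen

section R2cnt

variable {V : Type} [Fintype V] [DecidableEq V]

/-- number of `r`-sets that contain a given set -/
private lemma R2_count (r : ℕ) (T : Finset V) :
    (univ.filter fun Q : Finset V => Q.card = r ∧ T ⊆ Q).card ≤
      (Fintype.card V) ^ (r - T.card) := by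
  have h1 : (univ.filter fun Q : Finset V => Q.card = r ∧ T ⊆ Q).card ≤
      ((univ : Finset V).powersetCard (r - T.card)).card := by
    refine Finset.card_le_card_of_injOn (fun Q => Q \ T) ?_ ?_
    · intro Q hQ
      rw [Finset.mem_coe, Finset.mem_filter] at hQ
      rw [Finset.mem_coe, Finset.mem_powersetCard]
      exact ⟨Finset.subset_univ _, by rw [Finset.card_sdiff_of_subset hQ.2.2, hQ.2.1]⟩
    · intro Q hQ Q' hQ' h
      rw [Finset.mem_coe, Finset.mem_filter] at hQ hQ'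
      have e1 : Q \ T ∪ T = Q := Finset.sdiff_union_of_subset hQ.2.2
      have e2 : Q' \ T ∪ T = Q' := Finset.sdiff_union_of_subset hQ'.2.2
      rw [← e1, ← e2]
      simp only at h
      rw [h]
  refine h1.trans ?_
  rw [Finset.card_powersetCard, Finset.card_univ]
  exact Nat.choose_le_pow _ _

private lemma R2_count4 (r : ℕ) (T : Finset V) (hT : 4 ≤ T.card) :
    (univ.filter fun Q : Finset V => Q.card = r ∧ T ⊆ Q).card ≤ (Fintype.card V) ^ (r - 4) := by
  obtain ⟨T', hT', hc⟩ := Finset.exists_subset_card_eq hT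
  have h := R2_count r T'
  rw [hc] at h
  refine le_trans (Finset.card_le_card ?_) h
  intro Q hQ
  simp only [Finset.mem_filter, Finset.mem_univ, true_and] at hQ ⊢
  exact ⟨hQ.1, hT'.trans hQ.2⟩

end R2cnt

open Pool.Agent.Lib.MP_5c685b_co.D in
/-- counting version: `X` of small codegrees that keeps a positive proportion of the cliques through
every edge -/
theorem reserve_of_many {r : ℕ} (hr : 4 ≤ r) {c p : ℝ} (hc : 0 < c) (hp : 0 < p) (hp1 : p ≤ 1 / 2) :
    ∃ c₂ : ℝ, 0 < c₂ ∧ ∃ n₁ : ℕ, ∀ (V : Type) [Fintype V] [DecidableEq V], n₁ ≤ Fintype.card V →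
    ∀ G : Finset (Finset V), (∀ e ∈ G, e.card = 3) →
      (∀ e ∈ G, c * (Fintype.card V : ℝ) ^ (r - 3) ≤
        ((univ.filter (fun Q : Finset V => Q.card = r ∧ e ⊆ Q ∧ tri Q ⊆ G)).card : ℝ)) →
      ∃ X ⊆ G, (∀ a b : V, a ≠ b → ((Pbd X a b).card : ℝ) ≤ 2 * p * Fintype.card V) ∧
        ∀ e ∈ G, c₂ * (Fintype.card V : ℝ) ^ (r - 3) ≤
          ((univ.filter (fun Q : Finset V => Q.card = r ∧ e ⊆ Q ∧ (tri Q).erase e ⊆ X)).card : ℝ) := by
  classical
  set D : ℕ := r.choose 3 with hD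
  have hD1 : 1 ≤ D := Nat.choose_pos (by omega)
  have hDR : (1 : ℝ) ≤ D := by exact_mod_cast hD1
  set q : ℝ := c * p ^ (D - 1) with hq
  have hq0 : 0 < q := by positivity
  set κ : ℝ := q ^ 2 / (8 * D) with hκ
  have hκ0 : 0 < κ := by positivity
  set κ' : ℝ := p ^ 2 / 2 with hκ'
  have hκ'0 : 0 < κ' := by positivity
  -- the numbers
  obtain ⟨n₁, hn₁⟩ : ∃ n₁ : ℕ, ∀ n : ℕ, n₁ ≤ n → 1 ≤ n ∧
      (n : ℝ) ^ 3 * Real.exp (-(κ * n)) + (n : ℝ) ^ 2 * Real.exp (-(κ' * n)) < 1 := by
    obtain ⟨n₁, hn₁⟩ : ∃ n₁ : ℕ, (max (72 / κ ^ 4) (18 / κ' ^ 3) : ℝ) < (n₁ : ℝ) :=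
      exists_nat_gt _
    refine ⟨max n₁ 1, fun n hn => ?_⟩
    have hn1 : 1 ≤ n := le_trans (le_max_right _ _) hn
    have hnR : (1 : ℝ) ≤ n := by exact_mod_cast hn1
    have hnn : (max (72 / κ ^ 4) (18 / κ' ^ 3) : ℝ) < (n : ℝ) :=
      lt_of_lt_of_le hn₁ (by exact_mod_cast le_trans (le_max_left _ _) hn)
    have ha : 72 / κ ^ 4 < n := lt_of_le_of_lt (le_max_left _ _) hnn
    have hb : 18 / κ' ^ 3 < n := lt_of_le_of_lt (le_max_right _ _) hnn
    refine ⟨hn1, ?_⟩
    have e1 : (n : ℝ) ^ 3 * Real.exp (-(κ * n)) ≤ 1 / 3 := by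
      have h1 := Real.pow_div_factorial_le_exp (κ * n) (by positivity) 4
      rw [Real.exp_neg]
      have h2 : (κ * n) ^ 4 / 24 ≤ Real.exp (κ * n) := by
        have : ((Nat.factorial 4 : ℕ) : ℝ) = 24 := by norm_num [Nat.factorial]
        rwa [this] at h1
      have h3 : (n : ℝ) ^ 3 * 3 ≤ (κ * n) ^ 4 / 24 := by
        rw [div_lt_iff₀ (by positivity)] at ha
        have : (κ * n) ^ 4 / 24 = (n : ℝ) ^ 3 * (n * κ ^ 4 / 24) := by ring
        rw [this]
        refine mul_le_mul_of_nonneg_left ?_ (by positivity)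
        linarith
      rw [← div_eq_mul_inv, div_le_iff₀ (Real.exp_pos _)]
      linarith
    have e2 : (n : ℝ) ^ 2 * Real.exp (-(κ' * n)) ≤ 1 / 3 := by
      have h1 := Real.pow_div_factorial_le_exp (κ' * n) (by positivity) 3
      rw [Real.exp_neg]
      have h2 : (κ' * n) ^ 3 / 6 ≤ Real.exp (κ' * n) := by
        have : ((Nat.factorial 3 : ℕ) : ℝ) = 6 := by norm_num [Nat.factorial]
        rwa [this] at h1
      have h3 : (n : ℝ) ^ 2 * 3 ≤ (κ' * n) ^ 3 / 6 := by
        rw [div_lt_iff₀ (by positivity)] at hb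
        have : (κ' * n) ^ 3 / 6 = (n : ℝ) ^ 2 * (n * κ' ^ 3 / 6) := by ring
        rw [this]
        refine mul_le_mul_of_nonneg_left ?_ (by positivity)
        linarith
      rw [← div_eq_mul_inv, div_le_iff₀ (Real.exp_pos _)]
      linarith
    linarith
  refine ⟨q / 2, by positivity, n₁, fun V _ _ hV G hG hmany => ?_⟩
  set n : ℕ := Fintype.card V with hn
  obtain ⟨hn1, hsum⟩ := hn₁ n hV
  have hnR : (1 : ℝ) ≤ n := by exact_mod_cast hn1
  have hn0 : (0 : ℝ) < n := by linarith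
  have hp0 : 0 ≤ p := hp.le
  have hp1' : p ≤ 1 := by linarith
  -- the families
  set S : Finset V → Finset (Finset V) := fun e =>
    univ.filter (fun Q : Finset V => Q.card = r ∧ e ⊆ Q ∧ tri Q ⊆ G) with hS
  set A : Finset V → Finset V → Finset (Finset V) := fun e Q => (tri Q).erase e with hA
  set N : ℝ := (n : ℝ) ^ (r - 4) with hN
  have hN0 : 0 < N := by positivity
  have hNn : (n : ℝ) ^ (r - 3) = N * n := by
    rw [hN, ← pow_succ]
    congr 1
    omega
  -- cardinality of the sets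
  have hAcard : ∀ e ∈ G, ∀ Q ∈ S e, (A e Q).card = D - 1 := by
    intro e he Q hQ
    simp only [hS, Finset.mem_filter, Finset.mem_univ, true_and] at hQ
    have h1 : e ∈ tri Q := Finset.mem_powersetCard.2 ⟨hQ.2.1, hG e he⟩
    rw [hA]
    simp only
    rw [Finset.card_erase_of_mem h1, tri, Finset.card_powersetCard, hQ.1]
  have hScard : ∀ e ∈ G, ((S e).card : ℝ) ≤ N * n := by
    intro e he
    rw [← hNn]
    have h1 := R2_count r e
    rw [hG e he] at h1
    have h2 : (S e).card ≤ n ^ (r - 3) := by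
      refine le_trans (Finset.card_le_card ?_) h1
      intro Q hQ
      simp only [hS, Finset.mem_filter, Finset.mem_univ, true_and] at hQ ⊢
      exact ⟨hQ.1, hQ.2.1⟩
    exact_mod_cast h2
  have hk : ∀ e ∈ G, ∀ g : Finset V,
      ((((S e).filter fun Q => g ∈ A e Q).card : ℕ) : ℝ) ≤ N := by
    intro e he g
    by_cases hg : g.card = 3 ∧ g ≠ e
    · have h4 : 4 ≤ (e ∪ g).card := by
        by_contra hlt
        have h5 : (e ∪ g).card ≤ 3 := by omega
        have h6 : e = e ∪ g := Finset.eq_of_subset_of_card_le Finset.subset_union_left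
          (by rw [hG e he]; exact h5)
        have h7 : g = e ∪ g := Finset.eq_of_subset_of_card_le Finset.subset_union_right
          (by rw [hg.1]; exact h5)
        exact hg.2 (h7.trans h6.symm)
      have h8 := R2_count4 r (e ∪ g) h4
      have h9 : ((S e).filter fun Q => g ∈ A e Q).card ≤ n ^ (r - 4) := by
        refine le_trans (Finset.card_le_card ?_) h8
        intro Q hQ
        obtain ⟨hQ1, hQ2⟩ := Finset.mem_filter.1 hQ
        obtain ⟨-, hQ3, hQ4, -⟩ := Finset.mem_filter.1 hQ1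
        obtain ⟨-, hQ5⟩ := Finset.mem_erase.1 hQ2
        obtain ⟨hQ6, -⟩ := Finset.mem_powersetCard.1 hQ5
        exact Finset.mem_filter.2 ⟨Finset.mem_univ _, hQ3, Finset.union_subset hQ4 hQ6⟩
      rw [hN]
      exact_mod_cast h9
    · have : ((S e).filter fun Q => g ∈ A e Q) = ∅ := by
        refine Finset.filter_eq_empty_iff.2 fun Q _ hgQ => ?_
        simp only [hA, Finset.mem_erase, tri, Finset.mem_powersetCard] at hgQ
        exact hg ⟨hgQ.2.2, hgQ.1⟩
      rw [this]
      simpa using hN0.le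
  -- bad events
  set P := R2_w (Finset V) p with hP
  have hprob : IsProb (Om := fun _ : Finset V => Bool) P := R2_isProb hp0 hp1'
  set B : Finset V ⊕ (V × V) → (Finset V → Bool) → Prop := fun j ω => match j with
    | Sum.inl e => R2_F (S e) (A e) ω ≤ ∑ Q ∈ S e, p ^ (A e Q).card -
        (∑ Q ∈ S e, p ^ (A e Q).card) / 2
    | Sum.inr ab => ∑ v ∈ Pbd G ab.1 ab.2, p ^ (({({ab.1, ab.2, v} : Finset V)} :
        Finset (Finset V))).card + p * n ≤
          R2_F (Pbd G ab.1 ab.2) (fun v => {({ab.1, ab.2, v} : Finset V)}) ω with hB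
  have hBe : ∀ e ∈ G, Pr (Om := fun _ : Finset V => Bool) P (B (Sum.inl e)) ≤
      Real.exp (-(κ * n)) := by
    intro e he
    have hmu : ∑ Q ∈ S e, p ^ (A e Q).card = ((S e).card : ℝ) * p ^ (D - 1) := by
      rw [Finset.sum_congr rfl fun Q hQ => by rw [hAcard e he Q hQ], Finset.sum_const,
        nsmul_eq_mul]
    have hmu2 : q * (N * n) ≤ ∑ Q ∈ S e, p ^ (A e Q).card := by
      rw [hmu, hq]
      have := hmany e he
      rw [hNn] at this
      calc c * p ^ (D - 1) * (N * n) = (c * (N * n)) * p ^ (D - 1) := by ring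
        _ ≤ ((S e).card : ℝ) * p ^ (D - 1) :=
          mul_le_mul_of_nonneg_right this (by positivity)
    have hm : ∑ Q ∈ S e, ((A e Q).card : ℝ) ≤ D * (N * n) := by
      calc ∑ Q ∈ S e, ((A e Q).card : ℝ) ≤ ∑ Q ∈ S e, (D : ℝ) := by
            refine Finset.sum_le_sum fun Q hQ => ?_
            rw [hAcard e he Q hQ]
            exact_mod_cast Nat.sub_le D 1
        _ = ((S e).card : ℝ) * D := by rw [Finset.sum_const, nsmul_eq_mul]
        _ ≤ (N * n) * D := mul_le_mul_of_nonneg_right (hScard e he) (by positivity)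
        _ = _ := by ring
    have hW : (0 : ℝ) < N * (D * (N * n)) := by positivity
    have h := (R2_tail (I := Finset V) hp0 hp1' (S e) (A e) (hk e he) hm hN0.le hW le_rfl
      (a := (∑ Q ∈ S e, p ^ (A e Q).card) / 2) (by
        have : 0 < q * (N * n) := by positivity
        linarith)).1
    refine h.trans (Real.exp_le_exp.2 (neg_le_neg ?_))
    rw [le_div_iff₀ (by positivity), hκ]
    have h3 : q * (N * n) / 2 ≤ (∑ Q ∈ S e, p ^ (A e Q).card) / 2 := by linarith
    have h4 : (q * (N * n) / 2) ^ 2 ≤ ((∑ Q ∈ S e, p ^ (A e Q).card) / 2) ^ 2 :=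
      pow_le_pow_left₀ (by positivity) h3 2
    refine le_trans (le_of_eq ?_) h4
    field_simp
    ring
  have hBab : ∀ ab : V × V, Pr (Om := fun _ : Finset V => Bool) P (B (Sum.inr ab)) ≤
      Real.exp (-(κ' * n)) := by
    intro ab
    have hk2 : ∀ g : Finset V, ((((Pbd G ab.1 ab.2).filter
        fun v => g ∈ ({({ab.1, ab.2, v} : Finset V)} : Finset (Finset V))).card : ℕ) : ℝ) ≤ 1 := by
      intro g
      have : ((Pbd G ab.1 ab.2).filter
        fun v => g ∈ ({({ab.1, ab.2, v} : Finset V)} : Finset (Finset V))).card ≤ 1 := by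
        refine Finset.card_le_one.2 fun v hv v' hv' => ?_
        simp only [Pbd, Finset.mem_filter, Finset.mem_univ, true_and, Finset.mem_singleton] at hv hv'
        have hv3 : v ∈ ({ab.1, ab.2, v'} : Finset V) := by
          rw [← hv'.2, hv.2]; simp
        simp only [Finset.mem_insert, Finset.mem_singleton] at hv3
        rcases hv3 with h | h | h
        · exact absurd h hv.1.1
        · exact absurd h hv.1.2.1
        · exact h
      exact_mod_cast this
    have hm2 : ∑ v ∈ Pbd G ab.1 ab.2,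
        ((({({ab.1, ab.2, v} : Finset V)} : Finset (Finset V)).card : ℕ) : ℝ) ≤ n := by
      simp only [Finset.card_singleton, Nat.cast_one, Finset.sum_const, nsmul_eq_mul, mul_one]
      exact_mod_cast Finset.card_le_univ _
    have h := (R2_tail (I := Finset V) hp0 hp1' (Pbd G ab.1 ab.2)
      (fun v => {({ab.1, ab.2, v} : Finset V)}) hk2 hm2 zero_le_one hn0 (by rw [one_mul])
      (a := p * n) (by positivity)).2
    refine h.trans (Real.exp_le_exp.2 (neg_le_neg (le_of_eq ?_)))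
    rw [hκ']
    field_simp
  -- the union bound
  have hGcard : (G.card : ℝ) ≤ (n : ℝ) ^ 3 := by
    have h1 : G.card ≤ ((univ : Finset V).powersetCard 3).card := by
      refine Finset.card_le_card fun e he => ?_
      exact Finset.mem_powersetCard.2 ⟨Finset.subset_univ _, hG e he⟩
    rw [Finset.card_powersetCard, Finset.card_univ] at h1
    exact_mod_cast h1.trans (Nat.choose_le_pow _ _)
  have hunion : ∑ j ∈ G.disjSum (univ : Finset (V × V)),
      Pr (Om := fun _ : Finset V => Bool) P (B j) < 1 := by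
    rw [Finset.sum_disjSum]
    have h1 : ∑ e ∈ G, Pr (Om := fun _ : Finset V => Bool) P (B (Sum.inl e)) ≤
        (n : ℝ) ^ 3 * Real.exp (-(κ * n)) := by
      calc _ ≤ ∑ e ∈ G, Real.exp (-(κ * n)) := Finset.sum_le_sum fun e he => hBe e he
        _ = (G.card : ℝ) * Real.exp (-(κ * n)) := by rw [Finset.sum_const, nsmul_eq_mul]
        _ ≤ _ := mul_le_mul_of_nonneg_right hGcard (Real.exp_pos _).le
    have h2 : ∑ ab : V × V, Pr (Om := fun _ : Finset V => Bool) P (B (Sum.inr ab)) ≤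
        (n : ℝ) ^ 2 * Real.exp (-(κ' * n)) := by
      calc _ ≤ ∑ ab : V × V, Real.exp (-(κ' * n)) := Finset.sum_le_sum fun ab _ => hBab ab
        _ = (n : ℝ) ^ 2 * Real.exp (-(κ' * n)) := by
          rw [Finset.sum_const, nsmul_eq_mul, Finset.card_univ, Fintype.card_prod]
          push_cast
          rw [sq]
    linarith
  obtain ⟨ω, -, hω⟩ := exists_good hprob (G.disjSum (univ : Finset (V × V))) B hunion
  refine ⟨G.filter fun g => ω g = true, Finset.filter_subset _ _, fun a b hab => ?_, fun e he => ?_⟩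
  · have h := hω (Sum.inr (a, b)) (by simp)
    simp only [hB, not_le, Finset.card_singleton, pow_one, Finset.sum_const, nsmul_eq_mul] at h
    have h1 : ((Pbd (G.filter fun g => ω g = true) a b).card : ℝ) ≤
        R2_F (Pbd G a b) (fun v => {({a, b, v} : Finset V)}) ω := by
      have h2 : Pbd (G.filter fun g => ω g = true) a b =
          (Pbd G a b).filter fun v => ∀ g ∈ ({({a, b, v} : Finset V)} : Finset (Finset V)),
            ω g = true := by
        ext v
        simp only [Pbd, Finset.mem_filter, Finset.mem_univ, true_and, Finset.mem_singleton,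
          forall_eq]
        tauto
      rw [h2, Finset.card_filter, R2_F]
      push_cast
      exact le_rfl
    have h3 : ((Pbd G a b).card : ℝ) ≤ n := by exact_mod_cast Finset.card_le_univ _
    have h4 : ((Pbd G a b).card : ℝ) * p ≤ n * p := mul_le_mul_of_nonneg_right h3 hp0
    linarith
  · have h := hω (Sum.inl e) (by simpa using he)
    simp only [hB, not_le] at h
    have hmu : ∑ Q ∈ S e, p ^ (A e Q).card = ((S e).card : ℝ) * p ^ (D - 1) := by
      rw [Finset.sum_congr rfl fun Q hQ => by rw [hAcard e he Q hQ], Finset.sum_const,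
        nsmul_eq_mul]
    have hmu2 : q * (n : ℝ) ^ (r - 3) ≤ ∑ Q ∈ S e, p ^ (A e Q).card := by
      rw [hmu, hq]
      have := hmany e he
      calc c * p ^ (D - 1) * (n : ℝ) ^ (r - 3) = (c * (n : ℝ) ^ (r - 3)) * p ^ (D - 1) := by ring
        _ ≤ ((S e).card : ℝ) * p ^ (D - 1) :=
          mul_le_mul_of_nonneg_right this (by positivity)
    have h5 : R2_F (S e) (A e) ω ≤ ((univ.filter (fun Q : Finset V => Q.card = r ∧ e ⊆ Q ∧
        (tri Q).erase e ⊆ G.filter fun g => ω g = true)).card : ℝ) := by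
      have h6 : ((S e).filter fun Q => ∀ g ∈ A e Q, ω g = true) ⊆
          univ.filter (fun Q : Finset V => Q.card = r ∧ e ⊆ Q ∧
            (tri Q).erase e ⊆ G.filter fun g => ω g = true) := by
        intro Q hQ
        simp only [hS, hA, Finset.mem_filter, Finset.mem_univ, true_and] at hQ ⊢
        refine ⟨hQ.1.1, hQ.1.2.1, fun g hg => ?_⟩
        exact Finset.mem_filter.2 ⟨hQ.1.2.2 (Finset.mem_of_mem_erase hg), hQ.2 g hg⟩
      have h7 : R2_F (S e) (A e) ω =
          ((((S e).filter fun Q => ∀ g ∈ A e Q, ω g = true).card : ℕ) : ℝ) := by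
        rw [Finset.card_filter, R2_F]
        push_cast
        rfl
      rw [h7]
      exact_mod_cast Finset.card_le_card h6
    have : q / 2 * (n : ℝ) ^ (r - 3) ≤ (∑ Q ∈ S e, p ^ (A e Q).card) / 2 := by linarith
    linarith

theorem reserve {r : ℕ} (hr : 4 ≤ r) {ρ : ℝ} (hρ : 0 < ρ) (hF : Frac r ρ) {p : ℝ} (hp : 0 < p)
    (hp1 : p ≤ 1 / 2) :
    ∃ c₂ : ℝ, 0 < c₂ ∧ ∃ n₁ : ℕ, ∀ (V : Type) [Fintype V] [DecidableEq V], n₁ ≤ Fintype.card V →
    ∀ G : Finset (Finset V), (∀ e ∈ G, e.card = 3) →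
      (∀ a b : V, a ≠ b → ((Nbd G a b).card : ℝ) ≤ ρ / 10 * Fintype.card V) →
      ∃ X ⊆ G, (∀ a b : V, a ≠ b → ((Pbd X a b).card : ℝ) ≤ 2 * p * Fintype.card V) ∧
        ∀ e ∈ G, c₂ * (Fintype.card V : ℝ) ^ (r - 3) ≤
          ((univ.filter (fun Q : Finset V => Q.card = r ∧ e ⊆ Q ∧ (tri Q).erase e ⊆ X)).card : ℝ) := by
  obtain ⟨c, hc, n₁, h⟩ := many_cliques hr hρ hF
  obtain ⟨c₂, hc₂, n₂, h₂⟩ := reserve_of_many hr hc hp hp1
  exact ⟨c₂, hc₂, max n₁ n₂, fun V _ _ hV G hG hN =>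
    h₂ V (le_trans (le_max_right _ _) hV) G hG (h V (le_trans (le_max_left _ _) hV) G hG hN)⟩

end MP5cN
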